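import Pool.Agent.H309.DF.Stm

/-! Project DF, L19: the integral over a box of a function of one coordinate. -/

set_option autoImplicit false

open Set Filter Topology MeasureTheory
open scoped ENNReal

namespace Pool.Agent.H309.DF.LBoxInt

open Pool.Agent.Q61.NC

theorem tBoxInt : Pool.Agent.H309.DF.BoxInt := by
  intro a b _ _
  obtain ⟨c, hc, -, hG⟩ := box_lintegral (d := 3) 1 (Icc (-a) a) measurableSet_Icc b
  refine ⟨c, hc, fun H hH => ?_⟩
  rw [← hG H hH]
  refine lintegral_mono_set ?_
  rintro x ⟨h1, h0, h2⟩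
  refine ⟨abs_le.1 h1, fun i hi => ?_⟩
  fin_cases i
  · exact abs_le.1 h0
  · exact absurd rfl hi
  · exact abs_le.1 h2

end Pool.Agent.H309.DF.LBoxInt
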