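import Pool.Agent.H309.DF.Stm

set_option autoImplicit false

namespace Pool.Agent.H309.DF.LCoBessel

open MeasureTheory Set
open Pool.Agent.H309.DF

theorem sn_cont (a : ℝ) (m : ℕ) : Continuous (sn a m) := by
  unfold sn
  fun_prop

/-- the integral of a cosine over whole periods -/
theorem cos_int {a : ℝ} (c : ℝ) (hc : c ≠ 0) (k : ℤ) (hk : c * (2 * a) = k * Real.pi) :
    ∫ y in (-a)..a, Real.cos (c * (y + a)) = 0 := by
  have h1 : ∀ y : ℝ, Real.cos (c * (y + a)) = Real.cos (c * y + c * a) := by
    intro y
    congr 1
    ring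
  rw [intervalIntegral.integral_congr (g := fun y => Real.cos (c * y + c * a)) (fun y _ => h1 y),
    intervalIntegral.integral_comp_mul_add (fun x => Real.cos x) hc, integral_cos]
  have h2 : c * a + c * a = k * Real.pi := by rw [← hk]; ring
  have h3 : c * -a + c * a = 0 := by ring
  rw [h2, h3, Real.sin_int_mul_pi, Real.sin_zero, sub_zero, smul_zero]

/-- orthogonality -/
theorem sn_orth {a : ℝ} (ha : 0 < a) (m n : ℕ) :
    ∫ y in (-a)..a, sn a m y * sn a n y = if m = n then a else 0 := by
  have h1 : ∀ y : ℝ, sn a m y * sn a n y =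
      (1 / 2) * (Real.cos ((mu a m - mu a n) * (y + a)) - Real.cos ((mu a m + mu a n) * (y + a))) := by
    intro y
    unfold sn
    rw [sub_mul, add_mul, Real.cos_sub, Real.cos_add]
    ring
  rw [intervalIntegral.integral_congr (fun y _ => h1 y), intervalIntegral.integral_const_mul,
    intervalIntegral.integral_sub (by apply Continuous.intervalIntegrable; fun_prop)
      (by apply Continuous.intervalIntegrable; fun_prop)]
  have ha' : (2 * a) ≠ 0 := by positivity
  have hmu : ∀ j : ℕ, 0 < mu a j := by
    intro j
    unfold mu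
    positivity
  have hpi := Real.pi_ne_zero
  have h2 : ∫ y in (-a)..a, Real.cos ((mu a m + mu a n) * (y + a)) = 0 := by
    refine cos_int _ (by have := hmu m; have := hmu n; positivity) ((m : ℤ) + n + 2) ?_
    unfold mu
    field_simp
    push_cast
    ring
  rw [h2, sub_zero]
  by_cases hmn : m = n
  · subst hmn
    rw [if_pos rfl, sub_self]
    simp only [zero_mul, Real.cos_zero]
    rw [intervalIntegral.integral_const]
    simp only [smul_eq_mul]
    ring
  · rw [if_neg hmn]
    have h3 : ∫ y in (-a)..a, Real.cos ((mu a m - mu a n) * (y + a)) = 0 := by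
      refine cos_int _ ?_ ((m : ℤ) - n) ?_
      · intro h
        apply hmn
        have h4 : mu a m = mu a n := by linarith
        unfold mu at h4
        rw [div_left_inj' ha', mul_left_inj' hpi, add_left_inj] at h4
        exact_mod_cast h4
      · unfold mu
        field_simp
        push_cast
        ring
    rw [h3, mul_zero]

theorem tCoBessel : Pool.Agent.H309.DF.CoBessel := by
  intro a ha g hg s
  have hle : -a ≤ a := by linarith
  have hgu : ContinuousOn g (uIcc (-a) a) := by rwa [uIcc_of_le hle]
  have hS : Continuous (fun y => ∑ m ∈ s, co a g m * sn a m y) :=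
    continuous_finsetSum _ (fun m _ => continuous_const.mul (sn_cont a m))
  -- the integrals
  have i1 : IntervalIntegrable (fun y => g y ^ 2) volume (-a) a :=
    (hgu.pow 2).intervalIntegrable
  have i2 : ∀ m, IntervalIntegrable (fun y => g y * sn a m y) volume (-a) a := fun m =>
    (hgu.mul (sn_cont a m).continuousOn).intervalIntegrable
  have i3 : ∀ m n, IntervalIntegrable (fun y => sn a m y * sn a n y) volume (-a) a := fun m n =>
    ((sn_cont a m).mul (sn_cont a n)).intervalIntegrable _ _
  have e1 : ∀ m, ∫ y in (-a)..a, g y * sn a m y = a * co a g m := by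
    intro m
    unfold co
    field_simp
  have e2 : ∫ y in (-a)..a, g y * ∑ m ∈ s, co a g m * sn a m y = a * ∑ m ∈ s, co a g m ^ 2 := by
    have h1 : ∀ y : ℝ, g y * ∑ m ∈ s, co a g m * sn a m y =
        ∑ m ∈ s, co a g m * (g y * sn a m y) := by
      intro y
      rw [Finset.mul_sum]
      exact Finset.sum_congr rfl (fun m _ => by ring)
    rw [intervalIntegral.integral_congr (fun y _ => h1 y),
      intervalIntegral.integral_finsetSum (fun m _ => (i2 m).const_mul _), Finset.mul_sum]
    refine Finset.sum_congr rfl (fun m _ => ?_)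
    rw [intervalIntegral.integral_const_mul, e1]
    ring
  have e3 : ∫ y in (-a)..a, (∑ m ∈ s, co a g m * sn a m y) ^ 2 = a * ∑ m ∈ s, co a g m ^ 2 := by
    have h1 : ∀ y : ℝ, (∑ m ∈ s, co a g m * sn a m y) ^ 2 =
        ∑ m ∈ s, ∑ n ∈ s, (co a g m * co a g n) * (sn a m y * sn a n y) := by
      intro y
      rw [sq, Finset.sum_mul_sum]
      exact Finset.sum_congr rfl (fun m _ => Finset.sum_congr rfl (fun n _ => by ring))
    have i6 : ∀ m, IntervalIntegrable (fun y => ∑ n ∈ s,
        (co a g m * co a g n) * (sn a m y * sn a n y)) volume (-a) a := fun m =>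
      Continuous.intervalIntegrable (continuous_finsetSum _ (fun n _ =>
        continuous_const.mul ((sn_cont a m).mul (sn_cont a n)))) _ _
    rw [intervalIntegral.integral_congr (fun y _ => h1 y),
      intervalIntegral.integral_finsetSum (fun m _ => i6 m), Finset.mul_sum]
    refine Finset.sum_congr rfl (fun m hm => ?_)
    rw [intervalIntegral.integral_finsetSum (fun n _ => (i3 m n).const_mul _)]
    have h2 : ∀ n ∈ s, ∫ y in (-a)..a, (co a g m * co a g n) * (sn a m y * sn a n y) =
        if m = n then a * co a g m ^ 2 else 0 := by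
      intro n _
      rw [intervalIntegral.integral_const_mul, sn_orth ha]
      by_cases hmn : m = n
      · subst hmn
        rw [if_pos rfl, if_pos rfl]
        ring
      · rw [if_neg hmn, if_neg hmn, mul_zero]
    rw [Finset.sum_congr rfl h2, Finset.sum_ite_eq, if_pos hm]
  have h0 : 0 ≤ ∫ y in (-a)..a, (g y - ∑ m ∈ s, co a g m * sn a m y) ^ 2 :=
    intervalIntegral.integral_nonneg hle (fun y _ => sq_nonneg _)
  have h1 : ∀ y : ℝ, (g y - ∑ m ∈ s, co a g m * sn a m y) ^ 2 =
      (g y ^ 2 - 2 * (g y * ∑ m ∈ s, co a g m * sn a m y)) +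
        (∑ m ∈ s, co a g m * sn a m y) ^ 2 := by
    intro y
    ring
  have i4 : IntervalIntegrable (fun y => g y * ∑ m ∈ s, co a g m * sn a m y) volume (-a) a :=
    (hgu.mul hS.continuousOn).intervalIntegrable
  have i5 : IntervalIntegrable (fun y => (∑ m ∈ s, co a g m * sn a m y) ^ 2) volume (-a) a :=
    (hS.pow 2).intervalIntegrable _ _
  rw [intervalIntegral.integral_congr (fun y _ => h1 y),
    intervalIntegral.integral_add (i1.sub (i4.const_mul 2)) i5,
    intervalIntegral.integral_sub i1 (i4.const_mul 2), intervalIntegral.integral_const_mul, e2,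
    e3] at h0
  rw [one_div, ← div_eq_inv_mul, le_div_iff₀ ha]
  linarith

end Pool.Agent.H309.DF.LCoBessel
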