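import Pool.Graph.R_pool_sql_team_seeded_3997aac3.Q61.NC.Plate

/-!
# Drifted flatness: shear flows between two plates brought to rest
-/

set_option autoImplicit false

open Set Filter Topology MeasureTheory
open scoped ENNReal

namespace Pool.Agent.H309.DF

open Pool.Agent.Q61.NC

/-- The frequencies of the sine system of `[-a, a]`. -/
noncomputable def mu (a : ℝ) (m : ℕ) : ℝ := ((m : ℝ) + 1) * Real.pi / (2 * a)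

/-- The sine system of `[-a, a]`. -/
noncomputable def sn (a : ℝ) (m : ℕ) (y : ℝ) : ℝ := Real.sin (mu a m * (y + a))

/-- The sine coefficients. -/
noncomputable def co (a : ℝ) (g : ℝ → ℝ) (m : ℕ) : ℝ :=
  (1 / a) * ∫ y in (-a)..a, g y * sn a m y

/-- The solution of `q' = -l q + F`, `q 0 = 0`. -/
noncomputable def du (l : ℝ) (F : ℝ → ℝ) (t : ℝ) : ℝ :=
  ∫ s in (0 : ℝ)..t, Real.exp (-(l * (t - s))) * F s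

/-- A source on `[0, τ] × [-a, a]`, of class `C²` in `y`, vanishing at `y = ± a`. -/
structure Src (a τ : ℝ) (f fy fyy : ℝ → ℝ → ℝ) : Prop where
  c : ContinuousOn (fun z : ℝ × ℝ => f z.1 z.2) (Icc 0 τ ×ˢ Icc (-a) a)
  cy : ContinuousOn (fun z : ℝ × ℝ => fy z.1 z.2) (Icc 0 τ ×ˢ Icc (-a) a)
  cyy : ContinuousOn (fun z : ℝ × ℝ => fyy z.1 z.2) (Icc 0 τ ×ˢ Icc (-a) a)
  dy : ∀ t ∈ Icc 0 τ, ∀ y ∈ Ioo (-a) a, HasDerivAt (f t) (fy t y) y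
  dyy : ∀ t ∈ Icc 0 τ, ∀ y ∈ Ioo (-a) a, HasDerivAt (fy t) (fyy t y) y
  wall : ∀ t ∈ Icc 0 τ, f t a = 0 ∧ f t (-a) = 0

/-- A classical function on `[α, β] × [-a, a]` vanishing at `y = ± a`, with its derivatives. -/
structure Cl (a α β : ℝ) (q qt qy qyy : ℝ → ℝ → ℝ) : Prop where
  c : ContinuousOn (fun z : ℝ × ℝ => q z.1 z.2) (Icc α β ×ˢ Icc (-a) a)
  ct : ContinuousOn (fun z : ℝ × ℝ => qt z.1 z.2) (Icc α β ×ˢ Icc (-a) a)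
  cy : ContinuousOn (fun z : ℝ × ℝ => qy z.1 z.2) (Icc α β ×ˢ Icc (-a) a)
  cyy : ContinuousOn (fun z : ℝ × ℝ => qyy z.1 z.2) (Icc α β ×ˢ Icc (-a) a)
  dt : ∀ t ∈ Ioo α β, ∀ y ∈ Icc (-a) a, HasDerivAt (fun s => q s y) (qt t y) t
  dy : ∀ t ∈ Icc α β, ∀ y ∈ Ioo (-a) a, HasDerivAt (q t) (qy t y) y
  dyy : ∀ t ∈ Icc α β, ∀ y ∈ Ioo (-a) a, HasDerivAt (qy t) (qyy t y) y
  wall : ∀ t ∈ Icc α β, q t a = 0 ∧ q t (-a) = 0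

/-- The profiles `Q 0 = V`, `∂ₜ Q (j + 1) = ∂² Q (j + 1) - W Q j` on `[α, β] × [-a, a]`. -/
structure QFam (a α β : ℝ) (V W : ℝ → ℝ → ℝ) (Q Qt Qy Qyy : ℕ → ℝ → ℝ → ℝ) (D K : ℝ) :
    Prop where
  D0 : 0 ≤ D
  K0 : 0 < K
  cl : ∀ j, Cl a α β (Q j) (Qt j) (Qy j) (Qyy j)
  start : ∀ t ∈ Icc α β, ∀ y ∈ Icc (-a) a, Q 0 t y = V t y ∧ Qt 0 t y = Qyy 0 t y
  next : ∀ j, ∀ t ∈ Icc α β, ∀ y ∈ Icc (-a) a,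
    Qt (j + 1) t y = Qyy (j + 1) t y - W t y * Q j t y
  bd : ∀ j, ∀ t ∈ Icc α β, ∀ y ∈ Icc (-a) a,
    |Q j t y| ≤ D * K ^ j / (j.factorial : ℝ) ∧ |Qt j t y| ≤ D * K ^ j / (j.factorial : ℝ) ∧
    |Qy j t y| ≤ D * K ^ j / (j.factorial : ℝ) ∧ |Qyy j t y| ≤ D * K ^ j / (j.factorial : ℝ)

/-- The switch `R 0` (a solution of the heat equation, `1` for `t ≤ T / 2` and `0` for `t ≥ T`)
and its `z`-derivatives `R j`. -/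
structure RFam (b T ε : ℝ) (R : ℕ → ℝ → ℝ → ℝ) : Prop where
  c : ∀ j, ContinuousOn (fun z : ℝ × ℝ => R j z.1 z.2) (Ioi 0 ×ˢ Icc (-b) b)
  dt : ∀ j t, 0 < t → ∀ z ∈ Icc (-b) b, HasDerivAt (fun s => R j s z) (R (j + 2) t z) t
  dz : ∀ j t, 0 < t → ∀ z ∈ Icc (-b) b, HasDerivAt (R j t) (R (j + 1) t z) z
  one : ∀ t z, 0 < t → t ≤ T / 2 → R 0 t z = 1
  onej : ∀ j t z, 0 < t → t ≤ T / 2 → R (j + 1) t z = 0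
  zero : ∀ j t z, T ≤ t → R j t z = 0
  bd : ∀ t₁ : ℝ, 0 < t₁ → ∃ C : ℝ, 0 ≤ C ∧ ∀ (j : ℕ) (t : ℝ), t₁ ≤ t → ∀ z ∈ Icc (-b) b,
    |R j t z| ≤ C * (j.factorial : ℝ) * ε ^ j

/-- The solution `A` of `∂ₜ A + W ∂_z A = ∂_y² A + ∂_z² A` on `|y| ≤ a`, `|z| ≤ b`, equal to `V`
for `t ≤ T / 2` and to `0` for `t ≥ T`, vanishing at `y = ± a`. -/
structure Drift (a b T : ℝ) (V Vy W : ℝ → ℝ → ℝ) (A At Ay Ayy Az Azz : ℝ → ℝ → ℝ → ℝ) :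
    Prop where
  c : ContinuousOn (fun x : ℝ × ℝ × ℝ => A x.1 x.2.1 x.2.2)
    (Ioi 0 ×ˢ (Icc (-a) a ×ˢ Icc (-b) b))
  ct : ContinuousOn (fun x : ℝ × ℝ × ℝ => At x.1 x.2.1 x.2.2)
    (Ioi 0 ×ˢ (Icc (-a) a ×ˢ Icc (-b) b))
  cy : ContinuousOn (fun x : ℝ × ℝ × ℝ => Ay x.1 x.2.1 x.2.2)
    (Ioi 0 ×ˢ (Icc (-a) a ×ˢ Icc (-b) b))
  cyy : ContinuousOn (fun x : ℝ × ℝ × ℝ => Ayy x.1 x.2.1 x.2.2)
    (Ioi 0 ×ˢ (Icc (-a) a ×ˢ Icc (-b) b))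
  cz : ContinuousOn (fun x : ℝ × ℝ × ℝ => Az x.1 x.2.1 x.2.2)
    (Ioi 0 ×ˢ (Icc (-a) a ×ˢ Icc (-b) b))
  czz : ContinuousOn (fun x : ℝ × ℝ × ℝ => Azz x.1 x.2.1 x.2.2)
    (Ioi 0 ×ˢ (Icc (-a) a ×ˢ Icc (-b) b))
  dt : ∀ t, 0 < t → ∀ y ∈ Icc (-a) a, ∀ z ∈ Icc (-b) b,
    HasDerivAt (fun s => A s y z) (At t y z) t
  dy : ∀ t, 0 < t → ∀ y ∈ Ioo (-a) a, ∀ z ∈ Icc (-b) b,
    HasDerivAt (fun s => A t s z) (Ay t y z) y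
  dyy : ∀ t, 0 < t → ∀ y ∈ Ioo (-a) a, ∀ z ∈ Icc (-b) b,
    HasDerivAt (fun s => Ay t s z) (Ayy t y z) y
  dz : ∀ t, 0 < t → ∀ y ∈ Icc (-a) a, ∀ z ∈ Ioo (-b) b,
    HasDerivAt (fun s => A t y s) (Az t y z) z
  dzz : ∀ t, 0 < t → ∀ y ∈ Icc (-a) a, ∀ z ∈ Ioo (-b) b,
    HasDerivAt (fun s => Az t y s) (Azz t y z) z
  pde : ∀ t, 0 < t → ∀ y ∈ Icc (-a) a, ∀ z ∈ Icc (-b) b,
    At t y z + W t y * Az t y z = Ayy t y z + Azz t y z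
  wall : ∀ t, 0 < t → ∀ z ∈ Icc (-b) b, A t a z = 0 ∧ A t (-a) z = 0
  early : ∀ t, 0 < t → t ≤ T / 2 → ∀ y ∈ Icc (-a) a, ∀ z ∈ Icc (-b) b,
    A t y z = V t y ∧ Ay t y z = Vy t y ∧ Az t y z = 0
  late : ∀ t, T ≤ t → ∀ y ∈ Icc (-a) a, ∀ z ∈ Icc (-b) b,
    A t y z = 0 ∧ Ay t y z = 0 ∧ Az t y z = 0

/-- The closed box `|x 1| ≤ a`, `|x 0| ≤ b`, `|x 2| ≤ b`; the plates are at `x 1 = ± a`. -/
def box (a b : ℝ) : Set (Sp 3) := {x | |x 1| ≤ a ∧ |x 0| ≤ b ∧ |x 2| ≤ b}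

/-- The open box. -/
def obox (a b : ℝ) : Set (Sp 3) := {x | |x 1| < a ∧ |x 0| < b ∧ |x 2| < b}

/-- The vector `(p, 0, q)`. -/
noncomputable def vec (p q : ℝ) : Sp 3 := WithLp.toLp 2 ![p, 0, q]

/-- `(u, p)` is, for positive times, a classical solution of the Navier-Stokes equations with unit
viscosity in the box between the plates: `ut`, `D i`, `DD i` and `dp i` are the derivatives `∂ₜ u`,
`∂ᵢ u`, `∂ᵢ² u` and `∂ᵢ p`; `u`, `p` and these derivatives are continuous up to the boundary of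
the box. The velocity vanishes on the plates `x 1 = ± a`, it starts at `U₀ (x 1)` (in `L²`), it has
finite energy, and it is at rest from time `T` on. -/
def StopsC (a b T : ℝ) (U₀ : ℝ → Sp 3) (u : ℝ → Sp 3 → Sp 3) (p : ℝ → Sp 3 → ℝ) : Prop :=
  ∃ (ut : ℝ → Sp 3 → Sp 3) (D DD : Fin 3 → ℝ → Sp 3 → Sp 3) (dp : ℝ → Sp 3 → Sp 3),
    ContinuousOn (fun z : ℝ × Sp 3 => u z.1 z.2) (Ioi 0 ×ˢ box a b) ∧
    ContinuousOn (fun z : ℝ × Sp 3 => p z.1 z.2) (Ioi 0 ×ˢ box a b) ∧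
    ContinuousOn (fun z : ℝ × Sp 3 => ut z.1 z.2) (Ioi 0 ×ˢ box a b) ∧
    (∀ i, ContinuousOn (fun z : ℝ × Sp 3 => D i z.1 z.2) (Ioi 0 ×ˢ box a b)) ∧
    (∀ i, ContinuousOn (fun z : ℝ × Sp 3 => DD i z.1 z.2) (Ioi 0 ×ˢ box a b)) ∧
    ContinuousOn (fun z : ℝ × Sp 3 => dp z.1 z.2) (Ioi 0 ×ˢ box a b) ∧
    (∀ t, 0 < t → ∀ x ∈ obox a b, HasDerivAt (fun s => u s x) (ut t x) t) ∧
    (∀ t, 0 < t → ∀ x ∈ obox a b, ∀ i,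
      HasLineDerivAt ℝ (u t) (D i t x) x (EuclideanSpace.single i 1)) ∧
    (∀ t, 0 < t → ∀ x ∈ obox a b, ∀ i,
      HasLineDerivAt ℝ (D i t) (DD i t x) x (EuclideanSpace.single i 1)) ∧
    (∀ t, 0 < t → ∀ x ∈ obox a b, ∀ i,
      HasLineDerivAt ℝ (p t) (dp t x i) x (EuclideanSpace.single i 1)) ∧
    (∀ t, 0 < t → ∀ x ∈ box a b,
      ut t x + ∑ i, u t x i • D i t x - ∑ i, DD i t x + dp t x = 0) ∧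
    (∀ t, 0 < t → ∀ x ∈ box a b, ∑ i, D i t x i = 0) ∧
    (∀ t, 0 < t → ∀ x ∈ box a b, |x 1| = a → u t x = 0) ∧
    (∀ t, T ≤ t → ∀ x ∈ box a b, u t x = 0) ∧
    Tendsto (fun t => ∫⁻ x in box a b, ‖u t x - U₀ (x 1)‖ₑ ^ 2) (𝓝[>] 0) (𝓝 0) ∧
    ∫⁻ t in Ioi (0 : ℝ), ∫⁻ x in box a b, ∑ i, ‖D i t x‖ₑ ^ 2 < ⊤

end Pool.Agent.H309.DF
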