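import Pool.Agent.H309.DF.Stm

/-!
# The drifted solution on all times
-/

set_option autoImplicit false

open Set Filter Topology MeasureTheory
open scoped ENNReal ContDiff

namespace Pool.Agent.H309.DF.LDriftEx

open Pool.Agent.Q61.NC Pool.Agent.H309.DF

/-- the series -/
noncomputable def S (P R : ℕ → ℝ → ℝ → ℝ) (i : ℕ) (t y z : ℝ) : ℝ :=
  ∑' j, P j t y * R (j + i) t z

open Classical in
/-- the piecewise defined function -/
noncomputable def pc (T : ℝ) (u v : ℝ → ℝ → ℝ → ℝ) (t y z : ℝ) : ℝ :=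
  if t ≤ T / 2 then u t y z else if T ≤ t then 0 else v t y z

theorem pc_early {T : ℝ} {u v : ℝ → ℝ → ℝ → ℝ} {t : ℝ} (y z : ℝ) (h : t ≤ T / 2) :
    pc T u v t y z = u t y z := by
  unfold pc
  rw [if_pos h]

theorem pc_late {T : ℝ} (hT : 0 < T) {u v : ℝ → ℝ → ℝ → ℝ} {t : ℝ} (y z : ℝ) (h : T ≤ t) :
    pc T u v t y z = 0 := by
  unfold pc
  rw [if_neg (by linarith), if_pos h]

theorem pc_mid {T : ℝ} {u v : ℝ → ℝ → ℝ → ℝ} {t : ℝ} (y z : ℝ) (h1 : ¬ t ≤ T / 2)
    (h2 : ¬ T ≤ t) : pc T u v t y z = v t y z := by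
  unfold pc
  rw [if_neg h1, if_neg h2]

/-- the two definitions agree -/
structure Ov (a b T : ℝ) (u v : ℝ → ℝ → ℝ → ℝ) : Prop where
  l : ∀ t, T / 4 < t → t ≤ T / 2 → ∀ y ∈ Icc (-a) a, ∀ z ∈ Icc (-b) b, v t y z = u t y z
  r : ∀ t, T ≤ t → t < 2 * T → ∀ y ∈ Icc (-a) a, ∀ z ∈ Icc (-b) b, v t y z = 0

theorem Ov.eq {a b T : ℝ} (hT : 0 < T) {u v : ℝ → ℝ → ℝ → ℝ} (h : Ov a b T u v) {t y z : ℝ}
    (h1 : T / 4 < t) (h2 : t < 2 * T) (hy : y ∈ Icc (-a) a) (hz : z ∈ Icc (-b) b) :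
    pc T u v t y z = v t y z := by
  by_cases h3 : t ≤ T / 2
  · rw [pc_early _ _ h3, h.l t h1 h3 y hy z hz]
  · by_cases h4 : T ≤ t
    · rw [pc_late hT _ _ h4, h.r t h4 h2 y hy z hz]
    · rw [pc_mid _ _ h3 h4]

theorem Ov.cont {a b T : ℝ} (hT : 0 < T) {u v : ℝ → ℝ → ℝ → ℝ} (h : Ov a b T u v)
    (hu : ContinuousOn (fun x : ℝ × ℝ × ℝ => u x.1 x.2.1 x.2.2)
      (Ioi 0 ×ˢ (Icc (-a) a ×ˢ Icc (-b) b)))
    (hv : ContinuousOn (fun x : ℝ × ℝ × ℝ => v x.1 x.2.1 x.2.2)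
      (Icc (T / 4) (2 * T) ×ˢ (Icc (-a) a ×ˢ Icc (-b) b))) :
    ContinuousOn (fun x : ℝ × ℝ × ℝ => pc T u v x.1 x.2.1 x.2.2)
      (Ioi 0 ×ˢ (Icc (-a) a ×ˢ Icc (-b) b)) := by
  rintro ⟨t, y, z⟩ ⟨ht, hy, hz⟩
  by_cases h1 : t < T / 2
  · refine (hu (t, y, z) ⟨ht, hy, hz⟩).congr_of_eventuallyEq ?_ (pc_early _ _ h1.le)
    have h2 : {x : ℝ × ℝ × ℝ | x.1 < T / 2} ∈ 𝓝 ((t, y, z) : ℝ × ℝ × ℝ) :=
      (isOpen_lt continuous_fst continuous_const).mem_nhds h1
    filter_upwards [mem_nhdsWithin_of_mem_nhds h2] with x hx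
    exact pc_early _ _ (le_of_lt hx)
  · push Not at h1
    by_cases h2 : t < 2 * T
    · have h3 : {x : ℝ × ℝ × ℝ | T / 4 < x.1 ∧ x.1 < 2 * T} ∈ 𝓝 ((t, y, z) : ℝ × ℝ × ℝ) :=
        ((isOpen_lt continuous_const continuous_fst).inter
          (isOpen_lt continuous_fst continuous_const)).mem_nhds ⟨by
            change T / 4 < t
            linarith, h2⟩
      have h4 : Icc (T / 4) (2 * T) ×ˢ (Icc (-a) a ×ˢ Icc (-b) b) ∈
          𝓝[Ioi 0 ×ˢ (Icc (-a) a ×ˢ Icc (-b) b)] ((t, y, z) : ℝ × ℝ × ℝ) := by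
        filter_upwards [mem_nhdsWithin_of_mem_nhds h3, self_mem_nhdsWithin] with x hx hx'
        exact ⟨⟨hx.1.le, hx.2.le⟩, hx'.2⟩
      have h5 : T / 4 < t := by linarith
      refine ((hv (t, y, z) ⟨⟨h5.le, h2.le⟩, hy, hz⟩).mono_of_mem_nhdsWithin
        h4).congr_of_eventuallyEq ?_ (h.eq hT h5 h2 hy hz)
      filter_upwards [mem_nhdsWithin_of_mem_nhds h3, self_mem_nhdsWithin] with x hx hx'
      exact h.eq hT hx.1 hx.2 hx'.2.1 hx'.2.2
    · push Not at h2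
      refine (continuousWithinAt_const (b := (0 : ℝ))).congr_of_eventuallyEq ?_
        (pc_late hT _ _ (by linarith))
      have h3 : {x : ℝ × ℝ × ℝ | T < x.1} ∈ 𝓝 ((t, y, z) : ℝ × ℝ × ℝ) :=
        (isOpen_lt continuous_const continuous_fst).mem_nhds (by
          change T < t
          linarith)
      filter_upwards [mem_nhdsWithin_of_mem_nhds h3] with x hx
      exact pc_late hT _ _ (le_of_lt hx)

theorem Ov.dt {a b T : ℝ} (hT : 0 < T) {u v u' v' : ℝ → ℝ → ℝ → ℝ} (h : Ov a b T u v)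
    (h' : Ov a b T u' v') {y z : ℝ} (hy : y ∈ Icc (-a) a) (hz : z ∈ Icc (-b) b)
    (hu : ∀ t, 0 < t → HasDerivAt (fun s => u s y z) (u' t y z) t)
    (hv : ∀ t ∈ Ioo (T / 4) (2 * T), HasDerivAt (fun s => v s y z) (v' t y z) t) (t : ℝ)
    (ht : 0 < t) : HasDerivAt (fun s => pc T u v s y z) (pc T u' v' t y z) t := by
  by_cases h1 : t < T / 2
  · rw [pc_early _ _ h1.le]
    refine (hu t ht).congr_of_eventuallyEq ?_
    filter_upwards [Iio_mem_nhds h1] with s hs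
    exact pc_early _ _ (le_of_lt hs)
  · push Not at h1
    by_cases h2 : t < 2 * T
    · have h5 : T / 4 < t := by linarith
      rw [h'.eq hT h5 h2 hy hz]
      refine (hv t ⟨h5, h2⟩).congr_of_eventuallyEq ?_
      filter_upwards [Ioo_mem_nhds h5 h2] with s hs
      exact h.eq hT hs.1 hs.2 hy hz
    · push Not at h2
      rw [pc_late hT _ _ (by linarith)]
      refine (hasDerivAt_const t (0 : ℝ)).congr_of_eventuallyEq ?_
      have h3 : T < t := by linarith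
      filter_upwards [Ioi_mem_nhds h3] with s hs
      exact pc_late hT _ _ (le_of_lt hs)

/-! ### the free flow -/

theorem Dom_open (Y : ℝ) : IsOpen (Dom Y) :=
  (isOpen_lt continuous_const continuous_fst).inter
    (isOpen_lt (continuous_abs.comp continuous_snd) continuous_const)

theorem tcont {a : ℝ} {f : ℝ → ℝ} {V Vt Vy : ℝ → ℝ → ℝ} (h : OddFlow a f V Vt Vy) :
    ContinuousOn (fun q : ℝ × ℝ => Vt q.1 q.2) (Dom (2 * a)) := by
  have h1 : ContinuousOn (fderiv ℝ (fun q : ℝ × ℝ => V q.1 q.2)) (Dom (2 * a)) :=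
    h.smooth.continuousOn_fderiv_of_isOpen (Dom_open _) (by norm_num)
  have h2 : ContinuousOn (fun q : ℝ × ℝ => fderiv ℝ (fun q : ℝ × ℝ => V q.1 q.2) q (1, 0))
      (Dom (2 * a)) := h1.clm_apply continuousOn_const
  refine h2.congr ?_
  rintro ⟨t, y⟩ ⟨ht, hy⟩
  have h3 : DifferentiableAt ℝ (fun q : ℝ × ℝ => V q.1 q.2) (t, y) :=
    (h.smooth.differentiableOn (by norm_num)).differentiableAt
      ((Dom_open _).mem_nhds ⟨ht, hy⟩)
  have h4 : HasDerivAt (fun s : ℝ => (s, y)) ((1 : ℝ), (0 : ℝ)) t :=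
    (hasDerivAt_id t).prodMk (hasDerivAt_const t y)
  have h5 := h3.hasFDerivAt.comp_hasDerivAt t h4
  exact (h.dt t y ht hy).unique h5

theorem lift {a b : ℝ} (ha : 0 < a) {U : ℝ → ℝ → ℝ}
    (h : ContinuousOn (fun q : ℝ × ℝ => U q.1 q.2) (Dom (2 * a))) :
    ContinuousOn (fun x : ℝ × ℝ × ℝ => U x.1 x.2.1) (Ioi 0 ×ˢ (Icc (-a) a ×ˢ Icc (-b) b)) := by
  have h1 : ContinuousOn (fun x : ℝ × ℝ × ℝ => (x.1, x.2.1))
      (Ioi 0 ×ˢ (Icc (-a) a ×ˢ Icc (-b) b)) := by fun_prop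
  refine h.comp h1 ?_
  rintro x ⟨hx1, hx2, -⟩
  refine ⟨hx1, ?_⟩
  have h2 : |x.2.1| ≤ a := abs_le.2 hx2
  linarith

/-! ### the sums for early and late times -/

section sums

variable {b T ε : ℝ} {R : ℕ → ℝ → ℝ → ℝ}

theorem S_early0 (hR : RFam b T ε R) (P : ℕ → ℝ → ℝ → ℝ) {t : ℝ} (y z : ℝ) (ht : 0 < t)
    (h : t ≤ T / 2) : S P R 0 t y z = P 0 t y := by
  unfold S
  rw [tsum_eq_single 0]
  · change P 0 t y * R 0 t z = P 0 t y
    rw [hR.one t z ht h, mul_one]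
  · intro j hj
    obtain ⟨k, rfl⟩ := Nat.exists_eq_succ_of_ne_zero hj
    change P (k + 1) t y * R (k + 1) t z = 0
    rw [hR.onej k t z ht h, mul_zero]

theorem S_early (hR : RFam b T ε R) (P : ℕ → ℝ → ℝ → ℝ) (i : ℕ) {t : ℝ} (y z : ℝ) (ht : 0 < t)
    (h : t ≤ T / 2) : S P R (i + 1) t y z = 0 := by
  unfold S
  have h1 : ∀ j, P j t y * R (j + (i + 1)) t z = 0 := by
    intro j
    change P j t y * R (j + i + 1) t z = 0
    rw [hR.onej (j + i) t z ht h, mul_zero]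
  simp_rw [h1]
  exact tsum_zero

theorem S_late (hR : RFam b T ε R) (P : ℕ → ℝ → ℝ → ℝ) (i : ℕ) {t : ℝ} (y z : ℝ)
    (h : T ≤ t) : S P R i t y z = 0 := by
  unfold S
  have h1 : ∀ j, P j t y * R (j + i) t z = 0 := by
    intro j
    rw [hR.zero _ t z h, mul_zero]
  simp_rw [h1]
  exact tsum_zero

end sums

theorem tDriftEx (h1 : Fam) (h2 : SwitchFam) (h3 : SumCont) (h4 : SumDer) :
    Pool.Agent.H309.DF.DriftEx := by
  intro a b T ha hb hT f g V Vt Vy W Wt Wy hV hW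
  have hT4 : 0 < T / 4 := by linarith
  obtain ⟨Q, Qt, Qy, Qyy, D, K, hQ⟩ := h1 a (T / 4) (2 * T) ha hT4 (by linarith) f g
    V Vt Vy W Wt Wy hV hW
  have hK := hQ.K0
  have hε : 0 < 1 / (2 * K) := by positivity
  have hKε : K * (1 / (2 * K)) ≤ 1 / 2 := by
    apply le_of_eq
    field_simp
  obtain ⟨R, hR⟩ := h2 b T (1 / (2 * K)) hb hT hε
  obtain ⟨C, hC, hRb⟩ := hR.bd (T / 4) hT4
  have hRb' : ∀ (j : ℕ), ∀ t ∈ Icc (T / 4) (2 * T), ∀ z ∈ Icc (-b) b,
      |R j t z| ≤ C * (j.factorial : ℝ) * (1 / (2 * K)) ^ j := fun j t ht z hz =>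
    hRb j t ht.1 z hz
  have hRc : ∀ j, ContinuousOn (fun z : ℝ × ℝ => R j z.1 z.2)
      (Icc (T / 4) (2 * T) ×ˢ Icc (-b) b) := fun j =>
    (hR.c j).mono (prod_mono (fun t ht => lt_of_lt_of_le hT4 ht.1) (subset_refl _))
  have hpos : ∀ t ∈ Icc (T / 4) (2 * T), 0 < t := fun t ht => lt_of_lt_of_le hT4 ht.1
  -- the sums
  have cQ := fun i => h3 (T / 4) (2 * T) a b D K C (1 / (2 * K)) hQ.D0 hK hC hε hKε Q R i
    (fun j => (hQ.cl j).c) hRc (fun j t ht y hy => (hQ.bd j t ht y hy).1) hRb'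
  have cQt := fun i => h3 (T / 4) (2 * T) a b D K C (1 / (2 * K)) hQ.D0 hK hC hε hKε Qt R i
    (fun j => (hQ.cl j).ct) hRc (fun j t ht y hy => (hQ.bd j t ht y hy).2.1) hRb'
  have cQy := fun i => h3 (T / 4) (2 * T) a b D K C (1 / (2 * K)) hQ.D0 hK hC hε hKε Qy R i
    (fun j => (hQ.cl j).cy) hRc (fun j t ht y hy => (hQ.bd j t ht y hy).2.2.1) hRb'
  have cQyy := fun i => h3 (T / 4) (2 * T) a b D K C (1 / (2 * K)) hQ.D0 hK hC hε hKε Qyy R i
    (fun j => (hQ.cl j).cyy) hRc (fun j t ht y hy => (hQ.bd j t ht y hy).2.2.2) hRb'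
  obtain ⟨d1, d2, d3, d4, d5⟩ := h4 (T / 4) (2 * T) a b C (1 / (2 * K)) ha hb hC hε V W
    Q Qt Qy Qyy R D K hKε hQ hRb' (fun j t ht z hz => hR.dt j t (hpos t ht) z hz)
    (fun j t ht z hz => hR.dz j t (hpos t ht) z hz)
  -- the first profile
  have hIoo : ∀ t, T / 4 < t → t < 2 * T → t ∈ Icc (T / 4) (2 * T) := fun t h5 h6 =>
    ⟨h5.le, h6.le⟩
  have hya : ∀ y ∈ Icc (-a) a, |y| < 2 * a := fun y hy => by
    have : |y| ≤ a := abs_le.2 hy
    linarith
  have eQt : ∀ t, T / 4 < t → t < 2 * T → ∀ y ∈ Icc (-a) a, Qt 0 t y = Vt t y := by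
    intro t h5 h6 y hy
    have h7 := (hQ.cl 0).dt t ⟨h5, h6⟩ y hy
    have h8 : HasDerivAt (fun s => V s y) (Qt 0 t y) t := by
      refine h7.congr_of_eventuallyEq ?_
      filter_upwards [Ioo_mem_nhds h5 h6] with s hs
      exact (hQ.start s ⟨hs.1.le, hs.2.le⟩ y hy).1.symm
    exact h8.unique (hV.dt t y (by linarith) (hya y hy))
  have eQyy : ∀ t, T / 4 < t → t < 2 * T → ∀ y ∈ Icc (-a) a, Qyy 0 t y = Vt t y := by
    intro t h5 h6 y hy
    rw [← (hQ.start t (hIoo t h5 h6) y hy).2, eQt t h5 h6 y hy]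
  have eQy : ∀ t, T / 4 < t → t < 2 * T → ∀ y ∈ Icc (-a) a, Qy 0 t y = Vy t y := by
    intro t h5 h6
    have h7 : EqOn (Qy 0 t) (Vy t) (Ioo (-a) a) := by
      intro y hy
      have h8 := (hQ.cl 0).dy t (hIoo t h5 h6) y hy
      have h9 : HasDerivAt (fun v => V t v) (Qy 0 t y) y := by
        refine h8.congr_of_eventuallyEq ?_
        filter_upwards [Ioo_mem_nhds hy.1 hy.2] with s hs
        exact (hQ.start t (hIoo t h5 h6) s ⟨hs.1.le, hs.2.le⟩).1.symm
      exact h9.unique (hV.dy t y (by linarith) (hya y ⟨hy.1.le, hy.2.le⟩))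
    have h8 : ContinuousOn (Qy 0 t) (Icc (-a) a) := by
      have h9 : ContinuousOn (fun y : ℝ => (t, y)) (Icc (-a) a) := by fun_prop
      exact (hQ.cl 0).cy.comp h9 fun y hy => ⟨hIoo t h5 h6, hy⟩
    have h9 : ContinuousOn (Vy t) (Icc (-a) a) := by
      have h9 : ContinuousOn (fun y : ℝ => (t, y)) (Icc (-a) a) := by fun_prop
      exact hV.ycont.comp h9 fun y hy => ⟨by simp only; linarith, hya y hy⟩
    have h10 := h7.of_subset_closure h8 h9 Ioo_subset_Icc_self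
      (by rw [closure_Ioo (by linarith : (-a) ≠ a)])
    exact fun y hy => h10 hy
  -- agreement
  have oA : Ov a b T (fun t y _ => V t y) (fun t y z => S Q R 0 t y z) := by
    refine ⟨fun t h5 h6 y hy z hz => ?_, fun t h5 h6 y hy z hz => S_late hR Q 0 y z h5⟩
    rw [S_early0 hR Q y z (by linarith) h6]
    exact (hQ.start t ⟨h5.le, by linarith⟩ y hy).1
  have oAt : Ov a b T (fun t y _ => Vt t y) (fun t y z => S Qt R 0 t y z + S Q R 2 t y z) := by
    refine ⟨fun t h5 h6 y hy z hz => ?_, fun t h5 h6 y hy z hz => ?_⟩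
    · rw [S_early0 hR Qt y z (by linarith) h6, S_early hR Q 1 y z (by linarith) h6, add_zero]
      exact eQt t h5 (by linarith) y hy
    · rw [S_late hR Qt 0 y z h5, S_late hR Q 2 y z h5, add_zero]
  have oAy : Ov a b T (fun t y _ => Vy t y) (fun t y z => S Qy R 0 t y z) := by
    refine ⟨fun t h5 h6 y hy z hz => ?_, fun t h5 h6 y hy z hz => S_late hR Qy 0 y z h5⟩
    rw [S_early0 hR Qy y z (by linarith) h6]
    exact eQy t h5 (by linarith) y hy
  have oAyy : Ov a b T (fun t y _ => Vt t y) (fun t y z => S Qyy R 0 t y z) := by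
    refine ⟨fun t h5 h6 y hy z hz => ?_, fun t h5 h6 y hy z hz => S_late hR Qyy 0 y z h5⟩
    rw [S_early0 hR Qyy y z (by linarith) h6]
    exact eQyy t h5 (by linarith) y hy
  have oAz : Ov a b T (fun _ _ _ => 0) (fun t y z => S Q R 1 t y z) :=
    ⟨fun t h5 h6 y hy z hz => S_early hR Q 0 y z (by linarith) h6,
      fun t h5 h6 y hy z hz => S_late hR Q 1 y z h5⟩
  have oAzz : Ov a b T (fun _ _ _ => 0) (fun t y z => S Q R 2 t y z) :=
    ⟨fun t h5 h6 y hy z hz => S_early hR Q 1 y z (by linarith) h6,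
      fun t h5 h6 y hy z hz => S_late hR Q 2 y z h5⟩
  have hmid : ∀ t, ¬ t ≤ T / 2 → ¬ T ≤ t → t ∈ Icc (T / 4) (2 * T) := fun t h5 h6 =>
    ⟨by linarith, by linarith⟩
  refine ⟨pc T (fun t y _ => V t y) (fun t y z => S Q R 0 t y z),
    pc T (fun t y _ => Vt t y) (fun t y z => S Qt R 0 t y z + S Q R 2 t y z),
    pc T (fun t y _ => Vy t y) (fun t y z => S Qy R 0 t y z),
    pc T (fun t y _ => Vt t y) (fun t y z => S Qyy R 0 t y z),
    pc T (fun _ _ _ => 0) (fun t y z => S Q R 1 t y z),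
    pc T (fun _ _ _ => 0) (fun t y z => S Q R 2 t y z), ?_⟩
  constructor
  · exact oA.cont hT (lift ha hV.smooth.continuousOn) (cQ 0).1
  · exact oAt.cont hT (lift ha (tcont hV)) ((cQt 0).1.add (cQ 2).1)
  · exact oAy.cont hT (lift ha hV.ycont) (cQy 0).1
  · exact oAyy.cont hT (lift ha (tcont hV)) (cQyy 0).1
  · exact oAz.cont hT continuousOn_const (cQ 1).1
  · exact oAzz.cont hT continuousOn_const (cQ 2).1
  · intro t ht y hy z hz
    exact oA.dt hT oAt hy hz (fun t ht => hV.dt t y ht (hya y hy))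
      (fun t ht => d1 t ht y hy z hz) t ht
  · -- dy
    intro t ht y hy z hz
    by_cases h5 : t ≤ T / 2
    · simp only [pc_early _ _ h5]
      exact hV.dy t y ht (hya y ⟨hy.1.le, hy.2.le⟩)
    · by_cases h6 : T ≤ t
      · simp only [pc_late hT _ _ h6]
        exact hasDerivAt_const _ _
      · simp only [pc_mid _ _ h5 h6]
        exact d2 t (hmid t h5 h6) y hy z hz
  · -- dyy
    intro t ht y hy z hz
    by_cases h5 : t ≤ T / 2
    · simp only [pc_early _ _ h5]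
      exact hV.dyy t y ht (hya y ⟨hy.1.le, hy.2.le⟩)
    · by_cases h6 : T ≤ t
      · simp only [pc_late hT _ _ h6]
        exact hasDerivAt_const _ _
      · simp only [pc_mid _ _ h5 h6]
        exact d3 t (hmid t h5 h6) y hy z hz
  · -- dz
    intro t ht y hy z hz
    by_cases h5 : t ≤ T / 2
    · simp only [pc_early _ _ h5]
      exact hasDerivAt_const _ _
    · by_cases h6 : T ≤ t
      · simp only [pc_late hT _ _ h6]
        exact hasDerivAt_const _ _
      · simp only [pc_mid _ _ h5 h6]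
        exact d4 t (hmid t h5 h6) y hy z hz
  · -- dzz
    intro t ht y hy z hz
    by_cases h5 : t ≤ T / 2
    · simp only [pc_early _ _ h5]
      exact hasDerivAt_const _ _
    · by_cases h6 : T ≤ t
      · simp only [pc_late hT _ _ h6]
        exact hasDerivAt_const _ _
      · simp only [pc_mid _ _ h5 h6]
        exact d5 t (hmid t h5 h6) y hy z hz
  · -- the equation
    intro t ht y hy z hz
    by_cases h5 : t ≤ T / 2
    · simp only [pc_early _ _ h5]
      ring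
    · by_cases h6 : T ≤ t
      · simp only [pc_late hT _ _ h6]
        ring
      · simp only [pc_mid _ _ h5 h6]
        have hI := hmid t h5 h6
        have e1 : S Qt R 0 t y z + W t y * S Q R 1 t y z = S Qyy R 0 t y z := by
          unfold S
          have s1 := (cQt 0).2 t hI y hy z hz
          have s2 := (cQyy 0).2 t hI y hy z hz
          have s3 := (cQ 1).2 t hI y hy z hz
          rw [s1.tsum_eq_zero_add, s2.tsum_eq_zero_add, ← tsum_mul_left]
          have e2 : ∀ j, Qt (j + 1) t y * R (j + 1 + 0) t z =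
              Qyy (j + 1) t y * R (j + 1 + 0) t z - W t y * (Q j t y * R (j + 1) t z) := by
            intro j
            rw [hQ.next j t hI y hy]
            change (Qyy (j + 1) t y - W t y * Q j t y) * R (j + 1) t z =
              Qyy (j + 1) t y * R (j + 1) t z - W t y * (Q j t y * R (j + 1) t z)
            ring
          simp_rw [e2]
          rw [((summable_nat_add_iff 1).2 s2).tsum_sub (s3.mul_left _),
            (hQ.start t hI y hy).2]
          ring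
        linarith
  · -- walls
    intro t ht z hz
    by_cases h5 : t ≤ T / 2
    · simp only [pc_early _ _ h5]
      exact hV.wall t ht
    · by_cases h6 : T ≤ t
      · simp only [pc_late hT _ _ h6]
        exact ⟨trivial, trivial⟩
      · simp only [pc_mid _ _ h5 h6]
        unfold S
        have hI := hmid t h5 h6
        have e1 : ∀ j, Q j t a * R (j + 0) t z = 0 := fun j => by
          rw [((hQ.cl j).wall t hI).1, zero_mul]
        have e2 : ∀ j, Q j t (-a) * R (j + 0) t z = 0 := fun j => by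
          rw [((hQ.cl j).wall t hI).2, zero_mul]
        simp_rw [e1, e2]
        exact ⟨tsum_zero, tsum_zero⟩
  · intro t ht h5 y hy z hz
    exact ⟨pc_early _ _ h5, pc_early _ _ h5, pc_early _ _ h5⟩
  · intro t h5 y hy z hz
    exact ⟨pc_late hT _ _ h5, pc_late hT _ _ h5, pc_late hT _ _ h5⟩

end Pool.Agent.H309.DF.LDriftEx
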