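import Pool.Agent.H309.DF.Stm

/-! # The Duhamel integral of a scalar linear ordinary differential equation -/

set_option autoImplicit false

open Set Filter Topology MeasureTheory

namespace Pool.Agent.H309.DF.LDuFacts

open Pool.Agent.H309.DF

private theorem du_congr {l τ : ℝ} {F G : ℝ → ℝ} (h : ∀ t ∈ Icc 0 τ, G t = F t) {t : ℝ}
    (ht : t ∈ Icc 0 τ) : du l F t = du l G t := by
  unfold du
  refine intervalIntegral.integral_congr fun s hs => ?_
  rw [uIcc_of_le ht.1] at hs
  rw [h s ⟨hs.1, hs.2.trans ht.2⟩]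

private theorem du_eq {l : ℝ} (G : ℝ → ℝ) (t : ℝ) :
    du l G t = Real.exp (-(l * t)) * ∫ s in (0 : ℝ)..t, Real.exp (l * s) * G s := by
  unfold du
  rw [← intervalIntegral.integral_const_mul]
  refine intervalIntegral.integral_congr fun s _ => ?_
  rw [← mul_assoc, ← Real.exp_add]
  congr 2
  ring

private theorem du_deriv {l : ℝ} {G : ℝ → ℝ} (hG : Continuous G) (t : ℝ) :
    HasDerivAt (du l G) (-(l * du l G t) + G t) t := by
  have hfun : du l G = fun t => Real.exp (-(l * t)) * ∫ s in (0 : ℝ)..t, Real.exp (l * s) * G s :=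
    funext fun t => du_eq G t
  have hc : Continuous fun s => Real.exp (l * s) * G s := by fun_prop
  have h1 : HasDerivAt (fun t => ∫ s in (0 : ℝ)..t, Real.exp (l * s) * G s)
      (Real.exp (l * t) * G t) t :=
    intervalIntegral.integral_hasDerivAt_right (hc.intervalIntegrable _ _)
      (hc.stronglyMeasurableAtFilter _ _) hc.continuousAt
  have h2 : HasDerivAt (fun t : ℝ => Real.exp (-(l * t))) (Real.exp (-(l * t)) * -(l * 1)) t :=
    (((hasDerivAt_id t).const_mul l).neg).exp
  have h3 := h2.mul h1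
  rw [hfun]
  refine h3.congr_deriv ?_
  simp only
  have h4 : Real.exp (-(l * t)) * (Real.exp (l * t) * G t) = G t := by
    rw [← mul_assoc, ← Real.exp_add, neg_add_cancel, Real.exp_zero, one_mul]
  rw [h4]
  ring

private theorem kernel_int {l : ℝ} (hl : 0 < l) (t : ℝ) :
    ∫ s in (0 : ℝ)..t, Real.exp (-(l * (t - s))) ^ 2 ≤ 1 / (2 * l) := by
  have h1 : ∀ s ∈ uIcc 0 t, HasDerivAt (fun s => Real.exp (-(2 * l * (t - s))) / (2 * l))
      (Real.exp (-(l * (t - s))) ^ 2) s := by
    intro s _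
    have h2 : HasDerivAt (fun s : ℝ => -(2 * l * (t - s))) (-(2 * l * (0 - 1))) s :=
      (((hasDerivAt_const s t).sub (hasDerivAt_id s)).const_mul (2 * l)).neg
    refine (h2.exp.div_const (2 * l)).congr_deriv ?_
    have h3 : Real.exp (-(2 * l * (t - s))) = Real.exp (-(l * (t - s))) ^ 2 := by
      rw [← Real.exp_nat_mul]
      congr 1
      push_cast
      ring
    rw [h3]
    field_simp
    ring
  rw [intervalIntegral.integral_eq_sub_of_hasDerivAt h1
    ((by fun_prop : Continuous fun s => Real.exp (-(l * (t - s))) ^ 2).intervalIntegrable _ _)]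
  rw [sub_self, mul_zero, neg_zero, Real.exp_zero]
  have h4 : 0 ≤ Real.exp (-(2 * l * (t - 0))) / (2 * l) := by positivity
  linarith

theorem tDuFacts : Pool.Agent.H309.DF.DuFacts := by
  intro l τ hl hτ F hF
  obtain ⟨G, hG, hGF⟩ : ∃ G : ℝ → ℝ, Continuous G ∧ ∀ t ∈ Icc 0 τ, G t = F t := by
    refine ⟨IccExtend hτ.le ((Icc 0 τ).domRestrict F), hF.domRestrict.Icc_extend', fun t ht => ?_⟩
    rw [IccExtend_of_mem _ _ ht]
    rfl
  have heq : ∀ t ∈ Icc 0 τ, du l F t = du l G t := fun t ht => du_congr hGF ht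
  have hcont : Continuous (du l G) :=
    continuous_iff_continuousAt.2 fun t => (du_deriv hG t).continuousAt
  have hk : ∀ t s, s ≤ t → Real.exp (-(l * (t - s))) ≤ 1 := by
    intro t s hst
    rw [Real.exp_le_one_iff]
    have := mul_nonneg hl.le (sub_nonneg.2 hst)
    linarith
  refine ⟨hcont.continuousOn.congr heq, fun t ht => ?_, fun t ht => ?_, fun t ht => ?_⟩
  · have h1 := du_deriv (l := l) hG t
    have ht' : t ∈ Icc 0 τ := Ioo_subset_Icc_self ht
    rw [← heq t ht', hGF t ht'] at h1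
    refine h1.congr_of_eventuallyEq ?_
    filter_upwards [Icc_mem_nhds ht.1 ht.2] with s hs
    exact heq s hs
  · rw [heq t ht]
    have h1 : ∫ s in (0 : ℝ)..t, |F s| = ∫ s in (0 : ℝ)..t, |G s| := by
      refine intervalIntegral.integral_congr fun s hs => ?_
      rw [uIcc_of_le ht.1] at hs
      rw [hGF s ⟨hs.1, hs.2.trans ht.2⟩]
    rw [h1]
    unfold du
    refine (intervalIntegral.abs_integral_le_integral_abs ht.1).trans ?_
    refine intervalIntegral.integral_mono_on ht.1
      ((by fun_prop : Continuous fun s => |Real.exp (-(l * (t - s))) * G s|).intervalIntegrable _ _)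
      (hG.abs.intervalIntegrable _ _) fun s hs => ?_
    rw [abs_mul, abs_of_pos (Real.exp_pos _)]
    exact mul_le_of_le_one_left (abs_nonneg _) (hk t s hs.2)
  · rw [heq t ht]
    have h1 : ∫ s in (0 : ℝ)..τ, F s ^ 2 = ∫ s in (0 : ℝ)..τ, G s ^ 2 := by
      refine intervalIntegral.integral_congr fun s hs => ?_
      rw [uIcc_of_le hτ.le] at hs
      rw [hGF s hs]
    rw [h1]
    have hGi : ∀ a b : ℝ, IntervalIntegrable (fun s => G s ^ 2) volume a b :=
      fun a b => (hG.pow 2).intervalIntegrable a b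
    have h2 : ∫ s in (0 : ℝ)..t, G s ^ 2 ≤ ∫ s in (0 : ℝ)..τ, G s ^ 2 := by
      rw [← intervalIntegral.integral_add_adjacent_intervals (hGi 0 t) (hGi t τ)]
      have := intervalIntegral.integral_nonneg (μ := volume) (f := fun s => G s ^ 2) ht.2
        fun s _ => sq_nonneg (G s)
      linarith
    obtain ⟨a, ha⟩ : ∃ a : ℝ, a = du l G t := ⟨_, rfl⟩
    obtain ⟨c, hc⟩ : ∃ c : ℝ, c = a * (2 * l) := ⟨_, rfl⟩
    have h3 : 0 ≤ ∫ s in (0 : ℝ)..t, (G s - c * Real.exp (-(l * (t - s)))) ^ 2 :=
      intervalIntegral.integral_nonneg ht.1 fun s _ => sq_nonneg _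
    have h4 : (fun s => (G s - c * Real.exp (-(l * (t - s)))) ^ 2) = fun s =>
        G s ^ 2 - (2 * c) * (Real.exp (-(l * (t - s))) * G s) +
          c ^ 2 * Real.exp (-(l * (t - s))) ^ 2 := by
      funext s
      ring
    have hi1 : IntervalIntegrable (fun s => (2 * c) * (Real.exp (-(l * (t - s))) * G s)) volume 0 t :=
      (by fun_prop : Continuous fun s => (2 * c) * (Real.exp (-(l * (t - s))) * G s)).intervalIntegrable
        _ _
    have hi2 : IntervalIntegrable (fun s => c ^ 2 * Real.exp (-(l * (t - s))) ^ 2) volume 0 t :=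
      (by fun_prop : Continuous fun s => c ^ 2 * Real.exp (-(l * (t - s))) ^ 2).intervalIntegrable
        _ _
    rw [h4, intervalIntegral.integral_add ((hGi 0 t).sub hi1) hi2,
      intervalIntegral.integral_sub (hGi 0 t) hi1, intervalIntegral.integral_const_mul,
      intervalIntegral.integral_const_mul] at h3
    have h5 : ∫ s in (0 : ℝ)..t, Real.exp (-(l * (t - s))) * G s = a := by
      rw [ha]
      rfl
    rw [h5] at h3
    have h6 := mul_le_mul_of_nonneg_left (kernel_int hl t) (sq_nonneg c)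
    rw [← ha]
    have h7 : c ^ 2 * (1 / (2 * l)) = a ^ 2 * (2 * l) := by
      rw [hc]
      field_simp
    have h8 : 2 * c * a = 2 * (a ^ 2 * (2 * l)) := by
      rw [hc]
      ring
    have h9 : a ^ 2 * (2 * l) ≤ ∫ s in (0 : ℝ)..τ, G s ^ 2 := by
      linarith
    have h10 : a ^ 2 = (1 / (2 * l)) * (a ^ 2 * (2 * l)) := by
      field_simp
    rw [h10]
    exact mul_le_mul_of_nonneg_left h9 (by positivity)

end Pool.Agent.H309.DF.LDuFacts
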