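import Pool.Agent.H309.DF.Stm

/-! # Finiteness of the energy -/

set_option autoImplicit false

open Set Filter Topology MeasureTheory
open scoped ENNReal

namespace Pool.Agent.H309.DF.LEnergyS

open Pool.Agent.Q61.NC
open Pool.Agent.H309.DF

theorem coord_cont (i : Fin 3) : Continuous fun x : Sp 3 => x i :=
  (EuclideanSpace.proj i : Sp 3 →L[ℝ] ℝ).continuous

theorem box_closed (a b : ℝ) : IsClosed (box a b) := by
  unfold box
  exact (isClosed_le (coord_cont 1).abs continuous_const).inter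
    ((isClosed_le (coord_cont 0).abs continuous_const).inter
      (isClosed_le (coord_cont 2).abs continuous_const))

theorem box_compact (a b : ℝ) : IsCompact (box a b) := by
  refine Metric.isCompact_of_isClosed_isBounded (box_closed a b) ?_
  rw [isBounded_iff_forall_norm_le]
  refine ⟨Real.sqrt (b ^ 2 + a ^ 2 + b ^ 2), ?_⟩
  rintro x ⟨h1, h0, h2⟩
  rw [EuclideanSpace.norm_eq]
  refine Real.sqrt_le_sqrt ?_
  rw [Fin.sum_univ_three]
  simp only [Real.norm_eq_abs]
  have := pow_le_pow_left₀ (abs_nonneg _) h0 2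
  have := pow_le_pow_left₀ (abs_nonneg _) h1 2
  have := pow_le_pow_left₀ (abs_nonneg _) h2 2
  linarith

theorem tEnergyS (hBox : Pool.Agent.H309.DF.BoxInt) : Pool.Agent.H309.DF.EnergyS := by
  intro a b T₀ T₁ ha hb hT₀ hT D P hD hD0 hP hPe hDP
  obtain ⟨c, hc, hG⟩ := hBox a b ha hb
  have hbm : MeasurableSet (box a b) := (box_closed a b).measurableSet
  have hvol : volume (box a b) ≠ ⊤ := (box_compact a b).measure_lt_top.ne
  -- the bound on the middle part
  have hmid : ∀ i : Fin 3, ∃ C : ℝ, ∀ z ∈ Icc T₀ T₁ ×ˢ box a b, ‖D i z.1 z.2‖ ≤ C := by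
    intro i
    refine (isCompact_Icc.prod (box_compact a b)).exists_bound_of_continuousOn ((hD i).mono ?_)
    rintro z ⟨hz1, hz2⟩
    exact ⟨lt_of_lt_of_le hT₀ hz1.1, hz2⟩
  choose C hC using hmid
  set K : ℝ≥0∞ := ∑ i, (ENNReal.ofReal (C i)) ^ 2 with hK
  have hKt : K ≠ ⊤ := by
    rw [hK]
    exact (ENNReal.sum_lt_top.2 fun i _ => ENNReal.pow_lt_top ENNReal.ofReal_lt_top).ne
  set F₁ : ℝ → ℝ≥0∞ := fun t => c * (2 * ∑ k, ∫⁻ y in Icc (-a) a, ‖P k t y‖ₑ ^ 2) with hF₁
  set F₂ : ℝ → ℝ≥0∞ := (Icc T₀ T₁).indicator fun _ => K * volume (box a b) with hF₂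
  have hF₂m : Measurable F₂ := measurable_const.indicator measurableSet_Icc
  -- measurability of the slices
  have hslice : ∀ k t, 0 < t → AEMeasurable (fun y => ‖P k t y‖ₑ ^ 2) (volume.restrict (Icc (-a) a)) := by
    intro k t ht
    have h1 : ContinuousOn (fun y => P k t y) (Icc (-a) a) :=
      (hP k).comp (f := fun y : ℝ => ((t, y) : ℝ × ℝ)) (by fun_prop) fun y hy => ⟨ht, hy⟩
    exact ((h1.aemeasurable measurableSet_Icc).enorm).pow_const 2
  have hpar : ∀ k, AEMeasurable (fun t => ∫⁻ y in Icc (-a) a, ‖P k t y‖ₑ ^ 2)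
      (volume.restrict (Ioi (0 : ℝ))) := by
    intro k
    have h1 : AEMeasurable (fun z : ℝ × ℝ => ‖P k z.1 z.2‖ₑ ^ 2)
        (((volume : Measure ℝ).restrict (Ioi (0 : ℝ))).prod ((volume : Measure ℝ).restrict (Icc (-a) a))) := by
      rw [Measure.prod_restrict]
      exact (((hP k).aemeasurable (measurableSet_Ioi.prod measurableSet_Icc)).enorm).pow_const 2
    exact h1.lintegral_prod_right'
  have hbound : ∀ t ∈ Ioi (0 : ℝ), ∫⁻ x in box a b, ∑ i, ‖D i t x‖ₑ ^ 2 ≤ F₁ t + F₂ t := by
    intro t ht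
    have ht' : 0 < t := ht
    rcases le_or_gt t T₀ with h | h
    · refine le_trans ?_ le_self_add
      set H : ℝ → ℝ≥0∞ := fun y => 2 * ∑ k, ‖P k t y‖ₑ ^ 2 with hH
      have hHm : AEMeasurable H (volume.restrict (Icc (-a) a)) :=
        (Finset.aemeasurable_fun_sum _ fun k _ => hslice k t ht').const_mul 2
      calc ∫⁻ x in box a b, ∑ i, ‖D i t x‖ₑ ^ 2 ≤ ∫⁻ x in box a b, H (x 1) :=
            setLIntegral_mono' hbm fun x hx => hDP t ht' h x hx
        _ ≤ c * ∫⁻ y in Icc (-a) a, H y := hG H hHm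
        _ = F₁ t := by
            rw [hH, hF₁]
            simp only
            rw [lintegral_const_mul' _ _ (by norm_num), lintegral_finsetSum' _ fun k _ => hslice k t ht']
    · rcases le_or_gt t T₁ with h' | h'
      · refine le_trans ?_ le_add_self
        have h1 : t ∈ Icc T₀ T₁ := ⟨h.le, h'⟩
        have h2 : F₂ t = K * volume (box a b) := by
          rw [hF₂]
          exact indicator_of_mem h1 _
        rw [h2, ← setLIntegral_const]
        refine setLIntegral_mono' hbm fun x hx => ?_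
        refine Finset.sum_le_sum fun i _ => ?_
        have h3 := hC i (t, x) ⟨⟨h.le, h'⟩, hx⟩
        have h4 : ‖D i t x‖ₑ ≤ ENNReal.ofReal (C i) := by
          rw [← ofReal_norm]
          exact ENNReal.ofReal_le_ofReal h3
        exact pow_le_pow_left' h4 2
      · have h2 : ∫⁻ x in box a b, ∑ i, ‖D i t x‖ₑ ^ 2 = 0 := by
          rw [setLIntegral_congr_fun (g := fun _ => 0) hbm]
          · simp
          · intro x hx
            refine Finset.sum_eq_zero fun i _ => ?_
            rw [hD0 t h'.le x hx i]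
            simp
        rw [h2]
        exact bot_le
  refine lt_of_le_of_lt (setLIntegral_mono' measurableSet_Ioi hbound) ?_
  rw [lintegral_add_right _ hF₂m, ENNReal.add_lt_top]
  constructor
  · rw [hF₁, lintegral_const_mul' _ _ hc, lintegral_const_mul' _ _ (by norm_num),
      lintegral_finsetSum' _ fun k _ => hpar k]
    refine ENNReal.mul_lt_top hc.lt_top (ENNReal.mul_lt_top (by norm_num) ?_)
    exact ENNReal.sum_lt_top.2 fun k _ => hPe k
  · refine lt_of_le_of_lt (lintegral_mono' Measure.restrict_le_self le_rfl) ?_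
    rw [hF₂, lintegral_indicator_const measurableSet_Icc, Real.volume_Icc]
    exact ENNReal.mul_lt_top (ENNReal.mul_lt_top hKt.lt_top hvol.lt_top) ENNReal.ofReal_lt_top

end Pool.Agent.H309.DF.LEnergyS
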