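import Pool.Agent.H309.DF.Stm

/-!
Project DF, leaf L20: the initial condition.
-/

set_option autoImplicit false

open Set Filter Topology MeasureTheory
open scoped ENNReal

namespace Pool.Agent.H309.DF.LInitS

open Pool.Agent.Q61.NC Pool.Agent.H309.DF

theorem enorm_vec (p q : ℝ) (U : Sp 3) (hU : U 1 = 0) :
    ‖vec p q - U‖ₑ ^ 2 = ‖p - U 0‖ₑ ^ 2 + ‖q - U 2‖ₑ ^ 2 := by
  have h1 : ‖vec p q - U‖ ^ 2 = ‖p - U 0‖ ^ 2 + ‖q - U 2‖ ^ 2 := by
    rw [EuclideanSpace.norm_sq_eq, Fin.sum_univ_three]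
    have e0 : (vec p q - U) 0 = p - U 0 := rfl
    have e1 : (vec p q - U) 1 = 0 - U 1 := rfl
    have e2 : (vec p q - U) 2 = q - U 2 := rfl
    rw [e0, e1, e2, hU, sub_zero, norm_zero]
    ring
  have h2 : ∀ {E : Type} [NormedAddCommGroup E] (x : E), ‖x‖ₑ ^ 2 = ENNReal.ofReal (‖x‖ ^ 2) := by
    intro E _ x
    rw [ENNReal.ofReal_pow (norm_nonneg _), ofReal_norm_eq_enorm]
  rw [h2, h2, h2, h1, ENNReal.ofReal_add (by positivity) (by positivity)]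

theorem tInitS (h : BoxInt) : InitS := by
  intro a b ha hb U₀ hU1 hU P Q hP hQ hPl hQl
  obtain ⟨c, hc, hG⟩ := h a b ha hb
  have hUm : ∀ i : Fin 3, AEMeasurable (fun y => U₀ y i) (volume.restrict (Icc (-a) a)) := by
    intro i
    exact ((EuclideanSpace.proj i : Sp 3 →L[ℝ] ℝ).continuous.comp_aestronglyMeasurable
      hU.aestronglyMeasurable).aemeasurable
  have hlim : Tendsto (fun t : ℝ => c * ((∫⁻ y in Icc (-a) a, ‖P t y - U₀ y 0‖ₑ ^ 2) +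
      ∫⁻ y in Icc (-a) a, ‖Q t y - U₀ y 2‖ₑ ^ 2)) (𝓝[>] 0) (𝓝 0) := by
    have h1 := hPl.add hQl
    rw [add_zero] at h1
    have h2 := ENNReal.Tendsto.const_mul (a := c) h1 (Or.inr hc)
    rwa [mul_zero] at h2
  refine tendsto_of_tendsto_of_tendsto_of_le_of_le' tendsto_const_nhds hlim
    (Eventually.of_forall fun _ => bot_le) ?_
  filter_upwards [self_mem_nhdsWithin] with t ht
  have ht' : 0 < t := ht
  have m1 : AEMeasurable (fun y => ‖P t y - U₀ y 0‖ₑ ^ 2) (volume.restrict (Icc (-a) a)) :=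
    ((((hP t ht').aemeasurable measurableSet_Icc).sub (hUm 0)).enorm).pow_const 2
  have m2 : AEMeasurable (fun y => ‖Q t y - U₀ y 2‖ₑ ^ 2) (volume.restrict (Icc (-a) a)) :=
    ((((hQ t ht').aemeasurable measurableSet_Icc).sub (hUm 2)).enorm).pow_const 2
  have h1 : (fun x : Sp 3 => ‖vec (P t (x 1)) (Q t (x 1)) - U₀ (x 1)‖ₑ ^ 2) =
      fun x : Sp 3 => (fun y : ℝ => ‖P t y - U₀ y 0‖ₑ ^ 2 + ‖Q t y - U₀ y 2‖ₑ ^ 2) (x 1) := by
    funext x
    exact enorm_vec _ _ _ (hU1 _)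
  rw [h1]
  refine (hG (fun y : ℝ => ‖P t y - U₀ y 0‖ₑ ^ 2 + ‖Q t y - U₀ y 2‖ₑ ^ 2) (m1.add m2)).trans ?_
  rw [lintegral_add_left' m1]

end Pool.Agent.H309.DF.LInitS
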