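import Pool.Agent.H309.DF.Stm

/-!
# Project DF (helper309), leaf Iter (helper225)
-/

set_option autoImplicit false

open Set Filter Topology MeasureTheory

namespace Pool.Agent.H309.DF.LIter

open Pool.Agent.H309.DF

/-- quadruples: a function with its derivatives -/
abbrev Quad : Type := (ℝ → ℝ → ℝ) × (ℝ → ℝ → ℝ) × (ℝ → ℝ → ℝ) × (ℝ → ℝ → ℝ)

/-- the property of the `j`-th profile -/
def PP (a τ c : ℝ) (j : ℕ) (x : Quad) : Prop :=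
  Cl a 0 τ x.1 x.2.1 x.2.2.1 x.2.2.2 ∧
    ∀ t ∈ Icc 0 τ, ∫ y in (-a)..a, x.2.2.2 t y ^ 2 ≤ (c * t ^ j) ^ 2

/-- the relation of consecutive profiles -/
def RR (a τ M C : ℝ) (w : ℝ → ℝ → ℝ) (x x' : Quad) : Prop :=
  (∀ t ∈ Icc 0 τ, ∀ y ∈ Icc (-a) a, x'.2.1 t y = x'.2.2.2 t y - w t y * x.1 t y) ∧
    ∀ t ∈ Icc 0 τ, ∀ y ∈ Icc (-a) a, |x'.2.2.2 t y| ≤ M * C

theorem bound2 {a τ : ℝ} {f : ℝ → ℝ → ℝ}
    (h : ContinuousOn (fun z : ℝ × ℝ => f z.1 z.2) (Icc 0 τ ×ˢ Icc (-a) a)) :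
    ∃ C : ℝ, 0 ≤ C ∧ ∀ t ∈ Icc 0 τ, ∀ y ∈ Icc (-a) a, |f t y| ≤ C := by
  obtain ⟨C, hC⟩ := (isCompact_Icc.prod isCompact_Icc).exists_bound_of_continuousOn h
  refine ⟨|C|, abs_nonneg C, fun t ht y hy => ?_⟩
  exact (hC (t, y) ⟨ht, hy⟩).trans (le_abs_self C)

theorem sec {a τ : ℝ} {f : ℝ → ℝ → ℝ}
    (h : ContinuousOn (fun z : ℝ × ℝ => f z.1 z.2) (Icc 0 τ ×ˢ Icc (-a) a)) {t : ℝ}
    (ht : t ∈ Icc 0 τ) : ContinuousOn (f t) (Icc (-a) a) := by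
  have h1 : ContinuousOn (fun y : ℝ => ((t, y) : ℝ × ℝ)) (Icc (-a) a) :=
    (continuous_const.prodMk continuous_id).continuousOn
  exact h.comp h1 (fun y hy => ⟨ht, hy⟩)

/-- one step -/
theorem one_step (h2 : ProdS) {a τ M W0 : ℝ} (ha : 0 < a) (hτ : 0 < τ) (hW0 : 0 ≤ W0)
    (hM : ∀ (f fy fyy : ℝ → ℝ → ℝ) (n : ℕ) (c : ℝ), 0 ≤ c → Src a τ f fy fyy →
      (∀ t ∈ Icc 0 τ, ∫ y in (-a)..a, fyy t y ^ 2 ≤ (c * t ^ n) ^ 2) →
      ∃ q qt qy qyy : ℝ → ℝ → ℝ, Cl a 0 τ q qt qy qyy ∧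
        (∀ t ∈ Icc 0 τ, ∀ y ∈ Icc (-a) a, qt t y = qyy t y + f t y) ∧
        (∀ t ∈ Icc 0 τ, ∫ y in (-a)..a, qyy t y ^ 2 ≤ (c * t ^ (n + 1) / ((n : ℝ) + 1)) ^ 2) ∧
        ∀ t ∈ Icc 0 τ, ∀ y ∈ Icc (-a) a, |qyy t y| ≤ M * (c * τ ^ n))
    {w wy wyy : ℝ → ℝ → ℝ} (hw : Src a τ w wy wyy)
    (hb : ∀ t ∈ Icc 0 τ, ∀ y ∈ Icc (-a) a, |w t y| ≤ W0 ∧ |wy t y| ≤ W0 ∧ |wyy t y| ≤ W0)
    (j : ℕ) (c : ℝ) (hc : 0 ≤ c) (x : Quad) (hx : PP a τ c j x) :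
    ∃ x' : Quad, PP a τ (W0 * (2 * a + 1) ^ 2 * c / ((j : ℝ) + 1)) (j + 1) x' ∧
      RR a τ M (W0 * (2 * a + 1) ^ 2 * c * τ ^ j) w x x' := by
  obtain ⟨s1, s2⟩ := h2 a τ W0 ha hτ hW0 w wy wyy x.1 x.2.1 x.2.2.1 x.2.2.2 hw hx.1 hb
  have hk : 0 ≤ W0 * (2 * a + 1) ^ 2 := by positivity
  obtain ⟨q, qt, qy, qyy, q1, q2, q3, q4⟩ := hM _ _ _ j (W0 * (2 * a + 1) ^ 2 * c)
    (mul_nonneg hk hc) s1 (fun t ht => by
      refine (s2 t ht).trans ?_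
      have h3 := mul_le_mul_of_nonneg_left (hx.2 t ht) (sq_nonneg (W0 * (2 * a + 1) ^ 2))
      refine h3.trans (le_of_eq ?_)
      ring)
  refine ⟨(q, qt, qy, qyy), ⟨q1, fun t ht => ?_⟩, fun t ht y hy => ?_, fun t ht y hy => ?_⟩
  · refine (q3 t ht).trans (le_of_eq ?_)
    ring
  · show qt t y = qyy t y - w t y * x.1 t y
    rw [q2 t ht y hy]
    ring
  · exact q4 t ht y hy

theorem fact_le (K : ℝ) (hK : 1 ≤ K) (j : ℕ) :
    K ^ j / (j.factorial : ℝ) ≤ (2 * K) ^ (j + 1) / ((j + 1).factorial : ℝ) := by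
  have h1 : (0 : ℝ) < (j.factorial : ℝ) := by exact_mod_cast j.factorial_pos
  have h2 : ((j + 1).factorial : ℝ) = ((j : ℝ) + 1) * (j.factorial : ℝ) := by
    rw [Nat.factorial_succ]
    push_cast
    ring
  have h3 : ((j : ℝ) + 1) ≤ 2 ^ (j + 1) := by
    have : j + 1 < 2 ^ (j + 1) := Nat.lt_two_pow_self
    exact_mod_cast this.le
  rw [h2, div_le_div_iff₀ h1 (by positivity)]
  have h4 : K ^ j ≤ K ^ (j + 1) := pow_le_pow_right₀ hK (Nat.le_succ j)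
  have h5 : (0 : ℝ) ≤ K ^ j := by positivity
  rw [mul_pow]
  calc K ^ j * (((j : ℝ) + 1) * (j.factorial : ℝ))
      ≤ K ^ (j + 1) * (2 ^ (j + 1) * (j.factorial : ℝ)) := by gcongr
    _ = 2 ^ (j + 1) * K ^ (j + 1) * (j.factorial : ℝ) := by ring

theorem pow_fact (k τ : ℝ) (hk : 0 ≤ k) (hτ : 0 ≤ τ) (j : ℕ) :
    k ^ (j + 1) * τ ^ j / (j.factorial : ℝ) ≤
      (2 * ((k + 1) * (τ + 1))) ^ (j + 1) / ((j + 1).factorial : ℝ) := by
  have h1 : (0 : ℝ) < (j.factorial : ℝ) := by exact_mod_cast j.factorial_pos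
  have h2 : ((j + 1).factorial : ℝ) = ((j : ℝ) + 1) * (j.factorial : ℝ) := by
    rw [Nat.factorial_succ]
    push_cast
    ring
  have h3 : ((j : ℝ) + 1) ≤ 2 ^ (j + 1) := by
    have : j + 1 < 2 ^ (j + 1) := Nat.lt_two_pow_self
    exact_mod_cast this.le
  rw [h2, div_le_div_iff₀ h1 (by positivity), mul_pow, mul_pow]
  have h4 : k ^ (j + 1) ≤ (k + 1) ^ (j + 1) := pow_le_pow_left₀ hk (by linarith) _
  have h5 : τ ^ j ≤ (τ + 1) ^ (j + 1) :=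
    (pow_le_pow_left₀ hτ (by linarith) j).trans (pow_le_pow_right₀ (by linarith) (Nat.le_succ j))
  calc k ^ (j + 1) * τ ^ j * (((j : ℝ) + 1) * (j.factorial : ℝ))
      ≤ (k + 1) ^ (j + 1) * (τ + 1) ^ (j + 1) * (2 ^ (j + 1) * (j.factorial : ℝ)) := by gcongr
    _ = 2 ^ (j + 1) * ((k + 1) ^ (j + 1) * (τ + 1) ^ (j + 1)) * (j.factorial : ℝ) := by ring

theorem tIter (h1 : Pool.Agent.H309.DF.Step) (h2 : Pool.Agent.H309.DF.ProdS)
    (h3 : Pool.Agent.H309.DF.SupB) : Pool.Agent.H309.DF.Iter := by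
  intro a τ ha hτ V Vt Vy w wy wyy hV hw
  obtain ⟨M, hM0, hM⟩ := h1 a τ ha hτ
  obtain ⟨C1, hC1, b1⟩ := bound2 hw.c
  obtain ⟨C2, hC2, b2⟩ := bound2 hw.cy
  obtain ⟨C3, hC3, b3⟩ := bound2 hw.cyy
  obtain ⟨E1, hE1, e1⟩ := bound2 hV.c
  obtain ⟨E2, hE2, e2⟩ := bound2 hV.ct
  obtain ⟨E3, hE3, e3⟩ := bound2 hV.cy
  obtain ⟨W0, hW0⟩ : ∃ W0, W0 = C1 + C2 + C3 := ⟨_, rfl⟩
  obtain ⟨V0, hV0⟩ : ∃ V0, V0 = E1 + E2 + E3 := ⟨_, rfl⟩
  have hW0n : 0 ≤ W0 := by rw [hW0]; positivity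
  have hV0n : 0 ≤ V0 := by rw [hV0]; positivity
  have hb : ∀ t ∈ Icc 0 τ, ∀ y ∈ Icc (-a) a, |w t y| ≤ W0 ∧ |wy t y| ≤ W0 ∧ |wyy t y| ≤ W0 := by
    intro t ht y hy
    have := b1 t ht y hy
    have := b2 t ht y hy
    have := b3 t ht y hy
    refine ⟨?_, ?_, ?_⟩ <;> linarith
  have he : ∀ t ∈ Icc 0 τ, ∀ y ∈ Icc (-a) a, |V t y| ≤ V0 ∧ |Vt t y| ≤ V0 ∧ |Vy t y| ≤ V0 := by
    intro t ht y hy
    have := e1 t ht y hy
    have := e2 t ht y hy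
    have := e3 t ht y hy
    refine ⟨?_, ?_, ?_⟩ <;> linarith
  obtain ⟨k, hk⟩ : ∃ k, k = W0 * (2 * a + 1) ^ 2 := ⟨_, rfl⟩
  have hk0 : 0 ≤ k := by rw [hk]; positivity
  obtain ⟨c0, hc0⟩ : ∃ c0, c0 = V0 * Real.sqrt (2 * a) := ⟨_, rfl⟩
  have hc0n : 0 ≤ c0 := by rw [hc0]; positivity
  obtain ⟨c, hc⟩ : ∃ c : ℕ → ℝ, ∀ j, c j = c0 * k ^ j / (j.factorial : ℝ) := ⟨_, fun _ => rfl⟩
  have hcn : ∀ j, 0 ≤ c j := fun j => by rw [hc]; positivity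
  have hcs : ∀ j, W0 * (2 * a + 1) ^ 2 * c j / ((j : ℝ) + 1) = c (j + 1) := by
    intro j
    rw [hc, hc, ← hk, Nat.factorial_succ]
    have h4 : (j.factorial : ℝ) ≠ 0 := by exact_mod_cast j.factorial_ne_zero
    have h5 : (j : ℝ) + 1 ≠ 0 := by positivity
    push_cast
    field_simp
    ring
  -- the recursion
  have hP0 : PP a τ (c 0) 0 (V, Vt, Vy, Vt) := by
    refine ⟨hV, fun t ht => ?_⟩
    have e : (c 0 * t ^ 0) ^ 2 = ∫ y in (-a)..a, V0 ^ 2 := by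
      rw [hc, hc0, intervalIntegral.integral_const, smul_eq_mul, pow_zero, pow_zero,
        Nat.factorial_zero, Nat.cast_one]
      have := Real.sq_sqrt (by positivity : (0 : ℝ) ≤ 2 * a)
      linear_combination V0 ^ 2 * this
    rw [e]
    apply intervalIntegral.integral_mono_on (by linarith)
    · have := (sec hV.ct ht).pow 2
      rw [← uIcc_of_le (by linarith : -a ≤ a)] at this
      exact this.intervalIntegrable
    · exact intervalIntegrable_const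
    · intro y hy
      have := (he t ht y hy).2.1
      exact sq_le_sq' (by linarith [abs_le.1 this]) (abs_le.1 this).2
  have step : ∀ j (x : {x : Quad // PP a τ (c j) j x}), ∃ x' : Quad, PP a τ (c (j + 1)) (j + 1) x' ∧
      RR a τ M (k * c j * τ ^ j) w x.1 x' := by
    intro j x
    have := one_step h2 ha hτ hW0n hM hw hb j (c j) (hcn j) x.1 x.2
    rw [hcs, ← hk] at this
    exact this
  let X : ∀ j, {x : Quad // PP a τ (c j) j x} := fun j => Nat.rec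
    (motive := fun j => {x : Quad // PP a τ (c j) j x}) ⟨(V, Vt, Vy, Vt), hP0⟩
    (fun j x => ⟨(step j x).choose, (step j x).choose_spec.1⟩) j
  have hX0 : (X 0).1 = (V, Vt, Vy, Vt) := rfl
  have hXs : ∀ j, RR a τ M (k * c j * τ ^ j) w (X j).1 (X (j + 1)).1 := fun j =>
    (step j (X j)).choose_spec.2
  have hXc : ∀ j, Cl a 0 τ (X j).1.1 (X j).1.2.1 (X j).1.2.2.1 (X j).1.2.2.2 := fun j => (X j).2.1
  -- the bounds
  obtain ⟨K1, hK1⟩ : ∃ K1, K1 = 2 * ((k + 1) * (τ + 1)) := ⟨_, rfl⟩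
  have hK1n : 1 ≤ K1 := by
    rw [hK1]
    nlinarith [mul_nonneg hk0 hτ.le]
  have hyy : ∀ j, ∀ t ∈ Icc 0 τ, ∀ y ∈ Icc (-a) a,
      |(X (j + 1)).1.2.2.2 t y| ≤ M * c0 * (K1 ^ (j + 1) / ((j + 1).factorial : ℝ)) := by
    intro j t ht y hy
    refine ((hXs j).2 t ht y hy).trans ?_
    have h4 := pow_fact k τ hk0 hτ.le j
    rw [← hK1] at h4
    have h5 := mul_le_mul_of_nonneg_left h4 (mul_nonneg hM0 hc0n)
    refine le_trans (le_of_eq ?_) h5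
    rw [hc]
    ring
  have hsup : ∀ j, ∀ t ∈ Icc 0 τ, ∀ y ∈ Icc (-a) a,
      |(X (j + 1)).1.2.2.1 t y| ≤
        2 * a * (M * c0 * (K1 ^ (j + 1) / ((j + 1).factorial : ℝ))) ∧
      |(X (j + 1)).1.1 t y| ≤
        4 * a ^ 2 * (M * c0 * (K1 ^ (j + 1) / ((j + 1).factorial : ℝ))) := by
    intro j t ht y hy
    have h4 := hXc (j + 1)
    exact h3 a _ ha ((X (j + 1)).1.1 t) ((X (j + 1)).1.2.2.1 t) ((X (j + 1)).1.2.2.2 t)
      (sec h4.c ht) (sec h4.cy ht) (sec h4.cyy ht) (h4.dy t ht) (h4.dyy t ht)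
      (h4.wall t ht).1 (h4.wall t ht).2 (fun y hy => hyy j t ht y hy) y hy
  have hKf : ∀ j, K1 ^ j / (j.factorial : ℝ) ≤ (2 * K1) ^ j / (j.factorial : ℝ) := by
    intro j
    have : K1 ^ j ≤ (2 * K1) ^ j := pow_le_pow_left₀ (by linarith) (by linarith) _
    gcongr
  obtain ⟨E, hE⟩ : ∃ E, E = V0 + 4 * a ^ 2 * (M * c0) := ⟨_, rfl⟩
  have hEn : 0 ≤ E := by rw [hE]; positivity
  have hQ : ∀ j, ∀ t ∈ Icc 0 τ, ∀ y ∈ Icc (-a) a,
      |(X j).1.1 t y| ≤ E * (K1 ^ j / (j.factorial : ℝ)) := by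
    intro j t ht y hy
    rcases j with _ | j
    · have h4 : |V t y| ≤ V0 := (he t ht y hy).1
      have h5 : V0 ≤ E := by
        rw [hE]
        have : 0 ≤ 4 * a ^ 2 * (M * c0) := by positivity
        linarith
      have e : K1 ^ 0 / ((Nat.factorial 0 : ℕ) : ℝ) = 1 := by
        rw [pow_zero, Nat.factorial_zero, Nat.cast_one, div_one]
      rw [e, mul_one]
      exact h4.trans h5
    · have h4 := (hsup j t ht y hy).2
      have h5 : 0 ≤ K1 ^ (j + 1) / ((j + 1).factorial : ℝ) := by positivity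
      refine h4.trans ?_
      rw [hE]
      have : 0 ≤ V0 * (K1 ^ (j + 1) / ((j + 1).factorial : ℝ)) := mul_nonneg hV0n h5
      linarith
  refine ⟨fun j => (X j).1.1, fun j => (X j).1.2.1, fun j => (X j).1.2.2.1,
    fun j => (X j).1.2.2.2, V0 + (1 + 2 * a + 4 * a ^ 2) * (M * c0) + W0 * E, 2 * K1,
    by positivity, by linarith, hXc, fun t ht y hy => ⟨rfl, rfl⟩,
    fun j t ht y hy => (hXs j).1 t ht y hy, ?_⟩
  intro j t ht y hy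
  have hMc : 0 ≤ M * c0 := mul_nonneg hM0 hc0n
  have hWE : 0 ≤ W0 * E := mul_nonneg hW0n hEn
  obtain ⟨D, hD⟩ : ∃ D, D = V0 + (1 + 2 * a + 4 * a ^ 2) * (M * c0) + W0 * E := ⟨_, rfl⟩
  rw [← hD]
  have haM : 0 ≤ a * (M * c0) := mul_nonneg ha.le hMc
  have haM2 : 0 ≤ a ^ 2 * (M * c0) := mul_nonneg (sq_nonneg a) hMc
  rcases j with _ | j
  · have hD0 : V0 ≤ D := by
      rw [hD]
      nlinarith
    have e : D * (2 * K1) ^ 0 / ((Nat.factorial 0 : ℕ) : ℝ) = D := by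
      rw [pow_zero, Nat.factorial_zero, Nat.cast_one, div_one, mul_one]
    rw [e]
    obtain ⟨v1, v2, v3⟩ := he t ht y hy
    exact ⟨v1.trans hD0, v2.trans hD0, v3.trans hD0, v2.trans hD0⟩
  · obtain ⟨Y, hY⟩ : ∃ Y, Y = (2 * K1) ^ (j + 1) / ((j + 1).factorial : ℝ) := ⟨_, rfl⟩
    have hYn : 0 ≤ Y := by rw [hY]; positivity
    have e : D * (2 * K1) ^ (j + 1) / ((j + 1).factorial : ℝ) = D * Y := by
      rw [hY, mul_div_assoc]
    rw [e]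
    have f1 : K1 ^ (j + 1) / ((j + 1).factorial : ℝ) ≤ Y := by
      rw [hY]
      exact hKf (j + 1)
    have f2 : K1 ^ j / (j.factorial : ℝ) ≤ Y := by
      rw [hY]
      exact fact_le K1 hK1n j
    have g1 : |(X (j + 1)).1.2.2.2 t y| ≤ M * c0 * Y :=
      (hyy j t ht y hy).trans (mul_le_mul_of_nonneg_left f1 hMc)
    have g2 : |(X (j + 1)).1.2.2.1 t y| ≤ 2 * a * (M * c0 * Y) :=
      (hsup j t ht y hy).1.trans (mul_le_mul_of_nonneg_left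
        (mul_le_mul_of_nonneg_left f1 hMc) (by positivity))
    have g3 : |(X (j + 1)).1.1 t y| ≤ 4 * a ^ 2 * (M * c0 * Y) :=
      (hsup j t ht y hy).2.trans (mul_le_mul_of_nonneg_left
        (mul_le_mul_of_nonneg_left f1 hMc) (by positivity))
    have g4 : |(X (j + 1)).1.2.1 t y| ≤ M * c0 * Y + W0 * (E * Y) := by
      rw [(hXs j).1 t ht y hy]
      refine (abs_sub _ _).trans ?_
      rw [abs_mul]
      have h5 : |w t y| * |(X j).1.1 t y| ≤ W0 * (E * Y) :=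
        mul_le_mul (hb t ht y hy).1 ((hQ j t ht y hy).trans (mul_le_mul_of_nonneg_left f2 hEn))
          (abs_nonneg _) hW0n
      linarith
    have p1 : 0 ≤ V0 * Y := mul_nonneg hV0n hYn
    have p2 : 0 ≤ M * c0 * Y := mul_nonneg hMc hYn
    have p3 : 0 ≤ a * (M * c0 * Y) := mul_nonneg ha.le p2
    have p4 : 0 ≤ a ^ 2 * (M * c0 * Y) := mul_nonneg (sq_nonneg a) p2
    have p5 : 0 ≤ W0 * (E * Y) := mul_nonneg hW0n (mul_nonneg hEn hYn)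
    have eD : D * Y = V0 * Y + M * c0 * Y + 2 * (a * (M * c0 * Y)) + 4 * (a ^ 2 * (M * c0 * Y)) +
        W0 * (E * Y) := by
      rw [hD]
      ring
    rw [eD]
    refine ⟨?_, ?_, ?_, ?_⟩
    · linarith
    · linarith
    · linarith
    · linarith

end Pool.Agent.H309.DF.LIter
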