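import Pool.Agent.H309.DF.Stm

set_option autoImplicit false

/-! Task LimAdd of helper309. -/

open Set Filter Topology MeasureTheory
open scoped ENNReal

namespace Pool.Agent.H309.DF.LLimAdd

open Pool.Agent.Q61.NC Pool.Agent.H309.DF

lemma enorm_sq (x : ℝ) : ‖x‖ₑ ^ 2 = ENNReal.ofReal (x ^ 2) := by
  rw [Real.enorm_eq_ofReal_abs, ← ENNReal.ofReal_pow (abs_nonneg x), sq_abs]

lemma two (x y : ℝ) : ‖x + y‖ₑ ^ 2 ≤ 2 * ‖x‖ₑ ^ 2 + 2 * ‖y‖ₑ ^ 2 := by
  rw [enorm_sq, enorm_sq, enorm_sq]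
  have h2 : (2 : ℝ≥0∞) = ENNReal.ofReal 2 := by simp
  rw [h2, ← ENNReal.ofReal_mul (by norm_num), ← ENNReal.ofReal_mul (by norm_num),
    ← ENNReal.ofReal_add (by positivity) (by positivity)]
  refine ENNReal.ofReal_le_ofReal ?_
  nlinarith [sq_nonneg (x - y)]

/-- **LimAdd.** -/
theorem tLimAdd : Pool.Agent.H309.DF.LimAdd := by
  intro a T ha hT f hf V Vt Vy Vyy g O Ot Oy hV hO
  have h1 := hV.lim
  have h2 := hO.lim
  have hpre : (fun y : ℝ => -y) ⁻¹' Icc (-a) a = Icc (-a) a := by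
    ext y
    simp only [mem_preimage, mem_Icc]
    constructor
    · rintro ⟨h, h'⟩
      exact ⟨by linarith, by linarith⟩
    · rintro ⟨h, h'⟩
      exact ⟨by linarith, by linarith⟩
  have hfneg : AEStronglyMeasurable (fun y => f (-y)) (volume.restrict (Icc (-a) a)) := by
    have h3 := (Measure.measurePreserving_neg (volume : Measure ℝ)).restrict_preimage
      (s := Icc (-a) a) measurableSet_Icc
    rw [show (Neg.neg : ℝ → ℝ) ⁻¹' Icc (-a) a = Icc (-a) a from hpre] at h3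
    exact hf.1.comp_measurePreserving h3
  have hmeas : ∀ t, 0 < t →
      AEMeasurable (fun y => 2 * ‖V t y - (f y + f (-y)) / 2‖ₑ ^ 2)
        (volume.restrict (Icc (-a) a)) := by
    intro t ht
    have hc : ContinuousOn (V t) (Icc (-a) a) := fun y hy =>
      (hV.dy t y ht (abs_lt.2 ⟨by linarith [hy.1],
        by linarith [hy.2]⟩)).continuousAt.continuousWithinAt
    have h4 : AEMeasurable (fun y => V t y - (f y + f (-y)) / 2)
        (volume.restrict (Icc (-a) a)) :=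
      (hc.aestronglyMeasurable measurableSet_Icc).aemeasurable.sub
        ((hf.1.aemeasurable.add hfneg.aemeasurable).div_const 2)
    exact (h4.enorm.pow_const 2).const_mul 2
  have hlim : Tendsto (fun t : ℝ =>
      2 * (∫⁻ y in Icc (-a) a, ‖V t y - (f y + f (-y)) / 2‖ₑ ^ 2) +
      2 * (∫⁻ y in Icc (-a) a, ‖O t y - (f y - f (-y)) / 2‖ₑ ^ 2)) (𝓝[>] 0) (𝓝 0) := by
    have h5 := (ENNReal.Tendsto.const_mul h1 (Or.inr (by norm_num : (2 : ℝ≥0∞) ≠ ⊤))).add
      (ENNReal.Tendsto.const_mul h2 (Or.inr (by norm_num : (2 : ℝ≥0∞) ≠ ⊤)))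
    simpa using h5
  refine tendsto_of_tendsto_of_tendsto_of_le_of_le' tendsto_const_nhds hlim
    (Eventually.of_forall fun _ => bot_le) ?_
  filter_upwards [self_mem_nhdsWithin] with t ht
  calc ∫⁻ y in Icc (-a) a, ‖(V t y + O t y) - f y‖ₑ ^ 2
      ≤ ∫⁻ y in Icc (-a) a, (2 * ‖V t y - (f y + f (-y)) / 2‖ₑ ^ 2 +
          2 * ‖O t y - (f y - f (-y)) / 2‖ₑ ^ 2) := by
        refine lintegral_mono fun y => ?_
        have e : V t y + O t y - f y =
            (V t y - (f y + f (-y)) / 2) + (O t y - (f y - f (-y)) / 2) := by ring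
        show ‖V t y + O t y - f y‖ₑ ^ 2 ≤ _
        rw [e]
        exact two _ _
    _ = (∫⁻ y in Icc (-a) a, 2 * ‖V t y - (f y + f (-y)) / 2‖ₑ ^ 2) +
          ∫⁻ y in Icc (-a) a, 2 * ‖O t y - (f y - f (-y)) / 2‖ₑ ^ 2 :=
        lintegral_add_left' (hmeas t ht) _
    _ = _ := by
        rw [lintegral_const_mul' _ _ (by norm_num), lintegral_const_mul' _ _ (by norm_num)]

end Pool.Agent.H309.DF.LLimAdd
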