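import Pool.Agent.H309.DF.Defs

/-!
# Statements (leaves) of the project DF
-/

set_option autoImplicit false

open Set Filter Topology MeasureTheory
open scoped ENNReal

namespace Pool.Agent.H309.DF

open Pool.Agent.Q61.NC

/-! ### the sine system -/

/-- L1. Proof: `sn a m` is smooth with second derivative `- mu² sn`, and `sn a m (± a) = 0`
(`mu a m * (a + a) = (m + 1) π`). Integrate by parts twice
(`intervalIntegral.integral_mul_deriv_eq_deriv_mul_of_hasDeriv_right` or the version with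
continuity on `uIcc` and `HasDerivAt` inside): `mu² ∫ g sn = - ∫ g sn'' = ∫ g' sn' = - ∫ g'' sn`. -/
def CoSecond : Prop := ∀ a : ℝ, 0 < a → ∀ g gy gyy : ℝ → ℝ,
  ContinuousOn g (Icc (-a) a) → ContinuousOn gy (Icc (-a) a) → ContinuousOn gyy (Icc (-a) a) →
  (∀ y ∈ Ioo (-a) a, HasDerivAt g (gy y) y) → (∀ y ∈ Ioo (-a) a, HasDerivAt gy (gyy y) y) →
  g a = 0 → g (-a) = 0 → ∀ m, mu a m ^ 2 * co a g m = -co a gyy m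

/-- L2. Proof: let `G` be the `4 a`-periodic function with `G y = g y` on `[-a, a]` and
`G y = - g (2 a - y)` on `[a, 3 a]`; it is continuous since `g (± a) = 0`. Its Fourier coefficients
(for `AddCircle (4 a)`) are, up to unimodular factors, halves of `co a g m` (frequencies
`± (m + 1)`, the zeroth is `0`), so they are summable and `has_pointwise_sum_fourier_series_of_summable` gives
the series. (Or: the difference of `g` and the uniformly convergent series is continuous with all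
sine coefficients zero; extend as above and use uniqueness of Fourier coefficients.) -/
def CoExpand : Prop := ∀ a : ℝ, 0 < a → ∀ g : ℝ → ℝ, ContinuousOn g (Icc (-a) a) →
  g a = 0 → g (-a) = 0 → Summable (fun m => |co a g m|) →
  ∀ y ∈ Icc (-a) a, HasSum (fun m => co a g m * sn a m y) (g y)

/-- L3 (Bessel). Proof: orthogonality `∫ sn m sn n = a δ` and `0 ≤ ∫ (g - ∑ co sn)²`. -/
def CoBessel : Prop := ∀ a : ℝ, 0 < a → ∀ g : ℝ → ℝ, ContinuousOn g (Icc (-a) a) →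
  ∀ s : Finset ℕ, ∑ m ∈ s, co a g m ^ 2 ≤ (1 / a) * ∫ y in (-a)..a, g y ^ 2

/-- L4 (Parseval, upper bound). Proof: orthogonality gives `∫ (∑_{m < N} b m sn m)² =
a ∑_{m < N} (b m)²`; the partial sums converge uniformly (Weierstrass), so do their squares. -/
def SqSeries : Prop := ∀ a : ℝ, 0 < a → ∀ b : ℕ → ℝ, Summable (fun m => |b m|) → ∀ B : ℝ,
  (∀ s : Finset ℕ, ∑ m ∈ s, b m ^ 2 ≤ B) →
  ∫ y in (-a)..a, (∑' m, b m * sn a m y) ^ 2 ≤ a * B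

/-- L5. Continuity in `t` of the coefficients, and the trivial bound. Proof: extend `f` to a
continuous function (`f (projIcc t) (projIcc y)`), `intervalIntegral.continuous_parametric_intervalIntegral_of_continuous'`;
`|co| ≤ (1 / a) (2 a) S`. -/
def CoCont : Prop := ∀ a τ S : ℝ, 0 < a → 0 < τ → 0 ≤ S → ∀ f : ℝ → ℝ → ℝ,
  ContinuousOn (fun z : ℝ × ℝ => f z.1 z.2) (Icc 0 τ ×ˢ Icc (-a) a) →
  (∀ t ∈ Icc 0 τ, ∀ y ∈ Icc (-a) a, |f t y| ≤ S) → ∀ m,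
  ContinuousOn (fun t => co a (f t) m) (Icc 0 τ) ∧ ∀ t ∈ Icc 0 τ, |co a (f t) m| ≤ 2 * S

/-- L6 (Duhamel coefficient). Proof: `du l F t = exp (-(l t)) ∫_0^t exp (l s) F s ds` (extend `F`
continuously outside `[0, τ]`, e.g. by `IccExtend`), fundamental theorem of calculus; the third
item since `exp (-(l (t - s))) ≤ 1`; the fourth by Cauchy-Schwarz and
`∫_0^t exp (-2 l (t - s)) ds ≤ 1 / (2 l)`. -/
def DuFacts : Prop := ∀ l τ : ℝ, 0 < l → 0 < τ → ∀ F : ℝ → ℝ, ContinuousOn F (Icc 0 τ) →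
  ContinuousOn (du l F) (Icc 0 τ) ∧
  (∀ t ∈ Ioo 0 τ, HasDerivAt (du l F) (-(l * du l F t) + F t) t) ∧
  (∀ t ∈ Icc 0 τ, |du l F t| ≤ ∫ s in (0 : ℝ)..t, |F s|) ∧
  (∀ t ∈ Icc 0 τ, du l F t ^ 2 ≤ (1 / (2 * l)) * ∫ s in (0 : ℝ)..τ, F s ^ 2)

/-- L7 (Minkowski). Proof: let `G m = ∫_0^t |F m|` and `N = (∑_{m ∈ s} G m ^ 2)^{1/2}`. Then
`N² = ∑ G m ∫ |F m| = ∫_0^t ∑ G m |F m r| dr ≤ ∫_0^t N (∑ F m r ^ 2)^{1/2} dr ≤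
N ∫_0^t B r^n dr = N B t^(n+1)/(n+1)`. -/
def Mink : Prop := ∀ (τ B : ℝ) (n : ℕ) (F : ℕ → ℝ → ℝ), 0 < τ → 0 ≤ B →
  (∀ m, ContinuousOn (F m) (Icc 0 τ)) →
  (∀ t ∈ Icc 0 τ, ∀ s : Finset ℕ, ∑ m ∈ s, F m t ^ 2 ≤ (B * t ^ n) ^ 2) →
  ∀ t ∈ Icc 0 τ, ∀ s : Finset ℕ,
    ∑ m ∈ s, (∫ r in (0 : ℝ)..t, |F m r|) ^ 2 ≤ (B * t ^ (n + 1) / ((n : ℝ) + 1)) ^ 2

/-- L8 (coefficients of one step). Proof: put `G m = mu² F m`; `mu² du (mu²) (F m) =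
du (mu²) (G m)` (linearity). With `DuFacts` and `Mink` (third item) the last conclusion follows.
Majorant: `β m = (2 mu²)^{-1/2} J m`, `J m = (∫_0^τ G m ^ 2)^{1/2}` (fourth item of `DuFacts`);
`∑_{m ∈ s} J m ^ 2 = ∫ ∑ G m ^ 2 ≤ τ (B τ^n)²`; Cauchy-Schwarz with
`∑ 1 / (2 mu²) = (2 a² / π²) ∑ 1 / (m + 1)² =: S < ∞` gives the summability and the bound with
`M = (S τ)^{1/2}`. -/
def StepCoef : Prop := ∀ a τ : ℝ, 0 < a → 0 < τ → ∃ M : ℝ, 0 ≤ M ∧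
  ∀ (F : ℕ → ℝ → ℝ) (n : ℕ) (B : ℝ), 0 ≤ B → (∀ m, ContinuousOn (F m) (Icc 0 τ)) →
  (∀ t ∈ Icc 0 τ, ∀ s : Finset ℕ, ∑ m ∈ s, (mu a m ^ 2 * F m t) ^ 2 ≤ (B * t ^ n) ^ 2) →
  (∃ β : ℕ → ℝ, Summable β ∧ ∑' m, β m ≤ M * (B * τ ^ n) ∧
    ∀ m, ∀ t ∈ Icc 0 τ, |mu a m ^ 2 * du (mu a m ^ 2) (F m) t| ≤ β m) ∧
  ∀ t ∈ Icc 0 τ, ∀ s : Finset ℕ, ∑ m ∈ s, (mu a m ^ 2 * du (mu a m ^ 2) (F m) t) ^ 2 ≤
    (B * t ^ (n + 1) / ((n : ℝ) + 1)) ^ 2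

/-- L9 (series with classical coefficients). Proof: `mu a m ≥ mu a 0 > 0`, so `|p m t|` and
`|mu p m t|` are bounded by constants times `β m`; Weierstrass (`continuousOn_tsum`) and
`hasDerivAt_tsum_of_isPreconnected` (in `t` on `Ioo 0 τ`, in `y` on `univ`). -/
def SeriesCl : Prop := ∀ a τ : ℝ, 0 < a → 0 < τ → ∀ (p p' : ℕ → ℝ → ℝ) (β : ℕ → ℝ),
  Summable β → (∀ m, ContinuousOn (p m) (Icc 0 τ)) → (∀ m, ContinuousOn (p' m) (Icc 0 τ)) →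
  (∀ m, ∀ t ∈ Ioo 0 τ, HasDerivAt (p m) (p' m t) t) →
  (∀ m, ∀ t ∈ Icc 0 τ, |mu a m ^ 2 * p m t| ≤ β m) →
  (∀ m, ∀ t ∈ Icc 0 τ, |p' m t| ≤ β m) →
  Cl a 0 τ (fun t y => ∑' m, p m t * sn a m y) (fun t y => ∑' m, p' m t * sn a m y)
    (fun t y => ∑' m, p m t * (mu a m * Real.cos (mu a m * (y + a))))
    (fun t y => ∑' m, -(mu a m ^ 2 * p m t) * sn a m y)

/-- L10 (one step). Proof: `F m t = co a (f t) m`; `mu² F m t = - co a (fyy t) m` by `CoSecond`;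
continuity by `CoCont`; `∑_{m ∈ s} (mu² F m t)² ≤ (1 / a) ∫ fyy² ≤ (B t^n)²` with
`B = c / √a` by `CoBessel`. `StepCoef` gives `β`; `p m = du (mu²) (F m)`,
`p' m t = - mu² p m t + F m t` (`DuFacts`), `|p' m t| ≤ β m + 2 S / mu²` (`S` bounds `|fyy|` on the
compact rectangle). `SeriesCl` gives `q`. `qt = qyy + ∑ F m sn = qyy + f` by `CoExpand`.
`∫ qyy² ≤ a (c t^(n+1)/(n+1)/√a)²` by `SqSeries`. `|qyy| ≤ ∑ β`. The constant of the statement is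
`M / √a`. -/
def Step : Prop := ∀ a τ : ℝ, 0 < a → 0 < τ → ∃ M : ℝ, 0 ≤ M ∧
  ∀ (f fy fyy : ℝ → ℝ → ℝ) (n : ℕ) (c : ℝ), 0 ≤ c → Src a τ f fy fyy →
  (∀ t ∈ Icc 0 τ, ∫ y in (-a)..a, fyy t y ^ 2 ≤ (c * t ^ n) ^ 2) →
  ∃ q qt qy qyy : ℝ → ℝ → ℝ, Cl a 0 τ q qt qy qyy ∧
    (∀ t ∈ Icc 0 τ, ∀ y ∈ Icc (-a) a, qt t y = qyy t y + f t y) ∧
    (∀ t ∈ Icc 0 τ, ∫ y in (-a)..a, qyy t y ^ 2 ≤ (c * t ^ (n + 1) / ((n : ℝ) + 1)) ^ 2) ∧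
    ∀ t ∈ Icc 0 τ, ∀ y ∈ Icc (-a) a, |qyy t y| ≤ M * (c * τ ^ n)

/-! ### products and iteration -/

/-- L11. Proof: Rolle gives a zero `y₀` of `gy` in `(-a, a)`; mean value inequality twice. -/
def SupB : Prop := ∀ a B : ℝ, 0 < a → ∀ g gy gyy : ℝ → ℝ,
  ContinuousOn g (Icc (-a) a) → ContinuousOn gy (Icc (-a) a) → ContinuousOn gyy (Icc (-a) a) →
  (∀ y ∈ Ioo (-a) a, HasDerivAt g (gy y) y) → (∀ y ∈ Ioo (-a) a, HasDerivAt gy (gyy y) y) →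
  g a = 0 → g (-a) = 0 → (∀ y ∈ Icc (-a) a, |gyy y| ≤ B) →
  ∀ y ∈ Icc (-a) a, |gy y| ≤ 2 * a * B ∧ |g y| ≤ 4 * a ^ 2 * B

/-- L12. Proof: product rule. Estimate, `t` fixed, `N² = ∫ qyy²`: Rolle gives a zero `y₀` of `qy`,
`|qy y| = |∫_{y₀}^y qyy| ≤ √(2 a) N` (Cauchy-Schwarz), `|q y| ≤ 2 a √(2 a) N`; so
`|wyy q + 2 wy qy + w qyy| ≤ W0 (k N + |qyy|)`, `k = 2 a √(2 a) + 2 √(2 a)`, and
`∫ (k N + |qyy|)² ≤ 2 a k² N² + 2 k N √(2 a) N + N² = (k √(2 a) + 1)² N² = ((2 a) (2 a) + 2 (2 a) + 1)² N²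
= ((2 a + 1)²)² N²`. -/
def ProdS : Prop := ∀ a τ W0 : ℝ, 0 < a → 0 < τ → 0 ≤ W0 →
  ∀ w wy wyy q qt qy qyy : ℝ → ℝ → ℝ, Src a τ w wy wyy → Cl a 0 τ q qt qy qyy →
  (∀ t ∈ Icc 0 τ, ∀ y ∈ Icc (-a) a, |w t y| ≤ W0 ∧ |wy t y| ≤ W0 ∧ |wyy t y| ≤ W0) →
  Src a τ (fun t y => -(w t y * q t y)) (fun t y => -(wy t y * q t y + w t y * qy t y))
    (fun t y => -(wyy t y * q t y + 2 * (wy t y * qy t y) + w t y * qyy t y)) ∧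
  ∀ t ∈ Icc 0 τ,
    ∫ y in (-a)..a, (-(wyy t y * q t y + 2 * (wy t y * qy t y) + w t y * qyy t y)) ^ 2 ≤
      (W0 * (2 * a + 1) ^ 2) ^ 2 * ∫ y in (-a)..a, qyy t y ^ 2

/-- L13 (iteration). Proof: bounds `W0` of `w, wy, wyy` and `V0` of `V, Vt, Vy` on the compact
rectangle; `k = W0 (2 a + 1)²`, `c₀ = V0 √(2 a)`. By recursion (`Nat.rec` on a subtype, or
`exists_seq`-style choice) get `Q j` with `Cl`, `Qt (j+1) = Qyy (j+1) - w Q j`,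
`∫ Qyy j t ^ 2 ≤ (c₀ k^j t^j / j!)²` and, for `j ≥ 1`, `|Qyy j| ≤ M c₀ k^j τ^(j-1)/(j-1)!`:
apply `Step` with `f = - w Q j`, `n = j`, `c = c₀ k^(j+1) / j!` (`ProdS`). Then `SupB` bounds
`Qy j, Q j`, and `|Qt (j+1)| ≤ |Qyy (j+1)| + W0 |Q j|`. All are `≤ D K^j / j!` for suitable `D, K`
(e.g. `j ≤ 2^j`, `K = 2 (k + 1) (τ + 1)`). -/
def Iter : Prop := ∀ a τ : ℝ, 0 < a → 0 < τ → ∀ V Vt Vy w wy wyy : ℝ → ℝ → ℝ,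
  Cl a 0 τ V Vt Vy Vt → Src a τ w wy wyy →
  ∃ (Q Qt Qy Qyy : ℕ → ℝ → ℝ → ℝ) (D K : ℝ), QFam a 0 τ V w Q Qt Qy Qyy D K

/-- L14 (shift in time). Proof: apply `Iter` to the time translates by `α` of `V` and `W` (on
`[0, β - α]`; `OddFlow` gives smoothness on `0 < t`, `|y| < 2 a`, `∂² V = Vt`, and continuity of
`Vt` on that set since `V` is smooth: `Vt t y = fderiv ℝ (V) (t, y) (1, 0)`), and translate back. -/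
def Fam : Prop := ∀ a α β : ℝ, 0 < a → 0 < α → α < β → ∀ f g : ℝ → ℝ,
  ∀ V Vt Vy W Wt Wy : ℝ → ℝ → ℝ, OddFlow a f V Vt Vy → OddFlow a g W Wt Wy →
  ∃ (Q Qt Qy Qyy : ℕ → ℝ → ℝ → ℝ) (D K : ℝ), QFam a α β V W Q Qt Qy Qyy D K

/-! ### the switch -/

/-- L15. Proof: `Z = cutJ T K₀` with `K₀` large (`r = 4 K₀⁻¹` small: `4 r (2 b)² < 1`,
`2 √r ≤ ε`, `cutJ_jet`, `cutJ_bd`, `cutJ_left`, `cutJ_right`), `Good (2 b)` for it and all its shifts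
(`Good.shift`). `R (2 i) = FE (sh^i Z)`, `R (2 i + 1) = FO (sh^(i+1) Z)`; derivatives from
`FE_dt, FE_dy, FO_dt, FO_dy`, continuity from `smooth_FE, smooth_FO`. Bounds:
`|FE (sh^i Z)| ≤ ∑ₙ C r^(n+i) (2n+2i)!/(2n)! b^(2n) ≤ C (2i)! (4r)^i ∑ₙ (4 r b²)^n`
(`(2n+2i)! ≤ 2^(2n+2i) (2n)! (2i)!`), the same way for `FO`. -/
def SwitchFam : Prop := ∀ b T ε : ℝ, 0 < b → 0 < T → 0 < ε → ∃ R : ℕ → ℝ → ℝ → ℝ, RFam b T ε R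

/-! ### the sum -/

/-- L16. Proof: majorant `D K^j / j! * (C (j+i)! ε^(j+i))`, summable (ratio test or
`(j+i)! ≤ j! (j+i)^i`, `K ε ≤ 1/2`); `continuousOn_tsum`. -/
def SumCont : Prop := ∀ α β a b D K C ε : ℝ, 0 ≤ D → 0 < K → 0 ≤ C → 0 < ε → K * ε ≤ 1 / 2 →
  ∀ (P R : ℕ → ℝ → ℝ → ℝ) (i : ℕ),
  (∀ j, ContinuousOn (fun z : ℝ × ℝ => P j z.1 z.2) (Icc α β ×ˢ Icc (-a) a)) →
  (∀ j, ContinuousOn (fun z : ℝ × ℝ => R j z.1 z.2) (Icc α β ×ˢ Icc (-b) b)) →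
  (∀ j, ∀ t ∈ Icc α β, ∀ y ∈ Icc (-a) a, |P j t y| ≤ D * K ^ j / (j.factorial : ℝ)) →
  (∀ (j : ℕ), ∀ t ∈ Icc α β, ∀ z ∈ Icc (-b) b, |R j t z| ≤ C * (j.factorial : ℝ) * ε ^ j) →
  ContinuousOn (fun x : ℝ × ℝ × ℝ => ∑' j, P j x.1 x.2.1 * R (j + i) x.1 x.2.2)
    (Icc α β ×ˢ (Icc (-a) a ×ˢ Icc (-b) b)) ∧
  ∀ t ∈ Icc α β, ∀ y ∈ Icc (-a) a, ∀ z ∈ Icc (-b) b,
    Summable fun j => P j t y * R (j + i) t z

/-- L17. Proof: `hasDerivAt_tsum_of_isPreconnected` with the majorants of `SumCont` (on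
`Ioo α β`, `Ioo (-a) a`, and for the `z`-derivatives on `Ioo (-b) b`). The sum in `t` of
`Qt j * R j + Q j * R (j + 2)`. -/
def SumDer : Prop := ∀ α β a b C ε : ℝ, 0 < a → 0 < b → 0 ≤ C → 0 < ε →
  ∀ (V W : ℝ → ℝ → ℝ) (Q Qt Qy Qyy R : ℕ → ℝ → ℝ → ℝ) (D K : ℝ), K * ε ≤ 1 / 2 →
  QFam a α β V W Q Qt Qy Qyy D K →
  (∀ j, ∀ t ∈ Icc α β, ∀ z ∈ Icc (-b) b, |R j t z| ≤ C * (j.factorial : ℝ) * ε ^ j) →
  (∀ j, ∀ t ∈ Icc α β, ∀ z ∈ Icc (-b) b, HasDerivAt (fun s => R j s z) (R (j + 2) t z) t) →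
  (∀ j, ∀ t ∈ Icc α β, ∀ z ∈ Icc (-b) b, HasDerivAt (R j t) (R (j + 1) t z) z) →
  (∀ t ∈ Ioo α β, ∀ y ∈ Icc (-a) a, ∀ z ∈ Icc (-b) b,
    HasDerivAt (fun s => ∑' j, Q j s y * R j s z)
      ((∑' j, Qt j t y * R j t z) + ∑' j, Q j t y * R (j + 2) t z) t) ∧
  (∀ t ∈ Icc α β, ∀ y ∈ Ioo (-a) a, ∀ z ∈ Icc (-b) b,
    HasDerivAt (fun s => ∑' j, Q j t s * R j t z) (∑' j, Qy j t y * R j t z) y) ∧
  (∀ t ∈ Icc α β, ∀ y ∈ Ioo (-a) a, ∀ z ∈ Icc (-b) b,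
    HasDerivAt (fun s => ∑' j, Qy j t s * R j t z) (∑' j, Qyy j t y * R j t z) y) ∧
  (∀ t ∈ Icc α β, ∀ y ∈ Icc (-a) a, ∀ z ∈ Ioo (-b) b,
    HasDerivAt (fun s => ∑' j, Q j t y * R j t s) (∑' j, Q j t y * R (j + 1) t z) z) ∧
  ∀ t ∈ Icc α β, ∀ y ∈ Icc (-a) a, ∀ z ∈ Ioo (-b) b,
    HasDerivAt (fun s => ∑' j, Q j t y * R (j + 1) t s) (∑' j, Q j t y * R (j + 2) t z) z

/-- L18. Proof: `Fam` on `[T / 4, 2 T]` gives `Q, D, K`; `SwitchFam` with `ε = 1 / (2 K)` gives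
`R`, with the bound `C` for `t ≥ T / 4`. `A = V` for `t ≤ T / 2`, `A = 0` for `t ≥ T`, and
`A = ∑' Q j R j` for `T / 2 < t < T`; the same for the derivatives (`At = ∑' Qt j R j +
∑' Q j R (j + 2)`, `Ay`, `Ayy`, `Az = ∑' Q j R (j + 1)`, `Azz = ∑' Q j R (j + 2)`; for `t ≤ T / 2`:
`At = Ayy = Vt`, `Ay = Vy`, `Az = Azz = 0`; note `Qy 0 = Vy`, `Qt 0 = Vt` on the open rectangle by uniqueness of
derivatives, and on the closed one by continuity). The series agrees with `V` for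
`T / 4 ≤ t ≤ T / 2` (only `j = 0` contributes, `R 0 = 1`) and with `0` for `t ≥ T`, so near each
`t > 0` one of the three formulas (`t < T / 2`, `T / 4 < t < 2 T`, `t > T`) holds. The equation:
`∑ (Qyy j - W Q (j - 1)) R j + ∑ Q j R (j + 2) + W ∑ Q j R (j + 1)` telescopes
(`tsum_eq_zero_add`). -/
def DriftEx : Prop := ∀ a b T : ℝ, 0 < a → 0 < b → 0 < T → ∀ f g : ℝ → ℝ,
  ∀ V Vt Vy W Wt Wy : ℝ → ℝ → ℝ, OddFlow a f V Vt Vy → OddFlow a g W Wt Wy →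
  ∃ A At Ay Ayy Az Azz : ℝ → ℝ → ℝ → ℝ, Drift a b T V Vy W A At Ay Ayy Az Azz

/-! ### the flow -/

/-- L19. Proof: as `hboxle` in the proof of `plates_stop` (`subset_box`, `box_lintegral` of the
library). -/
def BoxInt : Prop := ∀ a b : ℝ, 0 < a → 0 < b → ∃ c : ℝ≥0∞, c ≠ ⊤ ∧
  ∀ H : ℝ → ℝ≥0∞, AEMeasurable H (volume.restrict (Icc (-a) a)) →
    ∫⁻ x in box a b, H (x 1) ≤ c * ∫⁻ y in Icc (-a) a, H y

/-- L20. Proof: `‖vec p q - U₀‖² = ‖p - U₀ 0‖² + ‖q - U₀ 2‖²` (as `U₀ 1 = 0`), `BoxInt`,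
`lintegral_add_left'`, squeeze. See `initial` in the proof of `plates_stop`. -/
def InitS : Prop := ∀ a b : ℝ, 0 < a → 0 < b → ∀ U₀ : ℝ → Sp 3, (∀ y, U₀ y 1 = 0) →
  MemLp U₀ 2 (volume.restrict (Icc (-a) a)) → ∀ P Q : ℝ → ℝ → ℝ,
  (∀ t, 0 < t → ContinuousOn (P t) (Icc (-a) a)) →
  (∀ t, 0 < t → ContinuousOn (Q t) (Icc (-a) a)) →
  Tendsto (fun t : ℝ => ∫⁻ y in Icc (-a) a, ‖P t y - U₀ y 0‖ₑ ^ 2) (𝓝[>] 0) (𝓝 0) →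
  Tendsto (fun t : ℝ => ∫⁻ y in Icc (-a) a, ‖Q t y - U₀ y 2‖ₑ ^ 2) (𝓝[>] 0) (𝓝 0) →
  Tendsto (fun t : ℝ => ∫⁻ x in box a b, ‖vec (P t (x 1)) (Q t (x 1)) - U₀ (x 1)‖ₑ ^ 2)
    (𝓝[>] 0) (𝓝 0)

/-- L21. Proof: `V + O - f = (V - even part) + (O - odd part)`, `|x + y|² ≤ 2 |x|² + 2 |y|²`
(see `two` in the proof of `plates_stop`). -/
def LimAdd : Prop := ∀ a T : ℝ, 0 < a → 0 < T → ∀ f : ℝ → ℝ,
  MemLp f 2 (volume.restrict (Icc (-a) a)) →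
  ∀ (V Vt Vy Vyy : ℝ → ℝ → ℝ) (g : ℝ → ℝ) (O Ot Oy : ℝ → ℝ → ℝ),
  Flow (Icc (-a) a) (2 * a) T (fun y => (f y + f (-y)) / 2) V Vt Vy Vyy g →
  OddFlow a f O Ot Oy →
  Tendsto (fun t : ℝ => ∫⁻ y in Icc (-a) a, ‖(V t y + O t y) - f y‖ₑ ^ 2) (𝓝[>] 0) (𝓝 0)

/-- L22. Proof: split `(0, T₀] ∪ (T₀, T₁] ∪ (T₁, ∞)`. First: `BoxInt` and the hypotheses on `P`.
Second: `D i` is bounded on the compact `[T₀, T₁] × box a b`, of finite measure. Third: `0`. See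
`energy` in the proof of `plates_stop`. -/
def EnergyS : Prop := ∀ a b T₀ T₁ : ℝ, 0 < a → 0 < b → 0 < T₀ → T₀ < T₁ →
  ∀ (D : Fin 3 → ℝ → Sp 3 → Sp 3) (P : Fin 4 → ℝ → ℝ → ℝ),
  (∀ i, ContinuousOn (fun z : ℝ × Sp 3 => D i z.1 z.2) (Ioi 0 ×ˢ box a b)) →
  (∀ t, T₁ ≤ t → ∀ x ∈ box a b, ∀ i, D i t x = 0) →
  (∀ k, ContinuousOn (fun z : ℝ × ℝ => P k z.1 z.2) (Ioi 0 ×ˢ Icc (-a) a)) →
  (∀ k, ∫⁻ t in Ioi (0 : ℝ), ∫⁻ y in Icc (-a) a, ‖P k t y‖ₑ ^ 2 < ⊤) →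
  (∀ t, 0 < t → t ≤ T₀ → ∀ x ∈ box a b,
    ∑ i, ‖D i t x‖ₑ ^ 2 ≤ 2 * ∑ k, ‖P k t (x 1)‖ₑ ^ 2) →
  ∫⁻ t in Ioi (0 : ℝ), ∫⁻ x in box a b, ∑ i, ‖D i t x‖ₑ ^ 2 < ⊤

/-- L23 (the theorem). -/
def Main : Prop := ∀ a b T : ℝ, 0 < a → 0 < b → 0 < T → ∀ U₀ : ℝ → Sp 3,
  (∀ y, U₀ y 1 = 0) → MemLp U₀ 2 (volume.restrict (Icc (-a) a)) →
  ∃ u p, StopsC a b T U₀ u p

end Pool.Agent.H309.DF
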