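import Mathlib
import Pool.Agent.H309.DF.Stm

/-!
# L7 (Minkowski): finite sums of squares of integrals
-/

set_option autoImplicit false

open Set MeasureTheory

namespace Pool.Agent.H309.DF.LMink

theorem tMink : Pool.Agent.H309.DF.Mink := by
  intro τ B n F hτ hB hF hb t ht s
  have ht0 : 0 ≤ t := ht.1
  have hsub : Icc 0 t ⊆ Icc 0 τ := Icc_subset_Icc_right ht.2
  have hint : ∀ m, IntervalIntegrable (fun r => |F m r|) volume 0 t := by
    intro m
    refine ContinuousOn.intervalIntegrable ?_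
    rw [uIcc_of_le ht0]
    exact ((hF m).mono hsub).abs
  obtain ⟨G, hG⟩ : ∃ G : ℕ → ℝ, G = fun m => ∫ r in (0 : ℝ)..t, |F m r| := ⟨_, rfl⟩
  obtain ⟨N, hN⟩ : ∃ N : ℝ, N = Real.sqrt (∑ m ∈ s, G m ^ 2) := ⟨_, rfl⟩
  obtain ⟨C, hC⟩ : ∃ C : ℝ, C = B * t ^ (n + 1) / ((n : ℝ) + 1) := ⟨_, rfl⟩
  have hQ0 : 0 ≤ ∑ m ∈ s, G m ^ 2 := Finset.sum_nonneg fun m _ => sq_nonneg _
  have hN0 : 0 ≤ N := by rw [hN]; exact Real.sqrt_nonneg _
  have hN2 : N ^ 2 = ∑ m ∈ s, G m ^ 2 := by rw [hN]; exact Real.sq_sqrt hQ0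
  have hC0 : 0 ≤ C := by rw [hC]; positivity
  have h1 : ∑ m ∈ s, G m ^ 2 = ∫ r in (0 : ℝ)..t, ∑ m ∈ s, G m * |F m r| := by
    rw [intervalIntegral.integral_finsetSum fun m _ => (hint m).const_mul (G m)]
    refine Finset.sum_congr rfl fun m _ => ?_
    rw [intervalIntegral.integral_const_mul, pow_two]
    have : (∫ r in (0 : ℝ)..t, |F m r|) = G m := by rw [hG]
    rw [this]
  have h2 : ∫ r in (0 : ℝ)..t, ∑ m ∈ s, G m * |F m r| ≤ ∫ r in (0 : ℝ)..t, N * (B * r ^ n) := by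
    refine intervalIntegral.integral_mono_on ht0 ?_ ?_ ?_
    · have h3 := IntervalIntegrable.sum s fun m (_ : m ∈ s) => (hint m).const_mul (G m)
      have h4 : (∑ i ∈ s, fun x => G i * |F i x|) = fun r => ∑ m ∈ s, G m * |F m r| := by
        funext r
        rw [Finset.sum_apply]
      rw [h4] at h3
      exact h3
    · exact (by fun_prop : Continuous fun r : ℝ => N * (B * r ^ n)).intervalIntegrable _ _
    · intro r hr
      have h3 := Real.sum_mul_le_sqrt_mul_sqrt s G fun m => |F m r|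
      have h4 : Real.sqrt (∑ m ∈ s, |F m r| ^ 2) ≤ B * r ^ n := by
        have h5 : 0 ≤ B * r ^ n := mul_nonneg hB (pow_nonneg hr.1 n)
        rw [Real.sqrt_le_left h5]
        have h6 := hb r (hsub hr) s
        calc ∑ m ∈ s, |F m r| ^ 2 = ∑ m ∈ s, F m r ^ 2 :=
              Finset.sum_congr rfl fun m _ => sq_abs _
          _ ≤ _ := h6
      rw [← hN] at h3
      exact h3.trans (mul_le_mul_of_nonneg_left h4 hN0)
  have h7 : ∫ r in (0 : ℝ)..t, N * (B * r ^ n) = N * C := by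
    rw [intervalIntegral.integral_const_mul, intervalIntegral.integral_const_mul, integral_pow, hC,
      zero_pow (Nat.succ_ne_zero n), sub_zero]
    ring
  rw [← h1, h7, ← hN2] at h2
  have h8 : N ≤ C := by
    rcases eq_or_lt_of_le hN0 with h | h
    · rw [← h]; exact hC0
    · rw [pow_two] at h2
      exact le_of_mul_le_mul_left h2 h
  have h9 : ∑ m ∈ s, (∫ r in (0 : ℝ)..t, |F m r|) ^ 2 = N ^ 2 := by
    rw [hN2, hG]
  rw [h9, ← hC]
  exact pow_le_pow_left₀ hN0 h8 2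

end Pool.Agent.H309.DF.LMink
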