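import Pool.Agent.H309.DF.Stm

/-!
Leaf `SeriesCl` of project DF (helper309).
-/

set_option autoImplicit false

open Set Filter Topology MeasureTheory

namespace Pool.Agent.H309.DF.LSeriesCl

open Pool.Agent.H309.DF

theorem mu_pos {a : ℝ} (ha : 0 < a) (m : ℕ) : 0 < mu a m := by
  unfold mu
  have := Real.pi_pos
  positivity

theorem mu_le {a : ℝ} (ha : 0 < a) (m : ℕ) : mu a 0 ≤ mu a m := by
  unfold mu
  have hpi := Real.pi_pos
  have hm : (0 : ℝ) ≤ (m : ℝ) := Nat.cast_nonneg m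
  apply div_le_div_of_nonneg_right _ (by positivity)
  apply mul_le_mul_of_nonneg_right _ hpi.le
  push_cast
  linarith

theorem sn_abs (a : ℝ) (m : ℕ) (y : ℝ) : |sn a m y| ≤ 1 := Real.abs_sin_le_one _

theorem sn_cont (a : ℝ) (m : ℕ) : Continuous (sn a m) := by
  unfold sn
  fun_prop

theorem sn_deriv (a : ℝ) (m : ℕ) (y : ℝ) :
    HasDerivAt (sn a m) (mu a m * Real.cos (mu a m * (y + a))) y := by
  have h1 : HasDerivAt (fun y : ℝ => mu a m * (y + a)) (mu a m) y := by
    simpa using ((hasDerivAt_id y).add_const a).const_mul (mu a m)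
  have h2 := h1.sin
  rw [mul_comm] at h2
  exact h2

theorem cs_deriv (a : ℝ) (m : ℕ) (y : ℝ) :
    HasDerivAt (fun y : ℝ => mu a m * Real.cos (mu a m * (y + a))) (-(mu a m ^ 2) * sn a m y) y := by
  have h1 : HasDerivAt (fun y : ℝ => mu a m * (y + a)) (mu a m) y := by
    simpa using ((hasDerivAt_id y).add_const a).const_mul (mu a m)
  have h2 := h1.cos.const_mul (mu a m)
  have e : mu a m * (-Real.sin (mu a m * (y + a)) * mu a m) = -(mu a m ^ 2) * sn a m y := by
    unfold sn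
    ring
  rw [e] at h2
  exact h2

theorem sn_right {a : ℝ} (ha : 0 < a) (m : ℕ) : sn a m a = 0 := by
  unfold sn mu
  have e : ((m : ℝ) + 1) * Real.pi / (2 * a) * (a + a) = ((m + 1 : ℕ) : ℝ) * Real.pi := by
    push_cast
    field_simp
    ring
  rw [e]
  exact Real.sin_nat_mul_pi _

theorem sn_left (a : ℝ) (m : ℕ) : sn a m (-a) = 0 := by
  unfold sn
  simp

theorem tSeriesCl : Pool.Agent.H309.DF.SeriesCl := by
  intro a τ ha hτ p p' β hβ hpc hpc' hpd hpb hpb'
  have hc0 : 0 < mu a 0 := mu_pos ha 0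
  have hμ : ∀ m, 0 < mu a m := mu_pos ha
  have h0 : (0 : ℝ) ∈ Icc 0 τ := ⟨le_refl _, hτ.le⟩
  have hβ0 : ∀ m, 0 ≤ β m := fun m => (abs_nonneg _).trans (hpb m 0 h0)
  -- bounds for the coefficients
  have b1 : ∀ m, ∀ t ∈ Icc 0 τ, |mu a m * p m t| ≤ β m / mu a 0 := by
    intro m t ht
    have h1 := hpb m t ht
    rw [le_div_iff₀ hc0]
    have h2 : |mu a m ^ 2 * p m t| = |mu a m * p m t| * mu a m := by
      rw [pow_two, mul_assoc, abs_mul, abs_of_pos (hμ m), mul_comm]
    rw [h2] at h1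
    exact (mul_le_mul_of_nonneg_left (mu_le ha m) (abs_nonneg _)).trans h1
  have b0 : ∀ m, ∀ t ∈ Icc 0 τ, |p m t| ≤ β m / mu a 0 / mu a 0 := by
    intro m t ht
    have h1 := b1 m t ht
    rw [le_div_iff₀ hc0]
    have h2 : |mu a m * p m t| = |p m t| * mu a m := by
      rw [abs_mul, abs_of_pos (hμ m), mul_comm]
    rw [h2] at h1
    exact (mul_le_mul_of_nonneg_left (mu_le ha m) (abs_nonneg _)).trans h1
  have s1 : Summable (fun m => β m / mu a 0) := hβ.div_const _
  have s0 : Summable (fun m => β m / mu a 0 / mu a 0) := s1.div_const _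
  -- bounds for the terms
  have t0 : ∀ m, ∀ t ∈ Icc 0 τ, ∀ y, ‖p m t * sn a m y‖ ≤ β m / mu a 0 / mu a 0 := by
    intro m t ht y
    rw [Real.norm_eq_abs, abs_mul]
    calc |p m t| * |sn a m y| ≤ |p m t| * 1 :=
          mul_le_mul_of_nonneg_left (sn_abs a m y) (abs_nonneg _)
      _ = |p m t| := mul_one _
      _ ≤ _ := b0 m t ht
  have t1 : ∀ m, ∀ t ∈ Icc 0 τ, ∀ y,
      ‖p m t * (mu a m * Real.cos (mu a m * (y + a)))‖ ≤ β m / mu a 0 := by
    intro m t ht y
    rw [Real.norm_eq_abs, show p m t * (mu a m * Real.cos (mu a m * (y + a))) =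
      (mu a m * p m t) * Real.cos (mu a m * (y + a)) by ring, abs_mul]
    calc |mu a m * p m t| * |Real.cos (mu a m * (y + a))| ≤ |mu a m * p m t| * 1 :=
          mul_le_mul_of_nonneg_left (Real.abs_cos_le_one _) (abs_nonneg _)
      _ = |mu a m * p m t| := mul_one _
      _ ≤ _ := b1 m t ht
  have t2 : ∀ m, ∀ t ∈ Icc 0 τ, ∀ y, ‖-(mu a m ^ 2 * p m t) * sn a m y‖ ≤ β m := by
    intro m t ht y
    rw [Real.norm_eq_abs, abs_mul, abs_neg]
    calc |mu a m ^ 2 * p m t| * |sn a m y| ≤ |mu a m ^ 2 * p m t| * 1 :=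
          mul_le_mul_of_nonneg_left (sn_abs a m y) (abs_nonneg _)
      _ = |mu a m ^ 2 * p m t| := mul_one _
      _ ≤ _ := hpb m t ht
  have t3 : ∀ m, ∀ t ∈ Icc 0 τ, ∀ y, ‖p' m t * sn a m y‖ ≤ β m := by
    intro m t ht y
    rw [Real.norm_eq_abs, abs_mul]
    calc |p' m t| * |sn a m y| ≤ |p' m t| * 1 :=
          mul_le_mul_of_nonneg_left (sn_abs a m y) (abs_nonneg _)
      _ = |p' m t| := mul_one _
      _ ≤ _ := hpb' m t ht
  -- continuity of the terms
  have cp : ∀ m, ContinuousOn (fun z : ℝ × ℝ => p m z.1) (Icc 0 τ ×ˢ Icc (-a) a) := by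
    intro m
    exact (hpc m).comp continuousOn_fst (fun z hz => hz.1)
  have cp' : ∀ m, ContinuousOn (fun z : ℝ × ℝ => p' m z.1) (Icc 0 τ ×ˢ Icc (-a) a) := by
    intro m
    exact (hpc' m).comp continuousOn_fst (fun z hz => hz.1)
  have cs : ∀ m, ContinuousOn (fun z : ℝ × ℝ => sn a m z.2) (Icc 0 τ ×ˢ Icc (-a) a) := by
    intro m
    exact ((sn_cont a m).comp continuous_snd).continuousOn
  have cc : ∀ m, ContinuousOn (fun z : ℝ × ℝ => mu a m * Real.cos (mu a m * (z.2 + a)))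
      (Icc 0 τ ×ˢ Icc (-a) a) := by
    intro m
    apply Continuous.continuousOn
    fun_prop
  refine ⟨?_, ?_, ?_, ?_, ?_, ?_, ?_, ?_⟩
  · exact continuousOn_tsum (fun m => (cp m).mul (cs m)) s0 (fun m z hz => t0 m z.1 hz.1 z.2)
  · exact continuousOn_tsum (fun m => (cp' m).mul (cs m)) hβ (fun m z hz => t3 m z.1 hz.1 z.2)
  · exact continuousOn_tsum (fun m => (cp m).mul (cc m)) s1 (fun m z hz => t1 m z.1 hz.1 z.2)
  · exact continuousOn_tsum (fun m => ((continuousOn_const.mul (cp m)).neg).mul (cs m)) hβ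
      (fun m z hz => t2 m z.1 hz.1 z.2)
  · intro t ht y hy
    refine hasDerivAt_tsum_of_isPreconnected (g := fun m s => p m s * sn a m y)
      (g' := fun m s => p' m s * sn a m y) (t := Ioo 0 τ) (y₀ := t) (y := t) hβ isOpen_Ioo
      isPreconnected_Ioo ?_ ?_ ht ?_ ht
    · intro m s hs
      exact (hpd m s hs).mul_const _
    · intro m s hs
      exact t3 m s (Ioo_subset_Icc_self hs) y
    · exact Summable.of_norm_bounded s0 (fun m => t0 m t (Ioo_subset_Icc_self ht) y)
  · intro t ht y hy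
    refine hasDerivAt_tsum (g := fun m s => p m t * sn a m s)
      (g' := fun m s => p m t * (mu a m * Real.cos (mu a m * (s + a)))) (y₀ := y) s1 ?_ ?_ ?_ y
    · intro m s
      exact (sn_deriv a m s).const_mul (p m t)
    · intro m s
      exact t1 m t ht s
    · exact Summable.of_norm_bounded s0 (fun m => t0 m t ht y)
  · intro t ht y hy
    refine hasDerivAt_tsum (g := fun m s => p m t * (mu a m * Real.cos (mu a m * (s + a))))
      (g' := fun m s => -(mu a m ^ 2 * p m t) * sn a m s) (y₀ := y) hβ ?_ ?_ ?_ y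
    · intro m s
      have h1 := (cs_deriv a m s).const_mul (p m t)
      have e : p m t * (-(mu a m ^ 2) * sn a m s) = -(mu a m ^ 2 * p m t) * sn a m s := by ring
      rw [e] at h1
      exact h1
    · intro m s
      exact t2 m t ht s
    · exact Summable.of_norm_bounded s1 (fun m => t1 m t ht y)
  · intro t ht
    constructor
    · simp only [sn_right ha, mul_zero, tsum_zero]
    · simp only [sn_left, mul_zero, tsum_zero]

end Pool.Agent.H309.DF.LSeriesCl
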