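import Mathlib
import Pool.Agent.H309.DF.Stm

/-!
# Parseval (upper bound) for an absolutely convergent sine series
-/

set_option autoImplicit false

open Set Filter Topology MeasureTheory

namespace Pool.Agent.H309.DF.LSqSeries

open Pool.Agent.H309.DF

theorem int_cos (a : ℝ) (ha : 0 < a) (k : ℤ) (hk : k ≠ 0) :
    ∫ u in (0 : ℝ)..(2 * a), Real.cos ((k : ℝ) * Real.pi / (2 * a) * u) = 0 := by
  have hc : (k : ℝ) * Real.pi / (2 * a) ≠ 0 :=
    div_ne_zero (mul_ne_zero (Int.cast_ne_zero.2 hk) Real.pi_ne_zero) (by positivity)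
  rw [intervalIntegral.integral_comp_mul_left (fun x => Real.cos x) hc]
  rw [integral_cos, mul_zero, Real.sin_zero, sub_zero]
  have h2 : (k : ℝ) * Real.pi / (2 * a) * (2 * a) = k * Real.pi := by field_simp
  rw [h2, Real.sin_int_mul_pi, smul_zero]

theorem sn_cont (a : ℝ) (m : ℕ) : Continuous (sn a m) := by
  unfold sn
  fun_prop

theorem orth (a : ℝ) (ha : 0 < a) (m n : ℕ) :
    ∫ y in (-a)..a, sn a m y * sn a n y = if m = n then a else 0 := by
  have h1 : ∀ y, sn a m y * sn a n y =
      (1 / 2) * (Real.cos ((((m : ℤ) - n : ℤ) : ℝ) * Real.pi / (2 * a) * (y + a)) -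
        Real.cos ((((m : ℤ) + n + 2 : ℤ) : ℝ) * Real.pi / (2 * a) * (y + a))) := by
    intro y
    unfold sn mu
    have e1 : (((m : ℤ) - n : ℤ) : ℝ) * Real.pi / (2 * a) * (y + a) =
        ((m : ℝ) + 1) * Real.pi / (2 * a) * (y + a) - ((n : ℝ) + 1) * Real.pi / (2 * a) * (y + a) := by
      push_cast; ring
    have e2 : (((m : ℤ) + n + 2 : ℤ) : ℝ) * Real.pi / (2 * a) * (y + a) =
        ((m : ℝ) + 1) * Real.pi / (2 * a) * (y + a) + ((n : ℝ) + 1) * Real.pi / (2 * a) * (y + a) := by
      push_cast; ring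
    rw [e1, e2, Real.cos_sub, Real.cos_add]
    ring
  rw [intervalIntegral.integral_congr (g := fun y =>
    (fun u => (1 / 2) * (Real.cos ((((m : ℤ) - n : ℤ) : ℝ) * Real.pi / (2 * a) * u) -
        Real.cos ((((m : ℤ) + n + 2 : ℤ) : ℝ) * Real.pi / (2 * a) * u))) (y + a)) (fun y _ => h1 y)]
  rw [intervalIntegral.integral_comp_add_right (fun u => (1 / 2) *
    (Real.cos ((((m : ℤ) - n : ℤ) : ℝ) * Real.pi / (2 * a) * u) -
        Real.cos ((((m : ℤ) + n + 2 : ℤ) : ℝ) * Real.pi / (2 * a) * u))) a]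
  rw [neg_add_cancel, ← two_mul, intervalIntegral.integral_const_mul,
    intervalIntegral.integral_sub
      ((by fun_prop : Continuous fun u : ℝ =>
        Real.cos ((((m : ℤ) - n : ℤ) : ℝ) * Real.pi / (2 * a) * u)).intervalIntegrable _ _)
      ((by fun_prop : Continuous fun u : ℝ =>
        Real.cos ((((m : ℤ) + n + 2 : ℤ) : ℝ) * Real.pi / (2 * a) * u)).intervalIntegrable _ _),
    int_cos a ha ((m : ℤ) + n + 2) (by omega)]
  split_ifs with h
  · subst h
    have h2 : ∀ u : ℝ, Real.cos ((((m : ℤ) - m : ℤ) : ℝ) * Real.pi / (2 * a) * u) = 1 := by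
      intro u
      rw [sub_self, Int.cast_zero, zero_mul, zero_div, zero_mul, Real.cos_zero]
    simp_rw [h2]
    rw [intervalIntegral.integral_const, smul_eq_mul]
    ring
  · rw [int_cos a ha ((m : ℤ) - n) (by omega)]
    ring

theorem fin_sum (a : ℝ) (ha : 0 < a) (b : ℕ → ℝ) (N : ℕ) :
    ∫ y in (-a)..a, (∑ m ∈ Finset.range N, b m * sn a m y) ^ 2 =
      a * ∑ m ∈ Finset.range N, b m ^ 2 := by
  have h1 : ∀ y, (∑ m ∈ Finset.range N, b m * sn a m y) ^ 2 =
      ∑ m ∈ Finset.range N, ∑ n ∈ Finset.range N, (b m * b n) * (sn a m y * sn a n y) := by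
    intro y
    rw [pow_two, Finset.sum_mul_sum]
    refine Finset.sum_congr rfl fun m _ => Finset.sum_congr rfl fun n _ => ?_
    ring
  have hc : ∀ m n : ℕ, Continuous fun y => (b m * b n) * (sn a m y * sn a n y) := fun m n =>
    continuous_const.mul ((sn_cont a m).mul (sn_cont a n))
  simp_rw [h1]
  rw [intervalIntegral.integral_finsetSum (fun m _ =>
    (continuous_finsetSum _ fun n _ => hc m n).intervalIntegrable _ _), Finset.mul_sum]
  refine Finset.sum_congr rfl fun m hm => ?_
  rw [intervalIntegral.integral_finsetSum (fun n _ => (hc m n).intervalIntegrable _ _)]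
  have h2 : ∀ n ∈ Finset.range N, ∫ y in (-a)..a, (b m * b n) * (sn a m y * sn a n y) =
      if m = n then a * b m ^ 2 else 0 := by
    intro n _
    rw [intervalIntegral.integral_const_mul, orth a ha m n]
    split_ifs with h
    · subst h; ring
    · ring
  rw [Finset.sum_congr rfl h2, Finset.sum_ite_eq, if_pos hm]

theorem tSqSeries : Pool.Agent.H309.DF.SqSeries := by
  intro a ha b hb B hB
  have hsn : ∀ m y, |b m * sn a m y| ≤ |b m| := by
    intro m y
    rw [abs_mul]
    have h1 : |sn a m y| ≤ 1 := by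
      unfold sn
      exact Real.abs_sin_le_one _
    exact mul_le_of_le_one_right (abs_nonneg _) h1
  have hsum : ∀ y, Summable fun m => b m * sn a m y := fun y =>
    Summable.of_norm_bounded (g := fun m => |b m|) hb (fun m => by
      rw [Real.norm_eq_abs]
      exact hsn m y)
  have hlim : Tendsto (fun N : ℕ => ∫ y in (-a)..a, (∑ m ∈ Finset.range N, b m * sn a m y) ^ 2)
      atTop (𝓝 (∫ y in (-a)..a, (∑' m, b m * sn a m y) ^ 2)) := by
    refine intervalIntegral.tendsto_integral_filter_of_dominated_convergence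
      (fun _ => (∑' m, |b m|) ^ 2) ?_ ?_ ?_ ?_
    · refine Eventually.of_forall fun N => ?_
      have h1 : Continuous fun y => (∑ m ∈ Finset.range N, b m * sn a m y) ^ 2 :=
        (continuous_finsetSum _ fun m _ => continuous_const.mul (sn_cont a m)).pow 2
      exact h1.aestronglyMeasurable
    · refine Eventually.of_forall fun N => Eventually.of_forall fun y _ => ?_
      rw [Real.norm_eq_abs, abs_pow]
      refine pow_le_pow_left₀ (abs_nonneg _) ?_ 2
      calc |∑ m ∈ Finset.range N, b m * sn a m y| ≤ ∑ m ∈ Finset.range N, |b m * sn a m y| :=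
            Finset.abs_sum_le_sum_abs _ _
        _ ≤ ∑ m ∈ Finset.range N, |b m| := Finset.sum_le_sum fun m _ => hsn m y
        _ ≤ ∑' m, |b m| := hb.sum_le_tsum _ fun m _ => abs_nonneg _
    · exact intervalIntegrable_const
    · refine Eventually.of_forall fun y _ => ?_
      exact ((hsum y).hasSum.tendsto_sum_nat).pow 2
  refine le_of_tendsto' hlim fun N => ?_
  rw [fin_sum a ha b N]
  exact mul_le_mul_of_nonneg_left (hB _) ha.le

end Pool.Agent.H309.DF.LSqSeries
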