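import Mathlib
import Pool.Agent.H309.DF.Stm

/-!
# Leaf L10 of the project DF (helper86, for helper309): one step of the forced heat equation
-/

set_option autoImplicit false

open Set Filter Topology MeasureTheory

namespace Pool.Agent.H309.DF.LStep

open Pool.Agent.H309.DF

theorem mu_pos {a : ℝ} (ha : 0 < a) (m : ℕ) : 0 < mu a m := by
  unfold mu
  have := Real.pi_pos
  positivity

theorem sn_le (a : ℝ) (m : ℕ) (y : ℝ) : |sn a m y| ≤ 1 := Real.abs_sin_le_one _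

theorem slice {a τ : ℝ} {g : ℝ → ℝ → ℝ}
    (hg : ContinuousOn (fun z : ℝ × ℝ => g z.1 z.2) (Icc 0 τ ×ˢ Icc (-a) a)) {t : ℝ}
    (ht : t ∈ Icc 0 τ) : ContinuousOn (g t) (Icc (-a) a) :=
  hg.comp (f := fun y : ℝ => (t, y)) (continuous_const.prodMk continuous_id).continuousOn
    (fun _ hy => ⟨ht, hy⟩)

theorem bdd {a τ : ℝ} {g : ℝ → ℝ → ℝ}
    (hg : ContinuousOn (fun z : ℝ × ℝ => g z.1 z.2) (Icc 0 τ ×ˢ Icc (-a) a)) :
    ∃ S : ℝ, 0 ≤ S ∧ ∀ t ∈ Icc 0 τ, ∀ y ∈ Icc (-a) a, |g t y| ≤ S := by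
  obtain ⟨S, hS⟩ := (isCompact_Icc.prod isCompact_Icc).exists_bound_of_continuousOn hg
  refine ⟨max S 0, le_max_right _ _, fun t ht y hy => ?_⟩
  exact (hS (t, y) ⟨ht, hy⟩).trans (le_max_left _ _)

theorem sum_mu {a : ℝ} (ha : 0 < a) : Summable (fun m : ℕ => 1 / mu a m ^ 2) := by
  have h1 : Summable (fun m : ℕ => 1 / ((m + 1 : ℕ) : ℝ) ^ 2) :=
    (summable_nat_add_iff 1).2 (Real.summable_one_div_nat_pow.2 (by norm_num))
  have h2 := h1.mul_left ((2 * a / Real.pi) ^ 2)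
  refine h2.congr fun m => ?_
  unfold mu
  have hpi := Real.pi_pos
  push_cast
  field_simp

theorem tStep (h1 : CoSecond) (h2 : CoExpand) (h3 : CoBessel) (h4 : SqSeries) (h5 : CoCont)
    (h6 : DuFacts) (h7 : StepCoef) (h8 : SeriesCl) : Step := by
  intro a τ ha hτ
  obtain ⟨M, hM, h7⟩ := h7 a τ ha hτ
  have hsa : 0 < √a := Real.sqrt_pos.2 ha
  have hsa2 : √a * √a = a := Real.mul_self_sqrt ha.le
  refine ⟨M / √a, by positivity, ?_⟩
  intro f fy fyy n c hc hS hI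
  obtain ⟨S, hS0, hSb⟩ := bdd hS.c
  obtain ⟨S₂, hS20, hS2b⟩ := bdd hS.cyy
  have hmu : ∀ m, 0 < mu a m ^ 2 := fun m => pow_pos (mu_pos ha m) 2
  -- the coefficients
  have hF2 : ∀ m, ∀ t ∈ Icc 0 τ, mu a m ^ 2 * co a (f t) m = -co a (fyy t) m := by
    intro m t ht
    exact h1 a ha (f t) (fy t) (fyy t) (slice hS.c ht) (slice hS.cy ht) (slice hS.cyy ht)
      (hS.dy t ht) (hS.dyy t ht) (hS.wall t ht).1 (hS.wall t ht).2 m
  have hFc : ∀ m, ContinuousOn (fun t => co a (f t) m) (Icc 0 τ) := fun m =>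
    (h5 a τ S ha hτ hS0 f hS.c hSb m).1
  have hG : ∀ m, ∀ t ∈ Icc 0 τ, |co a (fyy t) m| ≤ 2 * S₂ := fun m =>
    (h5 a τ S₂ ha hτ hS20 fyy hS.cyy hS2b m).2
  have hFb : ∀ m, ∀ t ∈ Icc 0 τ, |co a (f t) m| ≤ 2 * S₂ * (1 / mu a m ^ 2) := by
    intro m t ht
    have e1 : co a (f t) m = -co a (fyy t) m / mu a m ^ 2 := by
      rw [eq_div_iff (hmu m).ne', mul_comm]
      exact hF2 m t ht
    rw [e1, abs_div, abs_neg, abs_of_pos (hmu m), div_eq_mul_one_div]
    exact mul_le_mul_of_nonneg_right (hG m t ht) (by have := hmu m; positivity)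
  have hB0 : 0 ≤ c / √a := by positivity
  have hsum : ∀ t ∈ Icc 0 τ, ∀ s : Finset ℕ,
      ∑ m ∈ s, (mu a m ^ 2 * co a (f t) m) ^ 2 ≤ (c / √a * t ^ n) ^ 2 := by
    intro t ht s
    have e1 : ∑ m ∈ s, (mu a m ^ 2 * co a (f t) m) ^ 2 = ∑ m ∈ s, co a (fyy t) m ^ 2 := by
      refine Finset.sum_congr rfl fun m _ => ?_
      rw [hF2 m t ht, neg_sq]
    rw [e1]
    refine (h3 a ha (fyy t) (slice hS.cyy ht) s).trans ?_
    have h9 := mul_le_mul_of_nonneg_left (hI t ht) (by positivity : (0 : ℝ) ≤ 1 / a)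
    refine h9.trans (le_of_eq ?_)
    rw [mul_pow (c / √a), div_pow, Real.sq_sqrt ha.le, mul_pow]
    ring
  obtain ⟨⟨β, hβ, hβM, hβb⟩, hsq⟩ := h7 (fun m t => co a (f t) m) n (c / √a) hB0 hFc hsum
  set p : ℕ → ℝ → ℝ := fun m => du (mu a m ^ 2) (fun t => co a (f t) m) with hp
  set p' : ℕ → ℝ → ℝ := fun m t => -(mu a m ^ 2 * p m t) + co a (f t) m with hp'
  have hpc : ∀ m, ContinuousOn (p m) (Icc 0 τ) := fun m =>
    (h6 (mu a m ^ 2) τ (hmu m) hτ _ (hFc m)).1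
  have hpd : ∀ m, ∀ t ∈ Ioo 0 τ, HasDerivAt (p m) (p' m t) t := fun m =>
    (h6 (mu a m ^ 2) τ (hmu m) hτ _ (hFc m)).2.1
  have hp'c : ∀ m, ContinuousOn (p' m) (Icc 0 τ) := fun m =>
    ((continuousOn_const.mul (hpc m)).neg).add (hFc m)
  have hβ0 : ∀ m, 0 ≤ β m := fun m =>
    (abs_nonneg _).trans (hβb m 0 ⟨le_refl _, hτ.le⟩)
  have hcl := h8 a τ ha hτ p p' (fun m => β m + 2 * S₂ * (1 / mu a m ^ 2))
    (hβ.add ((sum_mu ha).mul_left _)) hpc hp'c hpd
    (by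
      intro m t ht
      have h9 : 0 ≤ 2 * S₂ * (1 / mu a m ^ 2) := by have := hmu m; positivity
      exact (hβb m t ht).trans (by linarith))
    (by
      intro m t ht
      refine (abs_add_le _ _).trans ?_
      rw [abs_neg]
      exact add_le_add (hβb m t ht) (hFb m t ht))
  refine ⟨_, _, _, _, hcl, ?_, ?_, ?_⟩
  · -- the equation
    intro t ht y hy
    have hs1 : Summable (fun m => -(mu a m ^ 2 * p m t) * sn a m y) := by
      refine Summable.of_norm_bounded hβ fun m => ?_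
      rw [Real.norm_eq_abs, abs_mul, abs_neg]
      calc |mu a m ^ 2 * p m t| * |sn a m y| ≤ β m * 1 :=
            mul_le_mul (hβb m t ht) (sn_le a m y) (abs_nonneg _) (hβ0 m)
        _ = β m := mul_one _
    have hs2 : Summable (fun m => |co a (f t) m|) :=
      Summable.of_nonneg_of_le (fun m => abs_nonneg _) (fun m => hFb m t ht)
        ((sum_mu ha).mul_left _)
    have hs3 := h2 a ha (f t) (slice hS.c ht) (hS.wall t ht).1 (hS.wall t ht).2 hs2 y hy
    have e1 : ∀ m, p' m t * sn a m y =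
        -(mu a m ^ 2 * p m t) * sn a m y + co a (f t) m * sn a m y := by
      intro m
      rw [hp']
      ring
    simp only [e1]
    rw [hs1.tsum_add hs3.summable, hs3.tsum_eq]
  · -- the integral
    intro t ht
    have hs1 : Summable (fun m => |-(mu a m ^ 2 * p m t)|) := by
      refine Summable.of_nonneg_of_le (fun m => abs_nonneg _) (fun m => ?_) hβ
      rw [abs_neg]
      exact hβb m t ht
    have h9 := h4 a ha (fun m => -(mu a m ^ 2 * p m t)) hs1
      ((c / √a * t ^ (n + 1) / ((n : ℝ) + 1)) ^ 2) (by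
        intro s
        have := hsq t ht s
        simp only [neg_sq]
        exact this)
    refine h9.trans (le_of_eq ?_)
    have e2 : (c / √a * t ^ (n + 1) / ((n : ℝ) + 1)) ^ 2 =
        (c * t ^ (n + 1) / ((n : ℝ) + 1)) ^ 2 / a := by
      rw [show c / √a * t ^ (n + 1) / ((n : ℝ) + 1) =
        (c * t ^ (n + 1) / ((n : ℝ) + 1)) / √a by ring, div_pow, Real.sq_sqrt ha.le]
    rw [e2]
    field_simp
  · -- the bound
    intro t ht y hy
    have h9 : ‖∑' m, -(mu a m ^ 2 * p m t) * sn a m y‖ ≤ ∑' m, β m := by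
      refine tsum_of_norm_bounded hβ.hasSum fun m => ?_
      rw [Real.norm_eq_abs, abs_mul, abs_neg]
      calc |mu a m ^ 2 * p m t| * |sn a m y| ≤ β m * 1 :=
            mul_le_mul (hβb m t ht) (sn_le a m y) (abs_nonneg _) (hβ0 m)
        _ = β m := mul_one _
    rw [Real.norm_eq_abs] at h9
    refine (h9.trans hβM).trans (le_of_eq ?_)
    ring

end Pool.Agent.H309.DF.LStep
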