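import Pool.Agent.H309.DF.Stm

/-!
# Coefficients of one step: majorant and bound in `ℓ²`
-/

set_option autoImplicit false

open Set Filter Topology MeasureTheory

namespace Pool.Agent.H309.DF.LStepCoef

open Pool.Agent.H309.DF

theorem mu_pos {a : ℝ} (ha : 0 < a) (m : ℕ) : 0 < mu a m := by
  unfold mu
  have := Real.pi_pos
  positivity

theorem summ {a : ℝ} (ha : 0 < a) : Summable (fun m : ℕ => 1 / (2 * mu a m ^ 2)) := by
  have h1 : Summable (fun m : ℕ => 1 / ((m : ℝ) + 1) ^ 2) := by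
    have h2 := (summable_nat_add_iff 1).2
      (Real.summable_one_div_nat_pow.2 (show 1 < 2 by norm_num))
    refine h2.congr fun m => ?_
    push_cast
    rfl
  refine (h1.mul_left (2 * a ^ 2 / Real.pi ^ 2)).congr fun m => ?_
  unfold mu
  have := Real.pi_pos
  field_simp

theorem du_mul (l c : ℝ) (F : ℝ → ℝ) (t : ℝ) :
    du l (fun s => c * F s) t = c * du l F t := by
  unfold du
  rw [← intervalIntegral.integral_const_mul]
  congr 1
  funext s
  ring

theorem tStepCoef (h1 : DuFacts) (h2 : Mink) : StepCoef := by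
  intro a τ ha hτ
  have hsum := summ ha
  have hmu : ∀ m, 0 < mu a m ^ 2 := fun m => pow_pos (mu_pos ha m) 2
  have hc0 : ∀ m, 0 ≤ 1 / (2 * mu a m ^ 2) := fun m => by
    have := hmu m
    positivity
  refine ⟨√(∑' m : ℕ, 1 / (2 * mu a m ^ 2)) * √τ, by positivity, ?_⟩
  intro F n B hB hF hbd
  set G : ℕ → ℝ → ℝ := fun m t => mu a m ^ 2 * F m t with hG
  have hGc : ∀ m, ContinuousOn (G m) (Icc 0 τ) := fun m => continuousOn_const.mul (hF m)
  have hG2 : ∀ m, IntervalIntegrable (fun x => G m x ^ 2) volume 0 τ := by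
    intro m
    apply ContinuousOn.intervalIntegrable
    rw [uIcc_of_le hτ.le]
    exact (hGc m).pow 2
  have hdu : ∀ m t, mu a m ^ 2 * du (mu a m ^ 2) (F m) t = du (mu a m ^ 2) (G m) t :=
    fun m t => (du_mul _ _ _ _).symm
  have hJ0 : ∀ m, 0 ≤ ∫ s in (0 : ℝ)..τ, G m s ^ 2 := fun m =>
    intervalIntegral.integral_nonneg hτ.le fun s _ => sq_nonneg _
  have hJs : ∀ s : Finset ℕ, ∑ m ∈ s, ∫ x in (0 : ℝ)..τ, G m x ^ 2 ≤ τ * (B * τ ^ n) ^ 2 := by
    intro s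
    rw [← intervalIntegral.integral_finsetSum (fun m _ => hG2 m)]
    calc ∫ x in (0 : ℝ)..τ, ∑ m ∈ s, G m x ^ 2 ≤ ∫ _x in (0 : ℝ)..τ, (B * τ ^ n) ^ 2 := by
          apply intervalIntegral.integral_mono_on hτ.le
          · apply ContinuousOn.intervalIntegrable
            rw [uIcc_of_le hτ.le]
            exact continuousOn_finsetSum _ fun m _ => (hGc m).pow 2
          · exact intervalIntegrable_const
          · intro x hx
            refine (hbd x hx s).trans ?_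
            have hx0 := hx.1
            have h3 : x ^ n ≤ τ ^ n := pow_le_pow_left₀ hx.1 hx.2 n
            have h4 : B * x ^ n ≤ B * τ ^ n := mul_le_mul_of_nonneg_left h3 hB
            exact pow_le_pow_left₀ (by positivity) h4 2
      _ = τ * (B * τ ^ n) ^ 2 := by
          rw [intervalIntegral.integral_const, smul_eq_mul, sub_zero]
  have hkey : ∀ s : Finset ℕ, ∑ m ∈ s, √(1 / (2 * mu a m ^ 2)) * √(∫ x in (0 : ℝ)..τ, G m x ^ 2) ≤
      √(∑' m : ℕ, 1 / (2 * mu a m ^ 2)) * √τ * (B * τ ^ n) := by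
    intro s
    have h3 := Real.sum_sqrt_mul_sqrt_le s hc0 hJ0
    have h4 : √(∑ m ∈ s, 1 / (2 * mu a m ^ 2)) ≤ √(∑' m : ℕ, 1 / (2 * mu a m ^ 2)) :=
      Real.sqrt_le_sqrt (hsum.sum_le_tsum s fun m _ => hc0 m)
    have h5 : √(∑ m ∈ s, ∫ x in (0 : ℝ)..τ, G m x ^ 2) ≤ √τ * (B * τ ^ n) := by
      refine (Real.sqrt_le_sqrt (hJs s)).trans (le_of_eq ?_)
      rw [Real.sqrt_mul hτ.le, Real.sqrt_sq (by positivity)]
    calc _ ≤ _ := h3
      _ ≤ √(∑' m : ℕ, 1 / (2 * mu a m ^ 2)) * (√τ * (B * τ ^ n)) :=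
        mul_le_mul h4 h5 (Real.sqrt_nonneg _) (Real.sqrt_nonneg _)
      _ = _ := by ring
  have hβ : Summable fun m => √(1 / (2 * mu a m ^ 2)) * √(∫ x in (0 : ℝ)..τ, G m x ^ 2) :=
    summable_of_sum_le (fun m => by positivity) hkey
  refine ⟨⟨fun m => √(1 / (2 * mu a m ^ 2)) * √(∫ x in (0 : ℝ)..τ, G m x ^ 2), hβ,
    hβ.tsum_le_of_sum_le hkey, ?_⟩, ?_⟩
  · intro m t ht
    rw [hdu]
    change _ ≤ √(1 / (2 * mu a m ^ 2)) * √(∫ x in (0 : ℝ)..τ, G m x ^ 2)
    rw [← Real.sqrt_mul (hc0 m)]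
    have h3 := (h1 (mu a m ^ 2) τ (hmu m) hτ (G m) (hGc m)).2.2.2 t ht
    exact Real.abs_le_sqrt h3
  · intro t ht s
    refine le_trans ?_ (h2 τ B n G hτ hB hGc hbd t ht s)
    apply Finset.sum_le_sum
    intro m _
    rw [hdu]
    have h3 := (h1 (mu a m ^ 2) τ (hmu m) hτ (G m) (hGc m)).2.2.1 t ht
    rw [← sq_abs]
    exact pow_le_pow_left₀ (abs_nonneg _) h3 2

end Pool.Agent.H309.DF.LStepCoef
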