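import Pool.Agent.H309.DF.Stm
import Mathlib

/-!
# Project DF (helper309), task L16 (helper385): continuity of the sum
-/

set_option autoImplicit false

open Set Filter Topology

namespace Pool.Agent.H309.DF.LSumCont

namespace SumContAux

theorem major {D K C ε : ℝ} (hK : 0 < K) (hε : 0 < ε) (hKε : K * ε ≤ 1 / 2) (i : ℕ) :
    Summable fun j : ℕ => D * K ^ j / (j.factorial : ℝ) *
      (C * ((j + i).factorial : ℝ) * ε ^ (j + i)) := by
  have h1 : ‖K * ε‖ < 1 := by
    rw [Real.norm_of_nonneg (mul_pos hK hε).le]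
    linarith
  have h2 := (summable_descFactorial_mul_geometric_of_norm_lt_one i h1).mul_left (D * C * ε ^ i)
  refine h2.congr fun j => ?_
  have h3 : ((j + i).factorial : ℝ) = (j.factorial : ℝ) * ((j + i).descFactorial i : ℝ) := by
    have h4 := Nat.factorial_mul_descFactorial (Nat.le_add_left i j)
    rw [Nat.add_sub_cancel] at h4
    rw [← h4, Nat.cast_mul]
  have h5 : (j.factorial : ℝ) ≠ 0 := Nat.cast_ne_zero.2 (Nat.factorial_ne_zero j)
  rw [h3, mul_pow, pow_add]
  field_simp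

theorem bd {D K C ε p r : ℝ} (hD : 0 ≤ D) (hK : 0 < K) (i j : ℕ)
    (hp : |p| ≤ D * K ^ j / (j.factorial : ℝ))
    (hr : |r| ≤ C * ((j + i).factorial : ℝ) * ε ^ (j + i)) :
    ‖p * r‖ ≤ D * K ^ j / (j.factorial : ℝ) * (C * ((j + i).factorial : ℝ) * ε ^ (j + i)) := by
  rw [Real.norm_eq_abs, abs_mul]
  exact mul_le_mul hp hr (abs_nonneg r)
    (div_nonneg (mul_nonneg hD (pow_nonneg hK.le j)) (Nat.cast_nonneg _))

end SumContAux

open SumContAux in
/-- **L16.** -/
theorem tSumCont : Pool.Agent.H309.DF.SumCont := by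
  intro α β a b D K C ε hD hK hC hε hKε P R i hP hR hPb hRb
  have hu := major (D := D) (C := C) hK hε hKε i
  constructor
  · refine continuousOn_tsum (fun j => ?_) hu fun j x hx => ?_
    · have h1 : ContinuousOn (fun x : ℝ × ℝ × ℝ => P j x.1 x.2.1)
          (Icc α β ×ˢ (Icc (-a) a ×ˢ Icc (-b) b)) :=
        (hP j).comp (f := fun x : ℝ × ℝ × ℝ => (x.1, x.2.1)) (by fun_prop)
          fun x hx => ⟨hx.1, hx.2.1⟩
      have h2 : ContinuousOn (fun x : ℝ × ℝ × ℝ => R (j + i) x.1 x.2.2)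
          (Icc α β ×ˢ (Icc (-a) a ×ˢ Icc (-b) b)) :=
        (hR (j + i)).comp (f := fun x : ℝ × ℝ × ℝ => (x.1, x.2.2)) (by fun_prop)
          fun x hx => ⟨hx.1, hx.2.2⟩
      exact h1.mul h2
    · exact bd hD hK i j (hPb j _ hx.1 _ hx.2.1) (hRb (j + i) _ hx.1 _ hx.2.2)
  · intro t ht y hy z hz
    exact Summable.of_norm_bounded hu fun j =>
      bd hD hK i j (hPb j t ht y hy) (hRb (j + i) t ht z hz)

end Pool.Agent.H309.DF.LSumCont
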