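import Pool.Agent.H309.DF.Stm

/-!
# DF17 SumDer: termwise derivatives of a sum of products with factorial bounds
-/

set_option autoImplicit false

open Set Filter Topology MeasureTheory

namespace Pool.Agent.H309.DF.LSumDer

open Pool.Agent.H309.DF

/-- the majorant -/
noncomputable def ma (D K C ε : ℝ) (i j : ℕ) : ℝ :=
  D * K ^ j / (j.factorial : ℝ) * (C * ((j + i).factorial : ℝ) * ε ^ (j + i))

theorem ma_summable {D K C ε : ℝ} (hK : 0 < K) (hε : 0 < ε) (h : K * ε ≤ 1 / 2) (i : ℕ) :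
    Summable (ma D K C ε i) := by
  have h1 : ‖K * ε‖ < 1 := by
    rw [Real.norm_eq_abs, abs_of_pos (mul_pos hK hε)]
    linarith
  have h2 := (summable_choose_mul_geometric_of_norm_lt_one (R := ℝ) i h1).mul_left
    (D * C * ε ^ i * (i.factorial : ℝ))
  refine h2.congr fun j => ?_
  have h3 : ((j + i).choose i : ℝ) * (j.factorial : ℝ) * (i.factorial : ℝ) =
      ((j + i).factorial : ℝ) := by
    exact_mod_cast Nat.add_choose_mul_factorial_mul_factorial j i
  unfold ma
  rw [← h3, pow_add, mul_pow]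
  have h4 : (j.factorial : ℝ) ≠ 0 := by positivity
  field_simp

theorem ma_bound {D K C ε : ℝ} {i j : ℕ} {p r : ℝ} (hp : |p| ≤ D * K ^ j / (j.factorial : ℝ))
    (hr : |r| ≤ C * ((j + i).factorial : ℝ) * ε ^ (j + i)) : ‖p * r‖ ≤ ma D K C ε i j := by
  rw [norm_mul]
  exact mul_le_mul hp hr (norm_nonneg _) ((abs_nonneg _).trans hp)

theorem tSumDer : Pool.Agent.H309.DF.SumDer := by
  intro α β a b C ε ha hb hC hε V W Q Qt Qy Qyy R D K hKε hQ hR hRt hRz
  have hs := fun i => ma_summable (D := D) (C := C) hQ.K0 hε hKε i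
  have hR' : ∀ i j, ∀ t ∈ Icc α β, ∀ z ∈ Icc (-b) b,
      |R (j + i) t z| ≤ C * ((j + i).factorial : ℝ) * ε ^ (j + i) :=
    fun i j t ht z hz => hR (j + i) t ht z hz
  have sum_of : ∀ (i : ℕ) (p : ℕ → ℝ) (t z : ℝ), t ∈ Icc α β → z ∈ Icc (-b) b →
      (∀ j, |p j| ≤ D * K ^ j / (j.factorial : ℝ)) → Summable fun j => p j * R (j + i) t z :=
    fun i p t z ht hz hp => Summable.of_norm_bounded (hs i)
      fun j => ma_bound (hp j) (hR' i j t ht z hz)
  refine ⟨?_, ?_, ?_, ?_, ?_⟩
  · intro t ht y hy z hz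
    have h0 : Summable fun j => Qt j t y * R j t z :=
      sum_of 0 (fun j => Qt j t y) t z (Ioo_subset_Icc_self ht) hz
      fun j => (hQ.bd j t (Ioo_subset_Icc_self ht) y hy).2.1
    have h2 := sum_of 2 (fun j => Q j t y) t z (Ioo_subset_Icc_self ht) hz
      fun j => (hQ.bd j t (Ioo_subset_Icc_self ht) y hy).1
    have h3 := sum_of 0 (fun j => Q j t y) t z (Ioo_subset_Icc_self ht) hz
      fun j => (hQ.bd j t (Ioo_subset_Icc_self ht) y hy).1
    rw [← Summable.tsum_add h0 h2]
    refine hasDerivAt_tsum_of_isPreconnected (t := Ioo α β) (y₀ := t)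
      (g := fun j s => Q j s y * R j s z)
      (g' := fun j s => Qt j s y * R j s z + Q j s y * R (j + 2) s z)
      (u := fun j => ma D K C ε 0 j + ma D K C ε 2 j) ((hs 0).add (hs 2)) isOpen_Ioo
      isPreconnected_Ioo ?_ ?_ ht h3 ht
    · intro j s hs'
      exact ((hQ.cl j).dt s hs' y hy).mul (hRt j s (Ioo_subset_Icc_self hs') z hz)
    · intro j s hs'
      have hs2 := Ioo_subset_Icc_self hs'
      refine (norm_add_le _ _).trans (add_le_add ?_ ?_)
      · exact ma_bound (hQ.bd j s hs2 y hy).2.1 (hR' 0 j s hs2 z hz)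
      · exact ma_bound (hQ.bd j s hs2 y hy).1 (hR' 2 j s hs2 z hz)
  · intro t ht y hy z hz
    have h3 := sum_of 0 (fun j => Q j t y) t z ht hz
      fun j => (hQ.bd j t ht y (Ioo_subset_Icc_self hy)).1
    refine hasDerivAt_tsum_of_isPreconnected (t := Ioo (-a) a) (y₀ := y)
      (g := fun j s => Q j t s * R j t z) (g' := fun j s => Qy j t s * R j t z)
      (u := ma D K C ε 0) (hs 0) isOpen_Ioo isPreconnected_Ioo ?_ ?_ hy h3 hy
    · intro j s hs'
      exact ((hQ.cl j).dy t ht s hs').mul_const _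
    · intro j s hs'
      exact ma_bound (hQ.bd j t ht s (Ioo_subset_Icc_self hs')).2.2.1 (hR' 0 j t ht z hz)
  · intro t ht y hy z hz
    have h3 := sum_of 0 (fun j => Qy j t y) t z ht hz
      fun j => (hQ.bd j t ht y (Ioo_subset_Icc_self hy)).2.2.1
    refine hasDerivAt_tsum_of_isPreconnected (t := Ioo (-a) a) (y₀ := y)
      (g := fun j s => Qy j t s * R j t z) (g' := fun j s => Qyy j t s * R j t z)
      (u := ma D K C ε 0) (hs 0) isOpen_Ioo isPreconnected_Ioo ?_ ?_ hy h3 hy
    · intro j s hs'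
      exact ((hQ.cl j).dyy t ht s hs').mul_const _
    · intro j s hs'
      exact ma_bound (hQ.bd j t ht s (Ioo_subset_Icc_self hs')).2.2.2 (hR' 0 j t ht z hz)
  · intro t ht y hy z hz
    have h3 := sum_of 0 (fun j => Q j t y) t z ht (Ioo_subset_Icc_self hz)
      fun j => (hQ.bd j t ht y hy).1
    refine hasDerivAt_tsum_of_isPreconnected (t := Ioo (-b) b) (y₀ := z)
      (g := fun j s => Q j t y * R j t s) (g' := fun j s => Q j t y * R (j + 1) t s)
      (u := ma D K C ε 1) (hs 1) isOpen_Ioo isPreconnected_Ioo ?_ ?_ hz h3 hz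
    · intro j s hs'
      exact (hRz j t ht s (Ioo_subset_Icc_self hs')).const_mul _
    · intro j s hs'
      exact ma_bound (hQ.bd j t ht y hy).1 (hR' 1 j t ht s (Ioo_subset_Icc_self hs'))
  · intro t ht y hy z hz
    have h3 := sum_of 1 (fun j => Q j t y) t z ht (Ioo_subset_Icc_self hz)
      fun j => (hQ.bd j t ht y hy).1
    refine hasDerivAt_tsum_of_isPreconnected (t := Ioo (-b) b) (y₀ := z)
      (g := fun j s => Q j t y * R (j + 1) t s) (g' := fun j s => Q j t y * R (j + 2) t s)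
      (u := ma D K C ε 2) (hs 2) isOpen_Ioo isPreconnected_Ioo ?_ ?_ hz h3 hz
    · intro j s hs'
      exact (hRz (j + 1) t ht s (Ioo_subset_Icc_self hs')).const_mul _
    · intro j s hs'
      exact ma_bound (hQ.bd j t ht y hy).1 (hR' 2 j t ht s (Ioo_subset_Icc_self hs'))

end Pool.Agent.H309.DF.LSumDer
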