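import Pool.Agent.H309.DF.Stm

/-!
# Project DF of helper309: `SupB` (helper981)
-/

set_option autoImplicit false

open Set Filter Topology MeasureTheory

namespace Pool.Agent.H309.DF.LSupB

theorem mv {a C : ℝ} {f f' : ℝ → ℝ} (hc : ContinuousOn f (Icc (-a) a))
    (hd : ∀ y ∈ Ioo (-a) a, HasDerivAt f (f' y) y) (hb : ∀ y ∈ Icc (-a) a, |f' y| ≤ C)
    {x y : ℝ} (hx : x ∈ Icc (-a) a) (hy : y ∈ Icc (-a) a) (hxy : x < y) :
    |f y - f x| ≤ C * (y - x) := by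
  obtain ⟨c, hc', hc''⟩ := exists_hasDerivAt_eq_slope f f' hxy
    (hc.mono (Icc_subset_Icc hx.1 hy.2))
    (fun z hz => hd z ⟨lt_of_le_of_lt hx.1 hz.1, lt_of_lt_of_le hz.2 hy.2⟩)
  have h1 : 0 < y - x := by linarith
  have h2 : f y - f x = f' c * (y - x) := by
    rw [hc'']
    field_simp
  rw [h2, abs_mul, abs_of_pos h1]
  exact mul_le_mul_of_nonneg_right
    (hb c ⟨hx.1.trans hc'.1.le, hc'.2.le.trans hy.2⟩) h1.le

theorem mv2 {a C : ℝ} {f f' : ℝ → ℝ} (hc : ContinuousOn f (Icc (-a) a))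
    (hd : ∀ y ∈ Ioo (-a) a, HasDerivAt f (f' y) y) (hb : ∀ y ∈ Icc (-a) a, |f' y| ≤ C)
    {x y : ℝ} (hx : x ∈ Icc (-a) a) (hy : y ∈ Icc (-a) a) :
    |f y - f x| ≤ C * (2 * a) := by
  have hC : 0 ≤ C := (abs_nonneg _).trans (hb x hx)
  rcases lt_trichotomy x y with h | h | h
  · refine (mv hc hd hb hx hy h).trans (mul_le_mul_of_nonneg_left ?_ hC)
    linarith [hx.1, hy.2]
  · rw [h, sub_self, abs_zero]
    have : 0 ≤ 2 * a := by linarith [hx.1, hx.2]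
    positivity
  · rw [abs_sub_comm]
    refine (mv hc hd hb hy hx h).trans (mul_le_mul_of_nonneg_left ?_ hC)
    linarith [hx.2, hy.1]

theorem tSupB : Pool.Agent.H309.DF.SupB := by
  intro a B ha g gy gyy hg hgy hgyy hd hdd h1 h2 hB y hy
  obtain ⟨y₀, hy₀, hy₀'⟩ := exists_hasDerivAt_eq_zero (f := g) (f' := gy) (by linarith : -a < a)
    hg (by rw [h1, h2]) hd
  have hy₀c : y₀ ∈ Icc (-a) a := Ioo_subset_Icc_self hy₀
  have e1 : ∀ z ∈ Icc (-a) a, |gy z| ≤ 2 * a * B := by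
    intro z hz
    have := mv2 hgy hdd hB hy₀c hz
    rw [hy₀', sub_zero] at this
    linarith
  refine ⟨e1 y hy, ?_⟩
  have hm : -a ∈ Icc (-a) a := ⟨le_rfl, by linarith⟩
  have := mv2 hg hd e1 hm hy
  rw [h2, sub_zero] at this
  nlinarith

end Pool.Agent.H309.DF.LSupB
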