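import Pool.Agent.H309.DF.MainB
import Pool.Agent.H309.DF.CoSecond
import Pool.Agent.H309.DF.CoExpand
import Pool.Agent.H309.DF.CoBessel
import Pool.Agent.H309.DF.SqSeries
import Pool.Agent.H309.DF.CoCont
import Pool.Agent.H309.DF.DuFacts
import Pool.Agent.H309.DF.Mink
import Pool.Agent.H309.DF.StepCoef
import Pool.Agent.H309.DF.SeriesCl
import Pool.Agent.H309.DF.Step
import Pool.Agent.H309.DF.SupB
import Pool.Agent.H309.DF.ProdS
import Pool.Agent.H309.DF.Iter
import Pool.Agent.H309.DF.Fam
import Pool.Agent.H309.DF.SwitchFam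
import Pool.Agent.H309.DF.SumCont
import Pool.Agent.H309.DF.SumDer
import Pool.Agent.H309.DF.DriftEx
import Pool.Agent.H309.DF.BoxInt
import Pool.Agent.H309.DF.InitS
import Pool.Agent.H309.DF.LimAdd
import Pool.Agent.H309.DF.EnergyS

/-!
# All shear flows between two plates are brought to rest
-/

set_option autoImplicit false

namespace Pool.Agent.H309.DF

theorem fam_holds : Fam :=
  LFam.tFam (LIter.tIter
    (LStep.tStep LCoSecond.tCoSecond LCoExpand.tCoExpand LCoBessel.tCoBessel LSqSeries.tSqSeries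
      LCoCont.tCoCont LDuFacts.tDuFacts (LStepCoef.tStepCoef LDuFacts.tDuFacts LMink.tMink)
      LSeriesCl.tSeriesCl) LProdS.tProdS LSupB.tSupB)

theorem drift_holds : DriftEx :=
  LDriftEx.tDriftEx fam_holds LSwitchFam.tSwitchFam LSumCont.tSumCont LSumDer.tSumDer

theorem all_shear : Main :=
  main drift_holds (LInitS.tInitS LBoxInt.tBoxInt) LLimAdd.tLimAdd
    (LEnergyS.tEnergyS LBoxInt.tBoxInt)

end Pool.Agent.H309.DF
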