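import Pool.Agent.H309.DF.Stm

/-!
# The flow: assembly
-/

set_option autoImplicit false

open Set Filter Topology MeasureTheory
open scoped ENNReal

namespace Pool.Agent.H309.DF

open Pool.Agent.Q61.NC

theorem tcont {Y : ℝ} {V Vt : ℝ → ℝ → ℝ}
    (hs : ContDiffOn ℝ ((⊤ : ℕ∞) : WithTop ℕ∞) (fun q : ℝ × ℝ => V q.1 q.2) (Dom Y))
    (hd : ∀ t y, 0 < t → |y| < Y → HasDerivAt (fun s => V s y) (Vt t y) t) :
    ContinuousOn (fun q : ℝ × ℝ => Vt q.1 q.2) (Dom Y) := by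
  have h1 := hs.continuousOn_fderiv_of_isOpen (isOpen_Dom Y) (by simp)
  have h2 : ContinuousOn (fun q : ℝ × ℝ => fderiv ℝ (fun q : ℝ × ℝ => V q.1 q.2) q (1, 0))
      (Dom Y) := h1.clm_apply continuousOn_const
  refine h2.congr fun q hq => ?_
  have h3 : DifferentiableAt ℝ (fun q : ℝ × ℝ => V q.1 q.2) q :=
    (hs.differentiableOn (by simp)).differentiableAt ((isOpen_Dom Y).mem_nhds hq)
  have h4 : HasDerivAt (fun s : ℝ => ((s, q.2) : ℝ × ℝ)) ((1, 0) : ℝ × ℝ) q.1 :=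
    (hasDerivAt_id _).prodMk (hasDerivAt_const _ _)
  have h3' : HasFDerivAt (fun q : ℝ × ℝ => V q.1 q.2)
      (fderiv ℝ (fun q : ℝ × ℝ => V q.1 q.2) q) ((q.1, q.2) : ℝ × ℝ) := h3.hasFDerivAt
  have h5 := HasFDerivAt.comp_hasDerivAt q.1 h3' h4
  exact (hd q.1 q.2 hq.1 hq.2).unique h5

theorem vec_eq (p q : ℝ) : vec p q =
    p • (EuclideanSpace.single 0 1 : Sp 3) + q • (EuclideanSpace.single 2 1 : Sp 3) := by
  ext m
  fin_cases m <;> simp [vec]

theorem vec0 (p q : ℝ) : vec p q 0 = p := rfl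
theorem vec1 (p q : ℝ) : vec p q 1 = 0 := rfl
theorem vec2 (p q : ℝ) : vec p q 2 = q := rfl

theorem vec_hasDeriv {p q : ℝ → ℝ} {p' q' t : ℝ} (hp : HasDerivAt p p' t)
    (hq : HasDerivAt q q' t) : HasDerivAt (fun s => vec (p s) (q s)) (vec p' q') t := by
  have h := (hp.smul_const (EuclideanSpace.single 0 1 : Sp 3)).add
    (hq.smul_const (EuclideanSpace.single 2 1 : Sp 3))
  rw [vec_eq]
  refine h.congr_of_eventuallyEq (Eventually.of_forall fun s => ?_)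
  simp only [vec_eq, Pi.add_apply]

theorem vec_cont {X : Type*} [TopologicalSpace X] {s : Set X} {p q : X → ℝ}
    (hp : ContinuousOn p s) (hq : ContinuousOn q s) : ContinuousOn (fun x => vec (p x) (q x)) s := by
  simp only [vec_eq]
  exact (hp.smul continuousOn_const).add (hq.smul continuousOn_const)

/-- Continuity in the box of a field `(p (t, y, z), 0, s (t, y, x))`. -/
theorem cont_field {a b : ℝ} {p s : ℝ → ℝ → ℝ → ℝ}
    (hp : ContinuousOn (fun x : ℝ × ℝ × ℝ => p x.1 x.2.1 x.2.2)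
      (Ioi 0 ×ˢ (Icc (-a) a ×ˢ Icc (-b) b)))
    (hs : ContinuousOn (fun x : ℝ × ℝ × ℝ => s x.1 x.2.1 x.2.2)
      (Ioi 0 ×ˢ (Icc (-a) a ×ˢ Icc (-b) b))) :
    ContinuousOn (fun z : ℝ × Sp 3 => vec (p z.1 (z.2 1) (z.2 2)) (s z.1 (z.2 1) (z.2 0)))
      (Ioi 0 ×ˢ box a b) := by
  have hc : ∀ i : Fin 3, Continuous fun x : Sp 3 => x i := fun i =>
    (EuclideanSpace.proj i : Sp 3 →L[ℝ] ℝ).continuous
  refine vec_cont ?_ ?_
  · have h1 : Continuous fun z : ℝ × Sp 3 => ((z.1, z.2 1, z.2 2) : ℝ × ℝ × ℝ) :=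
      continuous_fst.prodMk (((hc 1).comp continuous_snd).prodMk ((hc 2).comp continuous_snd))
    exact hp.comp (t := Ioi 0 ×ˢ (Icc (-a) a ×ˢ Icc (-b) b)) h1.continuousOn
      fun z hz => ⟨hz.1, abs_le.1 hz.2.1, abs_le.1 hz.2.2.2⟩
  · have h1 : Continuous fun z : ℝ × Sp 3 => ((z.1, z.2 1, z.2 0) : ℝ × ℝ × ℝ) :=
      continuous_fst.prodMk (((hc 1).comp continuous_snd).prodMk ((hc 0).comp continuous_snd))
    exact hs.comp (t := Ioi 0 ×ˢ (Icc (-a) a ×ˢ Icc (-b) b)) h1.continuousOn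
      fun z hz => ⟨hz.1, abs_le.1 hz.2.1, abs_le.1 hz.2.2.1⟩

theorem line0 {p s : ℝ → ℝ → ℝ} {x : Sp 3} {s' : ℝ}
    (h : HasDerivAt (fun r => s (x 1) r) s' (x 0)) :
    HasLineDerivAt ℝ (fun x : Sp 3 => vec (p (x 1) (x 2)) (s (x 1) (x 0))) (vec 0 s') x
      (EuclideanSpace.single 0 1) := by
  have h' : HasDerivAt (fun r => s (x 1) r) s' (x 0 + 0) := by rwa [add_zero]
  have h1 := vec_hasDeriv (hasDerivAt_const (0 : ℝ) (p (x 1) (x 2))) (h'.comp_const_add (x 0) 0)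
  refine h1.congr_of_eventuallyEq (Eventually.of_forall fun r => ?_)
  simp

theorem line1 {p s : ℝ → ℝ → ℝ} {x : Sp 3} {p' s' : ℝ}
    (h : HasDerivAt (fun r => p r (x 2)) p' (x 1)) (k : HasDerivAt (fun r => s r (x 0)) s' (x 1)) :
    HasLineDerivAt ℝ (fun x : Sp 3 => vec (p (x 1) (x 2)) (s (x 1) (x 0))) (vec p' s') x
      (EuclideanSpace.single 1 1) := by
  have h' : HasDerivAt (fun r => p r (x 2)) p' (x 1 + 0) := by rwa [add_zero]
  have k' : HasDerivAt (fun r => s r (x 0)) s' (x 1 + 0) := by rwa [add_zero]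
  have h1 := vec_hasDeriv (h'.comp_const_add (x 1) 0) (k'.comp_const_add (x 1) 0)
  refine h1.congr_of_eventuallyEq (Eventually.of_forall fun r => ?_)
  simp

theorem line2 {p s : ℝ → ℝ → ℝ} {x : Sp 3} {p' : ℝ}
    (h : HasDerivAt (fun r => p (x 1) r) p' (x 2)) :
    HasLineDerivAt ℝ (fun x : Sp 3 => vec (p (x 1) (x 2)) (s (x 1) (x 0))) (vec p' 0) x
      (EuclideanSpace.single 2 1) := by
  have h' : HasDerivAt (fun r => p (x 1) r) p' (x 2 + 0) := by rwa [add_zero]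
  have h1 := vec_hasDeriv (h'.comp_const_add (x 2) 0) (hasDerivAt_const (0 : ℝ) (s (x 1) (x 0)))
  refine h1.congr_of_eventuallyEq (Eventually.of_forall fun r => ?_)
  simp

end Pool.Agent.H309.DF
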