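import Pool.Agent.H309.DF.MainA

/-!
# The flow: assembly, main theorem
-/

set_option autoImplicit false

open Set Filter Topology MeasureTheory
open scoped ENNReal

namespace Pool.Agent.H309.DF

open Pool.Agent.Q61.NC

theorem box_meas (a b : ℝ) : MeasurableSet (box a b) := by
  have hc : ∀ i : Fin 3, Continuous fun x : Sp 3 => x i := fun i =>
    (EuclideanSpace.proj i : Sp 3 →L[ℝ] ℝ).continuous
  have h : IsClosed (box a b) :=
    (isClosed_le (hc 1).abs continuous_const).inter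
      ((isClosed_le (hc 0).abs continuous_const).inter (isClosed_le (hc 2).abs continuous_const))
  exact h.measurableSet

theorem main (h1 : DriftEx) (h2 : InitS) (h3 : LimAdd) (h4 : EnergyS) : Main := by
  intro a b T ha hb hT U₀ h0 hU
  have hT2 : 0 < T / 2 := by linarith
  have hT4 : 0 < T / 4 := by linarith
  have e24 : T / 2 / 2 = T / 4 := by ring
  -- the components
  have hUk : ∀ m, MemLp (fun y => U₀ y m) 2 (volume.restrict (Icc (-a) a)) := fun m =>
    (EuclideanSpace.proj m : Sp 3 →L[ℝ] ℝ).comp_memLp' hU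
  have hneg : MeasurePreserving (fun y : ℝ => -y) (volume.restrict (Icc (-a) a))
      (volume.restrict (Icc (-a) a)) := by
    have h1 := (Measure.measurePreserving_neg (volume : Measure ℝ)).restrict_preimage
      (s := Icc (-a) a) measurableSet_Icc
    have h2 : (Neg.neg : ℝ → ℝ) ⁻¹' Icc (-a) a = Icc (-a) a := by
      ext y
      simp only [mem_preimage, mem_Icc]
      constructor
      · rintro ⟨h3, h4⟩
        constructor <;> linarith
      · rintro ⟨h3, h4⟩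
        constructor <;> linarith
    rw [h2] at h1
    exact h1
  have hfm : ∀ m, MemLp (fun y => (U₀ y m + U₀ (-y) m) / 2) 2
      (volume.restrict (Icc (-a) a)) := by
    intro m
    have h1 := ((hUk m).add ((hUk m).comp_measurePreserving hneg)).const_mul (1 / 2)
    refine (memLp_congr_ae (Eventually.of_forall fun y => ?_)).1 h1
    show 1 / 2 * (U₀ y m + U₀ (-y) m) = (U₀ y m + U₀ (-y) m) / 2
    ring
  have hev : ∀ m, ∀ y ∈ Icc (-a) a, (U₀ (-y) m + U₀ (- -y) m) / 2 = (U₀ y m + U₀ (-y) m) / 2 := by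
    intro m y _
    rw [neg_neg]
    ring
  obtain ⟨X, Xt, Xy, Xyy, g, hX, hXa, hXa', -⟩ := flowA ha hT4 (hfm 0) (hev 0)
  obtain ⟨Z, Zt, Zy, Zyy, k, hZ, hZa, hZa', -⟩ := flowA ha hT4 (hfm 2) (hev 2)
  obtain ⟨Vo, Vot, Voy, hV⟩ := flowO ha (hUk 0)
  obtain ⟨W, Wt, Wy, hW⟩ := flowO ha (hUk 2)
  obtain ⟨A, At, Ay, Ayy, Az, Azz, hA⟩ := h1 a b (T / 2) ha hb hT2 _ _ Vo Vot Voy W Wt Wy hV hW
  obtain ⟨v, vt, vz, hv⟩ := switch (Y := 2 * b) (by positivity) hT
  have hXt : ContinuousOn (fun q : ℝ × ℝ => Xt q.1 q.2) (Dom (2 * a)) := tcont hX.smooth hX.dt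
  have hZt : ContinuousOn (fun q : ℝ × ℝ => Zt q.1 q.2) (Dom (2 * a)) := tcont hZ.smooth hZ.dt
  have hWt : ContinuousOn (fun q : ℝ × ℝ => Wt q.1 q.2) (Dom (2 * a)) := tcont hW.smooth hW.dt
  have hvt : ContinuousOn (fun q : ℝ × ℝ => vt q.1 q.2) (Dom (2 * b)) := tcont hv.smooth hv.dt
  have ya : ∀ {y : ℝ}, y ∈ Icc (-a) a → |y| < 2 * a := fun hy =>
    (abs_le.2 hy).trans_lt (by linarith)
  have zb : ∀ {y : ℝ}, y ∈ Icc (-b) b → |y| < 2 * b := fun hy =>
    (abs_le.2 hy).trans_lt (by linarith)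
  -- pull back of continuity
  have pa : ∀ {F : ℝ → ℝ → ℝ}, ContinuousOn (fun q : ℝ × ℝ => F q.1 q.2) (Dom (2 * a)) →
      ContinuousOn (fun x : ℝ × ℝ × ℝ => F x.1 x.2.1) (Ioi 0 ×ˢ (Icc (-a) a ×ˢ Icc (-b) b)) := by
    intro F hF
    have h1 : Continuous fun z : ℝ × ℝ × ℝ => ((z.1, z.2.1) : ℝ × ℝ) := by fun_prop
    exact hF.comp (t := Dom (2 * a)) h1.continuousOn fun z hz => ⟨hz.1, ya hz.2.1⟩
  have pb : ∀ {F : ℝ → ℝ → ℝ}, ContinuousOn (fun q : ℝ × ℝ => F q.1 q.2) (Dom (2 * b)) →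
      ContinuousOn (fun x : ℝ × ℝ × ℝ => F x.1 x.2.2) (Ioi 0 ×ˢ (Icc (-a) a ×ˢ Icc (-b) b)) := by
    intro F hF
    have h1 : Continuous fun z : ℝ × ℝ × ℝ => ((z.1, z.2.2) : ℝ × ℝ) := by fun_prop
    exact hF.comp (t := Dom (2 * b)) h1.continuousOn fun z hz => ⟨hz.1, zb hz.2.2⟩
  have pg : ∀ {F : ℝ → ℝ}, ContDiffOn ℝ ((⊤ : ℕ∞) : WithTop ℕ∞) F (Ioi 0) →
      ContinuousOn (fun x : ℝ × ℝ × ℝ => F x.1) (Ioi 0 ×ˢ (Icc (-a) a ×ˢ Icc (-b) b)) := by
    intro F hF
    exact hF.continuousOn.comp (t := Ioi 0) continuous_fst.continuousOn fun z hz => hz.1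
  have cX := pa hX.smooth.continuousOn
  have cXt := pa hXt
  have cXy := pa hX.ycont
  have cZ := pa hZ.smooth.continuousOn
  have cZt := pa hZt
  have cZy := pa hZ.ycont
  have cW := pa hW.smooth.continuousOn
  have cWt := pa hWt
  have cWy := pa hW.ycont
  have cv := pb hv.smooth.continuousOn
  have cvt := pb hvt
  have cvz := pb hv.zcont
  have cg := pg hX.gsmooth
  have ck := pg hZ.gsmooth
  have cXyy : ContinuousOn (fun x : ℝ × ℝ × ℝ => Xyy x.1 x.2.1)
      (Ioi 0 ×ˢ (Icc (-a) a ×ˢ Icc (-b) b)) :=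
    (cXt.add cg).congr fun x _ => hX.heat _ _
  have cZyy : ContinuousOn (fun x : ℝ × ℝ × ℝ => Zyy x.1 x.2.1)
      (Ioi 0 ×ˢ (Icc (-a) a ×ˢ Icc (-b) b)) :=
    (cZt.add ck).congr fun x _ => hZ.heat _ _
  -- the scalar fields
  set P : ℝ → ℝ → ℝ → ℝ := fun t y z => X t y + A t y z with hP
  set Pt : ℝ → ℝ → ℝ → ℝ := fun t y z => Xt t y + At t y z with hPt
  set Py : ℝ → ℝ → ℝ → ℝ := fun t y z => Xy t y + Ay t y z with hPy
  set Pyy : ℝ → ℝ → ℝ → ℝ := fun t y z => Xyy t y + Ayy t y z with hPyy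
  set S : ℝ → ℝ → ℝ → ℝ := fun t y x => Z t y + W t y * v t x with hS
  set St : ℝ → ℝ → ℝ → ℝ := fun t y x => Zt t y + (Wt t y * v t x + W t y * vt t x) with hSt
  set Sy : ℝ → ℝ → ℝ → ℝ := fun t y x => Zy t y + Wy t y * v t x with hSy
  set Syy : ℝ → ℝ → ℝ → ℝ := fun t y x => Zyy t y + Wt t y * v t x with hSyy
  set Sx : ℝ → ℝ → ℝ → ℝ := fun t y x => W t y * vz t x with hSx
  set Sxx : ℝ → ℝ → ℝ → ℝ := fun t y x => W t y * vt t x with hSxx
  set O3 : ℝ → ℝ → ℝ → ℝ := fun _ _ _ => 0 with hO3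
  have cP := cX.add hA.c
  have cPt := cXt.add hA.ct
  have cPy := cXy.add hA.cy
  have cPyy := cXyy.add hA.cyy
  have cS := cZ.add (cW.mul cv)
  have cSt := cZt.add ((cWt.mul cv).add (cW.mul cvt))
  have cSy := cZy.add (cWy.mul cv)
  have cSyy := cZyy.add (cWt.mul cv)
  have cSx := cW.mul cvz
  have cSxx := cW.mul cvt
  have c0 : ContinuousOn (fun x : ℝ × ℝ × ℝ => O3 x.1 x.2.1 x.2.2)
      (Ioi 0 ×ˢ (Icc (-a) a ×ˢ Icc (-b) b)) := continuousOn_const
  set u : ℝ → Sp 3 → Sp 3 := fun t x => vec (P t (x 1) (x 2)) (S t (x 1) (x 0)) with hu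
  set ut : ℝ → Sp 3 → Sp 3 := fun t x => vec (Pt t (x 1) (x 2)) (St t (x 1) (x 0)) with hut
  set D : Fin 3 → ℝ → Sp 3 → Sp 3 := ![fun t x => vec (O3 t (x 1) (x 2)) (Sx t (x 1) (x 0)),
    fun t x => vec (Py t (x 1) (x 2)) (Sy t (x 1) (x 0)),
    fun t x => vec (Az t (x 1) (x 2)) (O3 t (x 1) (x 0))] with hD
  set DD : Fin 3 → ℝ → Sp 3 → Sp 3 := ![fun t x => vec (O3 t (x 1) (x 2)) (Sxx t (x 1) (x 0)),
    fun t x => vec (Pyy t (x 1) (x 2)) (Syy t (x 1) (x 0)),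
    fun t x => vec (Azz t (x 1) (x 2)) (O3 t (x 1) (x 0))] with hDD
  set p : ℝ → Sp 3 → ℝ := fun t x => g t * x 0 + k t * x 2 with hp
  set dp : ℝ → Sp 3 → Sp 3 := fun t _ => vec (g t) (k t) with hdp
  -- vanishing
  have hX0 : ∀ t, T / 4 ≤ t → ∀ y, X t y = 0 := fun t ht y => hX.zero t y ht
  have hZ0 : ∀ t, T / 4 ≤ t → ∀ y, Z t y = 0 := fun t ht y => hZ.zero t y ht
  have hXy0 : ∀ t, T / 4 ≤ t → ∀ y, |y| < 2 * a → Xy t y = 0 := by
    intro t ht y hy
    have h1 := hX.dy t y (hT4.trans_le ht) hy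
    have h2 : (fun v => X t v) = fun _ => 0 := funext fun v => hX.zero t v ht
    rw [h2] at h1
    exact h1.unique (hasDerivAt_const y (0 : ℝ))
  have hZy0 : ∀ t, T / 4 ≤ t → ∀ y, |y| < 2 * a → Zy t y = 0 := by
    intro t ht y hy
    have h1 := hZ.dy t y (hT4.trans_le ht) hy
    have h2 : (fun v => Z t v) = fun _ => 0 := funext fun v => hZ.zero t v ht
    rw [h2] at h1
    exact h1.unique (hasDerivAt_const y (0 : ℝ))
  have hvz0 : ∀ t, T ≤ t → ∀ z, |z| < 2 * b → vz t z = 0 := by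
    intro t ht z hz
    have h1 := hv.dz t z (hT.trans_le ht) hz
    have h2 : (fun s => v t s) = fun _ => 0 := funext fun s => hv.zero t s ht
    rw [h2] at h1
    exact h1.unique (hasDerivAt_const z (0 : ℝ))
  have hbox : ∀ {x : Sp 3}, x ∈ box a b → x 1 ∈ Icc (-a) a ∧ x 0 ∈ Icc (-b) b ∧ x 2 ∈ Icc (-b) b :=
    fun hx => ⟨abs_le.1 hx.1, abs_le.1 hx.2.1, abs_le.1 hx.2.2⟩
  have hobox : ∀ {x : Sp 3}, x ∈ obox a b →
      x 1 ∈ Ioo (-a) a ∧ x 0 ∈ Ioo (-b) b ∧ x 2 ∈ Ioo (-b) b :=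
    fun hx => ⟨abs_lt.1 hx.1, abs_lt.1 hx.2.1, abs_lt.1 hx.2.2⟩
  have cD : ∀ i, ContinuousOn (fun z : ℝ × Sp 3 => D i z.1 z.2) (Ioi 0 ×ˢ box a b) := by
    intro i
    fin_cases i
    · exact cont_field c0 cSx
    · exact cont_field cPy cSy
    · exact cont_field hA.cz c0
  refine ⟨u, p, ut, D, DD, dp, cont_field cP cS, ?_, cont_field cPt cSt, cD, ?_, ?_, ?_, ?_, ?_,
    ?_, ?_, ?_, ?_, ?_, ?_, ?_⟩
  · -- continuity of the pressure
    have hc : ∀ i : Fin 3, Continuous fun x : Sp 3 => x i := fun i =>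
      (EuclideanSpace.proj i : Sp 3 →L[ℝ] ℝ).continuous
    have h1 : ContinuousOn (fun z : ℝ × Sp 3 => g z.1) (Ioi 0 ×ˢ box a b) :=
      hX.gsmooth.continuousOn.comp (t := Ioi 0) continuous_fst.continuousOn fun z hz => hz.1
    have h2 : ContinuousOn (fun z : ℝ × Sp 3 => k z.1) (Ioi 0 ×ˢ box a b) :=
      hZ.gsmooth.continuousOn.comp (t := Ioi 0) continuous_fst.continuousOn fun z hz => hz.1
    exact (h1.mul ((hc 0).comp continuous_snd).continuousOn).add
      (h2.mul ((hc 2).comp continuous_snd).continuousOn)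
  · intro i
    fin_cases i
    · exact cont_field c0 cSxx
    · exact cont_field cPyy cSyy
    · exact cont_field hA.czz c0
  · have h1 : ContinuousOn (fun z : ℝ × Sp 3 => g z.1) (Ioi 0 ×ˢ box a b) :=
      hX.gsmooth.continuousOn.comp (t := Ioi 0) continuous_fst.continuousOn fun z hz => hz.1
    have h2 : ContinuousOn (fun z : ℝ × Sp 3 => k z.1) (Ioi 0 ×ˢ box a b) :=
      hZ.gsmooth.continuousOn.comp (t := Ioi 0) continuous_fst.continuousOn fun z hz => hz.1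
    exact vec_cont h1 h2
  · -- time derivative
    intro t ht x hx
    obtain ⟨q1, q0, q2⟩ := hobox hx
    have r1 := Ioo_subset_Icc_self q1
    have r0 := Ioo_subset_Icc_self q0
    have r2 := Ioo_subset_Icc_self q2
    refine vec_hasDeriv ((hX.dt t _ ht (ya r1)).add (hA.dt t ht _ r1 _ r2)) ?_
    exact (hZ.dt t _ ht (ya r1)).add ((hW.dt t _ ht (ya r1)).mul (hv.dt t _ ht (zb r0)))
  · -- first derivatives
    intro t ht x hx i
    obtain ⟨q1, q0, q2⟩ := hobox hx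
    have r1 := Ioo_subset_Icc_self q1
    have r0 := Ioo_subset_Icc_self q0
    have r2 := Ioo_subset_Icc_self q2
    fin_cases i
    · refine line0 (p := P t) (s := S t) ?_
      exact ((hv.dz t _ ht (zb r0)).const_mul (W t (x 1))).const_add (Z t (x 1))
    · refine line1 (p := P t) (s := S t) ?_ ?_
      · exact (hX.dy t _ ht (ya r1)).add (hA.dy t ht _ q1 _ r2)
      · exact (hZ.dy t _ ht (ya r1)).add ((hW.dy t _ ht (ya r1)).mul_const _)
    · refine line2 (p := P t) (s := S t) ?_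
      exact (hA.dz t ht _ r1 _ q2).const_add (X t (x 1))
  · -- second derivatives
    intro t ht x hx i
    obtain ⟨q1, q0, q2⟩ := hobox hx
    have r1 := Ioo_subset_Icc_self q1
    have r0 := Ioo_subset_Icc_self q0
    have r2 := Ioo_subset_Icc_self q2
    fin_cases i
    · refine line0 (p := O3 t) (s := Sx t) ?_
      exact (hv.dzz t _ ht (zb r0)).const_mul (W t (x 1))
    · refine line1 (p := Py t) (s := Sy t) ?_ ?_
      · exact (hX.dyy t _ ht (ya r1)).add (hA.dyy t ht _ q1 _ r2)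
      · exact (hZ.dyy t _ ht (ya r1)).add ((hW.dyy t _ ht (ya r1)).mul_const _)
    · refine line2 (p := Az t) (s := O3 t) ?_
      exact hA.dzz t ht _ r1 _ q2
  · -- pressure
    intro t ht x hx i
    have h0 : HasDerivAt (fun r : ℝ => x 0 + r) 1 0 := (hasDerivAt_id _).const_add (x 0)
    have h2 : HasDerivAt (fun r : ℝ => x 2 + r) 1 0 := (hasDerivAt_id _).const_add (x 2)
    fin_cases i
    · have h := ((h0.const_mul (g t)).add_const (k t * x 2))
      rw [mul_one] at h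
      refine h.congr_of_eventuallyEq (Eventually.of_forall fun r => ?_)
      simp [hp]
    · have h := hasDerivAt_const (0 : ℝ) (g t * x 0 + k t * x 2)
      refine h.congr_of_eventuallyEq (Eventually.of_forall fun r => ?_)
      simp [hp]
    · have h := ((h2.const_mul (k t)).const_add (g t * x 0))
      rw [mul_one] at h
      refine h.congr_of_eventuallyEq (Eventually.of_forall fun r => ?_)
      simp [hp]
  · -- momentum
    intro t ht x hx
    obtain ⟨r1, r0, r2⟩ := hbox hx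
    have hpde := hA.pde t ht _ r1 _ r2
    have hXh := hX.heat t (x 1)
    have hZh := hZ.heat t (x 1)
    have k1 : (Z t (x 1) + W t (x 1) * v t (x 0)) * Az t (x 1) (x 2) =
        W t (x 1) * Az t (x 1) (x 2) := by
      rcases le_or_gt t (T / 4) with q | q
      · rw [(hA.early t ht (by rw [e24]; exact q) _ r1 _ r2).2.2]
        ring
      · rcases le_or_gt t (T / 2) with q' | q'
        · rw [hZ0 t q.le, hv.one t _ ht q']
          ring
        · rw [(hA.late t q'.le _ r1 _ r2).2.2]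
          ring
    have k2 : (X t (x 1) + A t (x 1) (x 2)) * (W t (x 1) * vz t (x 0)) = 0 := by
      rcases le_or_gt t (T / 2) with q | q
      · rw [hv.onez t _ ht q]
        ring
      · rw [hX0 t (by linarith), (hA.late t q.le _ r1 _ r2).1]
        ring
    have hsum : ∀ (F : Fin 3 → Sp 3), ∑ i, F i = F 0 + F 1 + F 2 := fun F => Fin.sum_univ_three F
    rw [hsum, hsum]
    ext m
    fin_cases m
    · show Xt t (x 1) + At t (x 1) (x 2) + ((X t (x 1) + A t (x 1) (x 2)) * 0 +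
        0 * (Xy t (x 1) + Ay t (x 1) (x 2)) +
        (Z t (x 1) + W t (x 1) * v t (x 0)) * Az t (x 1) (x 2)) -
        (0 + (Xyy t (x 1) + Ayy t (x 1) (x 2)) + Azz t (x 1) (x 2)) + g t = 0
      rw [k1]
      linarith
    · show (0 : ℝ) + ((X t (x 1) + A t (x 1) (x 2)) * 0 + 0 * 0 +
        (Z t (x 1) + W t (x 1) * v t (x 0)) * 0) - (0 + 0 + 0) + 0 = 0
      ring
    · show Zt t (x 1) + (Wt t (x 1) * v t (x 0) + W t (x 1) * vt t (x 0)) +
        ((X t (x 1) + A t (x 1) (x 2)) * (W t (x 1) * vz t (x 0)) +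
        0 * (Zy t (x 1) + Wy t (x 1) * v t (x 0)) +
        (Z t (x 1) + W t (x 1) * v t (x 0)) * 0) -
        (W t (x 1) * vt t (x 0) + (Zyy t (x 1) + Wt t (x 1) * v t (x 0)) + 0) + k t = 0
      rw [k2]
      linarith
  · -- divergence
    intro t _ x _
    rw [Fin.sum_univ_three]
    show (0 : ℝ) + 0 + 0 = 0
    ring
  · -- walls
    intro t ht x hx hw
    obtain ⟨r1, r0, r2⟩ := hbox hx
    have h1 : x 1 = a ∨ x 1 = -a := by
      rcases abs_choice (x 1) with h3 | h3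
      · left
        rw [← h3, hw]
      · right
        rw [← hw, h3, neg_neg]
    have h2 : X t (x 1) = 0 ∧ Z t (x 1) = 0 ∧ W t (x 1) = 0 ∧ A t (x 1) (x 2) = 0 := by
      rcases h1 with h3 | h3
      · rw [h3]
        exact ⟨hXa t, hZa t, (hW.wall t ht).1, (hA.wall t ht _ r2).1⟩
      · rw [h3]
        exact ⟨hXa' t, hZa' t, (hW.wall t ht).2, (hA.wall t ht _ r2).2⟩
    show vec (X t (x 1) + A t (x 1) (x 2)) (Z t (x 1) + W t (x 1) * v t (x 0)) = 0
    rw [h2.1, h2.2.1, h2.2.2.1, h2.2.2.2, vec_eq]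
    simp
  · -- rest
    intro t ht x hx
    obtain ⟨r1, r0, r2⟩ := hbox hx
    show vec (X t (x 1) + A t (x 1) (x 2)) (Z t (x 1) + W t (x 1) * v t (x 0)) = 0
    rw [hX0 t (by linarith), hZ0 t (by linarith), hv.zero t _ ht,
      (hA.late t (by linarith) _ r1 _ r2).1, vec_eq]
    simp
  · -- initial data
    have cy : ∀ {F Fy : ℝ → ℝ → ℝ}, (∀ t y, 0 < t → |y| < 2 * a → HasDerivAt (fun v => F t v)
        (Fy t y) y) → ∀ t, 0 < t → ContinuousOn (F t) (Icc (-a) a) := fun h t ht y hy =>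
      (h t y ht (ya hy)).continuousAt.continuousWithinAt
    have l := h2 a b ha hb U₀ h0 hU (fun t y => X t y + Vo t y) (fun t y => Z t y + W t y)
      (fun t ht => (cy hX.dy t ht).add (cy hV.dy t ht))
      (fun t ht => (cy hZ.dy t ht).add (cy hW.dy t ht))
      (h3 a (T / 4) ha hT4 _ (hUk 0) X Xt Xy Xyy g Vo Vot Voy hX hV)
      (h3 a (T / 4) ha hT4 _ (hUk 2) Z Zt Zy Zyy k W Wt Wy hZ hW)
    refine l.congr' ?_
    have hsmall : Ioo (0 : ℝ) (T / 4) ∈ 𝓝[>] (0 : ℝ) := Ioo_mem_nhdsGT hT4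
    filter_upwards [hsmall] with t ht
    refine setLIntegral_congr_fun (box_meas a b) fun x hx => ?_
    obtain ⟨r1, r0, r2⟩ := hbox hx
    show ‖vec (X t (x 1) + Vo t (x 1)) (Z t (x 1) + W t (x 1)) - U₀ (x 1)‖ₑ ^ 2 =
      ‖vec (X t (x 1) + A t (x 1) (x 2)) (Z t (x 1) + W t (x 1) * v t (x 0)) - U₀ (x 1)‖ₑ ^ 2
    rw [(hA.early t ht.1 (by rw [e24]; exact ht.2.le) _ r1 _ r2).1,
      hv.one t _ ht.1 (by linarith [ht.2]), mul_one]
  · -- energy
    refine h4 a b (T / 4) T ha hb hT4 (by linarith) D ![Xy, Voy, Zy, Wy] cD ?_ ?_ ?_ ?_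
    · intro t ht x hx i
      obtain ⟨r1, r0, r2⟩ := hbox hx
      fin_cases i
      · show vec 0 (W t (x 1) * vz t (x 0)) = 0
        rw [hvz0 t ht _ (zb r0), vec_eq]
        simp
      · show vec (Xy t (x 1) + Ay t (x 1) (x 2)) (Zy t (x 1) + Wy t (x 1) * v t (x 0)) = 0
        rw [hXy0 t (by linarith) _ (ya r1), hZy0 t (by linarith) _ (ya r1), hv.zero t _ ht,
          (hA.late t (by linarith) _ r1 _ r2).2.1, vec_eq]
        simp
      · show vec (Az t (x 1) (x 2)) 0 = 0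
        rw [(hA.late t (by linarith) _ r1 _ r2).2.2, vec_eq]
        simp
    · have cc : ∀ {F : ℝ → ℝ → ℝ}, ContinuousOn (fun q : ℝ × ℝ => F q.1 q.2) (Dom (2 * a)) →
          ContinuousOn (fun q : ℝ × ℝ => F q.1 q.2) (Ioi 0 ×ˢ Icc (-a) a) := fun h =>
        h.mono fun q hq => ⟨hq.1, ya hq.2⟩
      intro i
      fin_cases i
      · exact cc hX.ycont
      · exact cc hV.ycont
      · exact cc hZ.ycont
      · exact cc hW.ycont
    · intro i
      fin_cases i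
      · exact hX.en
      · exact hV.en
      · exact hZ.en
      · exact hW.en
    · intro t ht ht' x hx
      obtain ⟨r1, r0, r2⟩ := hbox hx
      have two : ∀ x y : ℝ≥0∞, (x + y) ^ 2 ≤ 2 * x ^ 2 + 2 * y ^ 2 := by
        intro x y
        have h1 := ENNReal.rpow_add_le_mul_rpow_add_rpow x y (p := 2) (by norm_num)
        have e2 : (2 : ℝ≥0∞) ^ ((2 : ℝ) - 1) = 2 := by norm_num
        rw [e2] at h1
        have e3 : ∀ z : ℝ≥0∞, z ^ (2 : ℝ) = z ^ 2 := fun z => by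
          rw [← ENNReal.rpow_natCast]
          norm_num
        rw [e3, e3, e3, mul_add] at h1
        exact h1
      have e0 : D 0 t x = 0 := by
        show vec 0 (W t (x 1) * vz t (x 0)) = 0
        rw [hv.onez t _ ht (by linarith), vec_eq]
        simp
      have e2 : D 2 t x = 0 := by
        show vec (Az t (x 1) (x 2)) 0 = 0
        rw [(hA.early t ht (by rw [e24]; exact ht') _ r1 _ r2).2.2, vec_eq]
        simp
      have e1 : ‖D 1 t x‖ₑ ^ 2 = ‖Xy t (x 1) + Voy t (x 1)‖ₑ ^ 2 + ‖Zy t (x 1) + Wy t (x 1)‖ₑ ^ 2 := by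
        have : D 1 t x = vec (Xy t (x 1) + Voy t (x 1)) (Zy t (x 1) + Wy t (x 1)) := by
          show vec (Xy t (x 1) + Ay t (x 1) (x 2)) (Zy t (x 1) + Wy t (x 1) * v t (x 0)) = _
          rw [(hA.early t ht (by rw [e24]; exact ht') _ r1 _ r2).2.1,
            hv.one t _ ht (by linarith), mul_one]
        rw [this, enorm_sq_eq, Fin.sum_univ_three, vec0, vec1, vec2]
        simp
      rw [Fin.sum_univ_three, e0, e1, e2, Fin.sum_univ_four]
      show _ ≤ 2 * (‖Xy t (x 1)‖ₑ ^ 2 + ‖Voy t (x 1)‖ₑ ^ 2 + ‖Zy t (x 1)‖ₑ ^ 2 +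
        ‖Wy t (x 1)‖ₑ ^ 2)
      have n1 : ‖Xy t (x 1) + Voy t (x 1)‖ₑ ^ 2 ≤
          2 * ‖Xy t (x 1)‖ₑ ^ 2 + 2 * ‖Voy t (x 1)‖ₑ ^ 2 := by
        refine le_trans ?_ (two _ _)
        have := enorm_add_le (Xy t (x 1)) (Voy t (x 1))
        gcongr
      have n2 : ‖Zy t (x 1) + Wy t (x 1)‖ₑ ^ 2 ≤
          2 * ‖Zy t (x 1)‖ₑ ^ 2 + 2 * ‖Wy t (x 1)‖ₑ ^ 2 := by
        refine le_trans ?_ (two _ _)
        have := enorm_add_le (Zy t (x 1)) (Wy t (x 1))
        gcongr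
      rw [enorm_zero, zero_pow (by norm_num), zero_add, add_zero]
      refine (add_le_add n1 n2).trans (le_of_eq ?_)
      ring

end Pool.Agent.H309.DF
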