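import Mathlib
import Pool.Agent.H309.DF.Stm

/-!
# The switch of project DF (helper309), by helper722
-/

set_option autoImplicit false

open Set Filter Topology

namespace Pool.Agent.H309.DF.LSwitchFam

open Pool.Agent.Q61.NC Pool.Agent.H309.DF

/-- the iterated shift -/
def S (Z : ℕ → ℝ → ℝ) (i : ℕ) : ℕ → ℝ → ℝ := fun n => Z (n + i)

theorem sh_S (Z : ℕ → ℝ → ℝ) (i : ℕ) : sh (S Z i) = S Z (i + 1) := by
  funext n
  show Z (n + 1 + i) = Z (n + (i + 1))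
  rw [show n + 1 + i = n + (i + 1) by ring]

theorem S_zero (Z : ℕ → ℝ → ℝ) : S Z 0 = Z := rfl

theorem good_S {Y : ℝ} (hY : 0 < Y) {Z : ℕ → ℝ → ℝ} (h : Good Y Z) (i : ℕ) : Good Y (S Z i) := by
  induction i with
  | zero => exact h
  | succ i ih =>
    rw [← sh_S]
    exact Good.shift hY ih

/-- the family -/
noncomputable def Rf (Z : ℕ → ℝ → ℝ) (j : ℕ) : ℝ → ℝ → ℝ :=
  if j % 2 = 0 then FE (S Z (j / 2)) else FO (S Z (j / 2 + 1))

theorem Rf_even (Z : ℕ → ℝ → ℝ) (i : ℕ) : Rf Z (2 * i) = FE (S Z i) := by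
  unfold Rf
  rw [if_pos (by omega), show 2 * i / 2 = i by omega]

theorem Rf_odd (Z : ℕ → ℝ → ℝ) (i : ℕ) : Rf Z (2 * i + 1) = FO (S Z (i + 1)) := by
  unfold Rf
  rw [if_neg (by omega), show (2 * i + 1) / 2 = i by omega]

theorem fact_le (m n : ℕ) : ((m + n).factorial : ℝ) ≤ 2 ^ (m + n) * (m.factorial : ℝ) * (n.factorial : ℝ) := by
  have h1 := Nat.add_choose_mul_factorial_mul_factorial m n
  have h2 : (m + n).choose n ≤ 2 ^ (m + n) := Nat.choose_le_two_pow _ _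
  have h3 : (m + n).factorial ≤ 2 ^ (m + n) * m.factorial * n.factorial := by
    rw [← h1]
    gcongr
  exact_mod_cast h3

theorem term_even {C r b : ℝ} (hC : 0 ≤ C) (hr : 0 < r) (hrb : 4 * r * b ^ 2 ≤ 1 / 2)
    {x z : ℝ} (i n : ℕ) (hx : |x| ≤ C * r ^ (n + i) * ((2 * (n + i)).factorial : ℝ)) (hz : |z| ≤ b) :
    |x * (z ^ (2 * n) / ((2 * n).factorial : ℝ))| ≤
      C * ((2 * i).factorial : ℝ) * (4 * r) ^ i * (1 / 2) ^ n := by
  have hf : ((2 * (n + i)).factorial : ℝ) ≤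
      2 ^ (2 * n + 2 * i) * ((2 * n).factorial : ℝ) * ((2 * i).factorial : ℝ) := by
    rw [show 2 * (n + i) = 2 * n + 2 * i by ring]
    exact fact_le _ _
  have hb0 : 0 ≤ b := (abs_nonneg z).trans hz
  have hzn : |z| ^ (2 * n) ≤ b ^ (2 * n) := pow_le_pow_left₀ (abs_nonneg z) hz _
  have h4 : (2 : ℝ) ^ (2 * n + 2 * i) = 4 ^ n * 4 ^ i := by
    rw [pow_add, pow_mul, pow_mul]
    norm_num
  have hfn : (0 : ℝ) < ((2 * n).factorial : ℝ) := by positivity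
  rw [abs_mul, abs_div, abs_pow, Nat.abs_cast]
  calc |x| * (|z| ^ (2 * n) / ((2 * n).factorial : ℝ))
      ≤ (C * r ^ (n + i) * (2 ^ (2 * n + 2 * i) * ((2 * n).factorial : ℝ) * ((2 * i).factorial : ℝ))) *
          (b ^ (2 * n) / ((2 * n).factorial : ℝ)) := by
        gcongr
        exact hx.trans (by gcongr)
    _ = C * ((2 * i).factorial : ℝ) * (4 * r) ^ i * (4 * r * b ^ 2) ^ n := by
        rw [h4]
        field_simp
        ring
    _ ≤ C * ((2 * i).factorial : ℝ) * (4 * r) ^ i * (1 / 2) ^ n := by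
        gcongr

theorem term_odd {C r b : ℝ} (hC : 0 ≤ C) (hr : 0 < r) (hrb : 4 * r * b ^ 2 ≤ 1 / 2)
    {x z : ℝ} (i n : ℕ) (hx : |x| ≤ C * r ^ (n + (i + 1)) * ((2 * (n + (i + 1))).factorial : ℝ))
    (hz : |z| ≤ b) :
    |x * (z ^ (2 * n + 1) / ((2 * n + 1).factorial : ℝ))| ≤
      C * ((2 * i + 1).factorial : ℝ) * (4 * r) ^ (i + 1) * b * (1 / 2) ^ n := by
  have hf : ((2 * (n + (i + 1))).factorial : ℝ) ≤
      2 ^ ((2 * n + 1) + (2 * i + 1)) * ((2 * n + 1).factorial : ℝ) * ((2 * i + 1).factorial : ℝ) := by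
    rw [show 2 * (n + (i + 1)) = (2 * n + 1) + (2 * i + 1) by ring]
    exact fact_le _ _
  have hb0 : 0 ≤ b := (abs_nonneg z).trans hz
  have hzn : |z| ^ (2 * n + 1) ≤ b ^ (2 * n + 1) := pow_le_pow_left₀ (abs_nonneg z) hz _
  have h4 : (2 : ℝ) ^ ((2 * n + 1) + (2 * i + 1)) = 4 ^ n * 4 ^ (i + 1) := by
    rw [show (2 * n + 1) + (2 * i + 1) = 2 * n + 2 * (i + 1) by ring, pow_add, pow_mul, pow_mul]
    norm_num
  have hfn : (0 : ℝ) < ((2 * n + 1).factorial : ℝ) := by positivity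
  rw [abs_mul, abs_div, abs_pow, Nat.abs_cast]
  calc |x| * (|z| ^ (2 * n + 1) / ((2 * n + 1).factorial : ℝ))
      ≤ (C * r ^ (n + (i + 1)) *
          (2 ^ ((2 * n + 1) + (2 * i + 1)) * ((2 * n + 1).factorial : ℝ) * ((2 * i + 1).factorial : ℝ))) *
          (b ^ (2 * n + 1) / ((2 * n + 1).factorial : ℝ)) := by
        gcongr
        exact hx.trans (by gcongr)
    _ = C * ((2 * i + 1).factorial : ℝ) * (4 * r) ^ (i + 1) * b * (4 * r * b ^ 2) ^ n := by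
        rw [h4]
        field_simp
        ring
    _ ≤ C * ((2 * i + 1).factorial : ℝ) * (4 * r) ^ (i + 1) * b * (1 / 2) ^ n := by
        gcongr

theorem FE_bound {C r b : ℝ} (hC : 0 ≤ C) (hr : 0 < r) (hrb : 4 * r * b ^ 2 ≤ 1 / 2)
    {Z : ℕ → ℝ → ℝ} {t z : ℝ} (hZ : ∀ i, |Z i t| ≤ C * r ^ i * ((2 * i).factorial : ℝ)) (hz : |z| ≤ b)
    (i : ℕ) : |FE (S Z i) t z| ≤ 2 * C * ((2 * i).factorial : ℝ) * (4 * r) ^ i := by
  have h1 : HasSum (fun n : ℕ => C * ((2 * i).factorial : ℝ) * (4 * r) ^ i * (1 / 2) ^ n)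
      (C * ((2 * i).factorial : ℝ) * (4 * r) ^ i * 2) := hasSum_geometric_two.mul_left _
  have h2 := tsum_of_norm_bounded h1
    (f := fun n : ℕ => S Z i n t * (z ^ (2 * n) / ((2 * n).factorial : ℝ)))
    (fun n => by
      rw [Real.norm_eq_abs]
      exact term_even hC hr hrb i n (hZ (n + i)) hz)
  rw [Real.norm_eq_abs] at h2
  calc |FE (S Z i) t z| ≤ _ := h2
    _ = _ := by ring

theorem FO_bound {C r b : ℝ} (hC : 0 ≤ C) (hr : 0 < r) (hrb : 4 * r * b ^ 2 ≤ 1 / 2)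
    {Z : ℕ → ℝ → ℝ} {t z : ℝ} (hZ : ∀ i, |Z i t| ≤ C * r ^ i * ((2 * i).factorial : ℝ)) (hz : |z| ≤ b)
    (i : ℕ) : |FO (S Z (i + 1)) t z| ≤ 2 * C * ((2 * i + 1).factorial : ℝ) * (4 * r) ^ (i + 1) * b := by
  have h1 : HasSum (fun n : ℕ => C * ((2 * i + 1).factorial : ℝ) * (4 * r) ^ (i + 1) * b * (1 / 2) ^ n)
      (C * ((2 * i + 1).factorial : ℝ) * (4 * r) ^ (i + 1) * b * 2) := hasSum_geometric_two.mul_left _
  have h2 := tsum_of_norm_bounded h1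
    (f := fun n : ℕ => S Z (i + 1) n t * (z ^ (2 * n + 1) / ((2 * n + 1).factorial : ℝ)))
    (fun n => by
      rw [Real.norm_eq_abs]
      exact term_odd hC hr hrb i n (hZ (n + (i + 1))) hz)
  rw [Real.norm_eq_abs] at h2
  calc |FO (S Z (i + 1)) t z| ≤ _ := h2
    _ = _ := by ring

theorem tSwitchFam : Pool.Agent.H309.DF.SwitchFam := by
  intro b T ε hb hT hε
  -- the size
  obtain ⟨K, hKdef⟩ : ∃ K : ℝ, K = 16 / ε ^ 2 + 32 * b ^ 2 := ⟨_, rfl⟩
  have hK : 0 < K := by rw [hKdef]; positivity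
  have hK1 : 16 / ε ^ 2 ≤ K := by rw [hKdef]; nlinarith [sq_nonneg b]
  have hK2 : 32 * b ^ 2 ≤ K := by
    rw [hKdef]
    have : 0 < 16 / ε ^ 2 := by positivity
    linarith
  obtain ⟨r, hrdef⟩ : ∃ r : ℝ, r = 4 * K⁻¹ := ⟨_, rfl⟩
  have hr : 0 < r := by rw [hrdef]; positivity
  have hrK : r * K = 4 := by rw [hrdef]; field_simp
  have hrb : 4 * r * b ^ 2 ≤ 1 / 2 := by
    have : r * (32 * b ^ 2) ≤ r * K := by gcongr
    nlinarith
  have hre : 4 * r ≤ ε ^ 2 := by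
    have h1 : r * (16 / ε ^ 2) ≤ r * K := by gcongr
    rw [hrK] at h1
    have h2 : 0 < ε ^ 2 := by positivity
    have h3 : r * (16 / ε ^ 2) = 16 * r / ε ^ 2 := by ring
    rw [h3, div_le_iff₀ h2] at h1
    linarith
  obtain ⟨Z, hZdef⟩ : ∃ Z : ℕ → ℝ → ℝ, Z = cutJ T K := ⟨_, rfl⟩
  have hbd : Bd r Z := by rw [hZdef, hrdef]; exact cutJ_bd T K hT hK
  have hgood : Good (2 * b) Z := by
    refine ⟨by rw [hZdef]; exact cutJ_jet T K, fun t₁ ht₁ => ?_⟩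
    obtain ⟨C, hC, h⟩ := hbd t₁ ht₁
    exact ⟨C, r, hC, hr, by nlinarith, h⟩
  have h2b : 0 < 2 * b := by positivity
  have hg := good_S h2b hgood
  have habs : ∀ z ∈ Icc (-b) b, |z| < 2 * b := fun z hz => by
    have := abs_le.2 hz
    linarith
  have hsub : Ioi (0 : ℝ) ×ˢ Icc (-b) b ⊆ Dom (2 * b) := fun q hq => ⟨hq.1, habs q.2 hq.2⟩
  refine ⟨Rf Z, ?_, ?_, ?_, ?_, ?_, ?_, ?_⟩
  · intro j
    rcases Nat.even_or_odd' j with ⟨i, rfl | rfl⟩
    · rw [Rf_even]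
      exact ((smooth_FE h2b (hg i)).continuousOn).mono hsub
    · rw [Rf_odd]
      exact ((smooth_FO h2b (hg (i + 1))).continuousOn).mono hsub
  · intro j t ht z hz
    rcases Nat.even_or_odd' j with ⟨i, rfl | rfl⟩
    · rw [Rf_even, show 2 * i + 2 = 2 * (i + 1) by ring, Rf_even, ← sh_S]
      exact FE_dt h2b (hg i) ht (habs z hz)
    · rw [Rf_odd, show 2 * i + 1 + 2 = 2 * (i + 1) + 1 by ring, Rf_odd, ← sh_S Z (i + 1)]
      exact FO_dt h2b (hg (i + 1)) ht (habs z hz)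
  · intro j t ht z hz
    rcases Nat.even_or_odd' j with ⟨i, rfl | rfl⟩
    · rw [Rf_even, Rf_odd, ← sh_S]
      exact FE_dy h2b (hg i) ht (habs z hz)
    · rw [Rf_odd, show 2 * i + 1 + 1 = 2 * (i + 1) by ring, Rf_even]
      exact FO_dy h2b (hg (i + 1)) ht (habs z hz)
  · intro t z h0 ht
    have h1 : Rf Z 0 = FE Z := Rf_even Z 0
    rw [h1, FE, tsum_eq_single 0]
    · rw [hZdef, cutJ_left T K hK 0 h0 ht]
      simp
    · intro n hn
      rw [hZdef, cutJ_left T K hK n h0 ht, if_neg hn, zero_mul]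
  · intro j t z h0 ht
    have h1 : ∀ i n : ℕ, S Z (i + 1) n t = 0 := fun i n => by
      show Z (n + (i + 1)) t = 0
      rw [hZdef, cutJ_left T K hK _ h0 ht, if_neg (by omega)]
    rcases Nat.even_or_odd' j with ⟨i, rfl | rfl⟩
    · rw [Rf_odd]
      exact FO_of_zero (h1 i) z
    · rw [show 2 * i + 1 + 1 = 2 * (i + 1) by ring, Rf_even]
      exact FE_of_zero (h1 i) z
  · intro j t z ht
    have h1 : ∀ i n : ℕ, S Z i n t = 0 := fun i n => by
      show Z (n + i) t = 0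
      rw [hZdef]
      exact cutJ_right T K hT hK _ ht
    rcases Nat.even_or_odd' j with ⟨i, rfl | rfl⟩
    · rw [Rf_even]
      exact FE_of_zero (h1 i) z
    · rw [Rf_odd]
      exact FO_of_zero (h1 (i + 1)) z
  · intro t₁ ht₁
    obtain ⟨C, hC, h⟩ := hbd t₁ ht₁
    refine ⟨2 * C * (1 + ε * b), by positivity, fun j t ht z hz => ?_⟩
    have hz' : |z| ≤ b := abs_le.2 hz
    rcases Nat.even_or_odd' j with ⟨i, rfl | rfl⟩
    · rw [Rf_even]
      have h1 := FE_bound hC hr hrb (fun n => h n t ht) hz' i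
      calc |FE (S Z i) t z| ≤ 2 * C * ((2 * i).factorial : ℝ) * (4 * r) ^ i := h1
        _ ≤ 2 * C * ((2 * i).factorial : ℝ) * (ε ^ 2) ^ i := by gcongr
        _ = 2 * C * 1 * ((2 * i).factorial : ℝ) * ε ^ (2 * i) := by rw [pow_mul]; ring
        _ ≤ 2 * C * (1 + ε * b) * ((2 * i).factorial : ℝ) * ε ^ (2 * i) := by
            gcongr
            have : 0 < ε * b := by positivity
            linarith
    · rw [Rf_odd]
      have h1 := FO_bound hC hr hrb (fun n => h n t ht) hz' i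
      calc |FO (S Z (i + 1)) t z| ≤ 2 * C * ((2 * i + 1).factorial : ℝ) * (4 * r) ^ (i + 1) * b := h1
        _ ≤ 2 * C * ((2 * i + 1).factorial : ℝ) * (ε ^ 2) ^ (i + 1) * b := by gcongr
        _ = 2 * C * (ε * b) * ((2 * i + 1).factorial : ℝ) * ε ^ (2 * i + 1) := by
            rw [← pow_mul, show 2 * (i + 1) = (2 * i + 1) + 1 by ring, pow_succ]; ring
        _ ≤ 2 * C * (1 + ε * b) * ((2 * i + 1).factorial : ℝ) * ε ^ (2 * i + 1) := by
            gcongr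
            linarith

end Pool.Agent.H309.DF.LSwitchFam
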